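import Pool.Agent.Helper76.BN.ChkC2

/-!
Block N of MP_3942cb_co: kernel evaluation of the check of N11, N12, N18.
-/

namespace BN

theorem runC_m1_3 : verify outQ (chkC 4 7) 8 (-1) (-3) 0 = true := by decide +kernel

theorem runC_m1_2 : verify outQ (chkC 4 7) 8 (-1) (-2) 0 = true := by decide +kernel

theorem runC_m1_1 : verify outQ (chkC 4 7) 8 (-1) (-1) 0 = true := by decide +kernel

theorem runC_0_3 : verify outQ (chkC 4 7) 8 (0) (-3) 0 = true := by decide +kernel

theorem runC_0_2 : verify outQ (chkC 4 7) 8 (0) (-2) 0 = true := by decide +kernel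

theorem runC_0_1 : verify outQ (chkC 4 7) 8 (0) (-1) 0 = true := by decide +kernel

theorem runC_1_3 : verify outQ (chkC 4 7) 8 (1) (-3) 0 = true := by decide +kernel

theorem runC_1_2 : verify outQ (chkC 4 7) 8 (1) (-2) 0 = true := by decide +kernel

theorem runC_1_1 : verify outQ (chkC 4 7) 8 (1) (-1) 0 = true := by decide +kernel

theorem runC_2_3 : verify outQ (chkC 4 7) 8 (2) (-3) 0 = true := by decide +kernel

theorem runC_2_2 : verify outQ (chkC 4 7) 8 (2) (-2) 0 = true := by decide +kernel

theorem runC_2_1 : verify outQ (chkC 4 7) 8 (2) (-1) 0 = true := by decide +kernel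

theorem runC_3_3 : verify outQ (chkC 4 11) 8 (3) (-3) 0 = true := by decide +kernel

theorem runC_3_2 : verify outQ (chkC 4 11) 8 (3) (-2) 0 = true := by decide +kernel

theorem runC_3_1 : verify outQ (chkC 4 11) 8 (3) (-1) 0 = true := by decide +kernel

theorem runC_4_3 : verify outQ (chkC 4 11) 8 (4) (-3) 0 = true := by decide +kernel

theorem runC_4_2 : verify outQ (chkC 4 11) 8 (4) (-2) 0 = true := by decide +kernel

theorem runC_4_1 : verify outQ (chkC 4 11) 8 (4) (-1) 0 = true := by decide +kernel

theorem runC_5_3 : verify outQ (chkC 4 11) 8 (5) (-3) 0 = true := by decide +kernel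

theorem runC_5_2 : verify outQ (chkC 4 11) 8 (5) (-2) 0 = true := by decide +kernel

theorem runC_5_1 : verify outQ (chkC 4 11) 8 (5) (-1) 0 = true := by decide +kernel

theorem runC_6_3 : verify outQ (chkC 7 11) 8 (6) (-3) 0 = true := by decide +kernel

theorem runC_6_2 : verify outQ (chkC 7 11) 8 (6) (-2) 0 = true := by decide +kernel

theorem runC_6_1 : verify outQ (chkC 7 11) 8 (6) (-1) 0 = true := by decide +kernel

theorem runC_7_3 : verify outQ (chkC 7 11) 8 (7) (-3) 0 = true := by decide +kernel

theorem runC_7_2 : verify outQ (chkC 7 11) 8 (7) (-2) 0 = true := by decide +kernel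

theorem runC_7_1 : verify outQ (chkC 7 11) 8 (7) (-1) 0 = true := by decide +kernel

end BN
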