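import Pool.Agent.Helper76.BN.ChkF

/-!
Block N of MP_3942cb_co: kernel evaluation of the check of N14.
-/

namespace BN

theorem runD_m3 : verify1 (chkD 7) 8 (-3) 3 = true := by decide +kernel

theorem runD_m2 : verify1 (chkD 7) 8 (-2) 3 = true := by decide +kernel

theorem runD_m1 : verify1 (chkD 7) 8 (-1) 3 = true := by decide +kernel

theorem runV_m5 : verify1 (chkV 7) 8 (-5) 2 = true := by decide +kernel

theorem runV_m2 : verify1 (chkV 7) 8 (-2) 1 = true := by decide +kernel

theorem runV_m4 : verify1 (chkV 7) 8 (-4) 3 = true := by decide +kernel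

theorem runL1_m3 : verify1 (chkL 7 127 72 80 13454) 8 (-3) 3 = true := by decide +kernel

theorem runL1_m2 : verify1 (chkL 7 127 72 80 13454) 8 (-2) 3 = true := by decide +kernel

theorem runL1_m1 : verify1 (chkL 7 127 72 80 13454) 8 (-1) 3 = true := by decide +kernel

theorem runL1_0 : verify1 (chkL 7 127 72 80 13454) 8 (0) 2 = true := by decide +kernel

theorem runL2_1_2 : verify1 (chkL 7 20 7 12 11578) 8 (1) 2 = true := by decide +kernel

theorem runL2_1_1 : verify1 (chkL 7 20 7 12 11578) 8 (1) 1 = true := by decide +kernel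

theorem runL3_1 : verify1 (chkL 7 33 3 16 10175) 8 (1) 0 = true := by decide +kernel

theorem runL3_2 : verify1 (chkL 7 33 3 16 10175) 8 (2) 0 = true := by decide +kernel

theorem runL4_3 : verify1 (chkL 11 21 0 8 10000) 8 (3) 0 = true := by decide +kernel

theorem runL4_4 : verify1 (chkL 11 21 0 8 10000) 8 (4) 0 = true := by decide +kernel

theorem runL4_5 : verify1 (chkL 11 21 0 8 10000) 8 (5) 0 = true := by decide +kernel

theorem runL4_6 : verify1 (chkL 11 21 0 8 10000) 8 (6) 0 = true := by decide +kernel

theorem runL4_7 : verify1 (chkL 11 21 0 8 10000) 8 (7) 0 = true := by decide +kernel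

end BN
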