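import Pool.Agent.Helper76.BN.RunA
import Pool.Agent.Helper76.BN.RunC
import Pool.Agent.Helper76.BN.RunE
import Pool.Agent.Helper76.BN.RunF

/-!
Block N of MP_3942cb_co: assembly of the numerical facts.
-/

namespace BN

open ST3 Complex

theorem cover {z : ℂ} (h1 : -(3 / 8) ≤ z.re) (h2 : z.re ≤ 8) (h3 : -(21 / 8) ≤ z.im)
    (h4 : z.im ≤ 0) {Φ : Prop} (h : ∀ i j : ℤ, -1 ≤ i → i ≤ 7 → -3 ≤ j → j ≤ -1 →
      InSq i j 0 z → Φ) : Φ := by
  have a : ∃ i : ℤ, -1 ≤ i ∧ i ≤ 7 ∧ (i : ℝ) ≤ z.re ∧ z.re ≤ (i : ℝ) + 1 := by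
    rcases lt_or_ge z.re 8 with h8 | h8
    · refine ⟨⌊z.re⌋, ?_, ?_, Int.floor_le _, (Int.lt_floor_add_one _).le⟩
      · rw [Int.le_floor]; push_cast; linarith
      · have : ⌊z.re⌋ < 8 := by rw [Int.floor_lt]; exact_mod_cast h8
        omega
    · exact ⟨7, by norm_num, by norm_num, by push_cast; linarith, by push_cast; linarith⟩
  have b : ∃ j : ℤ, -3 ≤ j ∧ j ≤ -1 ∧ (j : ℝ) ≤ z.im ∧ z.im ≤ (j : ℝ) + 1 := by
    rcases lt_or_ge z.im 0 with h8 | h8
    · refine ⟨⌊z.im⌋, ?_, ?_, Int.floor_le _, (Int.lt_floor_add_one _).le⟩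
      · rw [Int.le_floor]; push_cast; linarith
      · have : ⌊z.im⌋ < 0 := by rw [Int.floor_lt]; exact_mod_cast h8
        omega
    · exact ⟨-1, by norm_num, by norm_num, by push_cast; linarith, by push_cast; linarith⟩
  obtain ⟨i, i1, i2, i3, i4⟩ := a
  obtain ⟨j, j1, j2, j3, j4⟩ := b
  exact h i j i1 i2 j1 j2 ⟨by simpa using i3, by simpa using i4, by simpa using j3,
    by simpa using j4⟩

theorem Q_im {z : ℂ} (hz : z ∈ Q) (him : z.im ≤ 0) : -(21 / 8) ≤ z.im := by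
  have := hz.2.2.2.2
  rw [abs_of_nonpos him] at this
  linarith

theorem FA_lower {z : ℂ} (hz : z ∈ QL) : FA z := by
  have hv : ∀ (N : ℕ) (i j : ℤ), verify outQ (chkA N) 8 i j 0 = true → InSq i j 0 z → FA z :=
    fun N i j h hs => verify_sound QL (fun i j k h z hz =>
      outQ_sound i j k h z hz.1 hz.2.1 hz.2.2.1) chkA_sound 8 i j 0 h z hz hs
  refine cover hz.1.1 hz.2.2.1 (Q_im hz.1 hz.2.1) hz.2.1 fun i j i1 i2 j1 j2 hs => ?_
  interval_cases i <;> interval_cases j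
  · exact hv _ _ _ runA_m1_3 hs
  · exact hv _ _ _ runA_m1_2 hs
  · exact hv _ _ _ runA_m1_1 hs
  · exact hv _ _ _ runA_0_3 hs
  · exact hv _ _ _ runA_0_2 hs
  · exact hv _ _ _ runA_0_1 hs
  · exact hv _ _ _ runA_1_3 hs
  · exact hv _ _ _ runA_1_2 hs
  · exact hv _ _ _ runA_1_1 hs
  · exact hv _ _ _ runA_2_3 hs
  · exact hv _ _ _ runA_2_2 hs
  · exact hv _ _ _ runA_2_1 hs
  · exact hv _ _ _ runA_3_3 hs
  · exact hv _ _ _ runA_3_2 hs
  · exact hv _ _ _ runA_3_1 hs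
  · exact hv _ _ _ runA_4_3 hs
  · exact hv _ _ _ runA_4_2 hs
  · exact hv _ _ _ runA_4_1 hs
  · exact hv _ _ _ runA_5_3 hs
  · exact hv _ _ _ runA_5_2 hs
  · exact hv _ _ _ runA_5_1 hs
  · exact hv _ _ _ runA_6_3 hs
  · exact hv _ _ _ runA_6_2 hs
  · exact hv _ _ _ runA_6_1 hs
  · exact hv _ _ _ runA_7_3 hs
  · exact hv _ _ _ runA_7_2 hs
  · exact hv _ _ _ runA_7_1 hs

theorem FC_lower {z : ℂ} (hz : z ∈ QL) : FC z := by
  have hv : ∀ (N K : ℕ) (i j : ℤ), verify outQ (chkC N K) 8 i j 0 = true → InSq i j 0 z → FC z :=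
    fun N K i j h hs => verify_sound QL (fun i j k h z hz =>
      outQ_sound i j k h z hz.1 hz.2.1 hz.2.2.1) chkC_sound 8 i j 0 h z hz hs
  refine cover hz.1.1 hz.2.2.1 (Q_im hz.1 hz.2.1) hz.2.1 fun i j i1 i2 j1 j2 hs => ?_
  interval_cases i <;> interval_cases j
  · exact hv _ _ _ _ runC_m1_3 hs
  · exact hv _ _ _ _ runC_m1_2 hs
  · exact hv _ _ _ _ runC_m1_1 hs
  · exact hv _ _ _ _ runC_0_3 hs
  · exact hv _ _ _ _ runC_0_2 hs
  · exact hv _ _ _ _ runC_0_1 hs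
  · exact hv _ _ _ _ runC_1_3 hs
  · exact hv _ _ _ _ runC_1_2 hs
  · exact hv _ _ _ _ runC_1_1 hs
  · exact hv _ _ _ _ runC_2_3 hs
  · exact hv _ _ _ _ runC_2_2 hs
  · exact hv _ _ _ _ runC_2_1 hs
  · exact hv _ _ _ _ runC_3_3 hs
  · exact hv _ _ _ _ runC_3_2 hs
  · exact hv _ _ _ _ runC_3_1 hs
  · exact hv _ _ _ _ runC_4_3 hs
  · exact hv _ _ _ _ runC_4_2 hs
  · exact hv _ _ _ _ runC_4_1 hs
  · exact hv _ _ _ _ runC_5_3 hs
  · exact hv _ _ _ _ runC_5_2 hs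
  · exact hv _ _ _ _ runC_5_1 hs
  · exact hv _ _ _ _ runC_6_3 hs
  · exact hv _ _ _ _ runC_6_2 hs
  · exact hv _ _ _ _ runC_6_1 hs
  · exact hv _ _ _ _ runC_7_3 hs
  · exact hv _ _ _ _ runC_7_2 hs
  · exact hv _ _ _ _ runC_7_1 hs

theorem N13_lower {z : ℂ} (hz : z ∈ PL) : 0 < ((6 - 13 * I) * (kap z / z)).re := by
  have hv : ∀ (N : ℕ) (i j : ℤ), verify outE (chkE N) 8 i j 0 = true → InSq i j 0 z →
      0 < ((6 - 13 * I) * (kap z / z)).re :=
    fun N i j h hs => verify_sound (Φ := fun z => 0 < ((6 - 13 * I) * (kap z / z)).re) PL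
      outE_sound chkE_sound 8 i j 0 h z hz hs
  refine cover hz.1.2.2.1.le hz.2 hz.1.2.2.2.2.2.2.le hz.1.1.le fun i j i1 i2 j1 j2 hs => ?_
  interval_cases i <;> interval_cases j
  · exact hv _ _ _ runE_m1_3 hs
  · exact hv _ _ _ runE_m1_2 hs
  · exact hv _ _ _ runE_m1_1 hs
  · exact hv _ _ _ runE_0_3 hs
  · exact hv _ _ _ runE_0_2 hs
  · exact hv _ _ _ runE_0_1 hs
  · exact hv _ _ _ runE_1_3 hs
  · exact hv _ _ _ runE_1_2 hs
  · exact hv _ _ _ runE_1_1 hs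
  · exact hv _ _ _ runE_2_3 hs
  · exact hv _ _ _ runE_2_2 hs
  · exact hv _ _ _ runE_2_1 hs
  · exact hv _ _ _ runE_3_3 hs
  · exact hv _ _ _ runE_3_2 hs
  · exact hv _ _ _ runE_3_1 hs
  · exact hv _ _ _ runE_4_3 hs
  · exact hv _ _ _ runE_4_2 hs
  · exact hv _ _ _ runE_4_1 hs
  · exact hv _ _ _ runE_5_3 hs
  · exact hv _ _ _ runE_5_2 hs
  · exact hv _ _ _ runE_5_1 hs
  · exact hv _ _ _ runE_6_3 hs
  · exact hv _ _ _ runE_6_2 hs
  · exact hv _ _ _ runE_6_1 hs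
  · exact hv _ _ _ runE_7_3 hs
  · exact hv _ _ _ runE_7_2 hs
  · exact hv _ _ _ runE_7_1 hs

theorem conj_QL {z : ℂ} (hz : z ∈ Q) (h0 : z ≠ 0) (h8 : z.re ≤ 8) (him : 0 ≤ z.im) :
    (starRingEnd ℂ) z ∈ QL := by
  refine ⟨?_, by simpa using him, by simpa using h8, by simpa using h0⟩
  obtain ⟨q1, q2, q3, q4, q5⟩ := hz
  refine ⟨?_, ?_, ?_, ?_, ?_⟩ <;> simp only [Complex.conj_re, Complex.conj_im, abs_neg] <;>
    assumption

theorem conj_two : (starRingEnd ℂ) (2 : ℂ) = 2 := map_ofNat _ 2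

theorem kap_conj (z : ℂ) : kap ((starRingEnd ℂ) z) = (starRingEnd ℂ) (kap z) := by
  unfold kap; rw [GG_conj, GG_conj, map_div₀]

theorem VV_conj (z : ℂ) : VV ((starRingEnd ℂ) z) = (starRingEnd ℂ) (VV z) := by
  unfold VV; rw [kap_conj]; simp [conj_two]

theorem tk_conj (z : ℂ) : tk ((starRingEnd ℂ) z) = (starRingEnd ℂ) (tk z) := by
  unfold tk; rw [kap_conj]; simp [conj_two]

theorem V1_conj (z : ℂ) : V1 ((starRingEnd ℂ) z) = (starRingEnd ℂ) (V1 z) := by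
  unfold V1; rw [kap_conj, tk_conj]; simp

theorem V2_conj (z : ℂ) : V2 ((starRingEnd ℂ) z) = (starRingEnd ℂ) (V2 z) := by
  unfold V2; rw [kap_conj, tk_conj, V1_conj]; simp [conj_two]

theorem FA_conj {z : ℂ} (h : FA ((starRingEnd ℂ) z)) : FA z := by
  obtain ⟨h1, h2, h3, h4, h5, h6, h7, h8, h9⟩ := h
  rw [kap_conj, Complex.conj_re] at h1
  rw [V1_conj, VV_conj, Complex.norm_conj, Complex.norm_conj] at h2
  rw [V2_conj, Complex.norm_conj] at h3
  rw [VV_conj, Complex.conj_re, Complex.conj_im, abs_neg] at h4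
  rw [VV_conj, Complex.conj_re, Complex.norm_conj] at h5
  have e6 : VV ((starRingEnd ℂ) z) / 2 - V1 ((starRingEnd ℂ) z) =
      (starRingEnd ℂ) (VV z / 2 - V1 z) := by rw [VV_conj, V1_conj]; simp [conj_two]
  rw [e6, Complex.conj_re, Complex.norm_conj] at h6
  rw [tk_conj, kap_conj, Complex.norm_conj, Complex.norm_conj] at h7
  have e8 : 2 + (starRingEnd ℂ) z + ((starRingEnd ℂ) z - 1) * kap ((starRingEnd ℂ) z) =
      (starRingEnd ℂ) (2 + z + (z - 1) * kap z) := by rw [kap_conj]; simp [conj_two]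
  rw [e8, kap_conj, Complex.norm_conj, Complex.norm_conj] at h8
  rw [kap_conj, Complex.conj_re, Complex.norm_conj] at h9
  exact ⟨h1, h2, h3, h4, h5, h6, h7, h8, h9⟩

theorem FC_conj {z : ℂ} (h : FC ((starRingEnd ℂ) z)) : FC z := by
  obtain ⟨h1, ⟨h2, h3⟩, h4, h5, h6⟩ := h
  have e0 : ∀ a : ℝ, (GG 0 ((starRingEnd ℂ) z) - GG 0 ((starRingEnd ℂ) z * exp ((a : ℂ) * I))) /
      GG 1 ((starRingEnd ℂ) z) =
      (starRingEnd ℂ) ((GG 0 z - GG 0 (z * exp (-(a : ℂ) * I))) / GG 1 z) := by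
    intro a
    have : (starRingEnd ℂ) z * exp ((a : ℂ) * I) = (starRingEnd ℂ) (z * exp (-(a : ℂ) * I)) := by
      rw [map_mul, ← Complex.exp_conj]
      congr 2
      simp
    rw [this, GG_conj, GG_conj, GG_conj]
    simp
  have e1 : (GG 0 ((starRingEnd ℂ) z) / GG 1 ((starRingEnd ℂ) z)).re = (GG 0 z / GG 1 z).re := by
    rw [GG_conj, GG_conj, ← map_div₀, Complex.conj_re]
  rw [GG_conj, GG_conj, Complex.norm_conj, Complex.norm_conj, Complex.norm_conj] at h1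
  rw [e0 (1 / 4), Complex.conj_re] at h2
  have e2 := e0 (-(1 / 4))
  rw [e1, GG_conj, Complex.norm_conj, Complex.norm_conj, Complex.conj_re] at h4 h5 h6
  refine ⟨h1, ⟨?_, h2⟩, h4, h5, h6⟩
  have e3 : (-((1 / 4 : ℝ) : ℂ)) = (((-(1 / 4) : ℝ)) : ℂ) := by push_cast; ring
  rw [e3, e2, Complex.conj_re] at h3
  have e4 : (-(((-(1 / 4) : ℝ)) : ℂ)) = ((1 / 4 : ℝ) : ℂ) := by push_cast; ring
  rw [e4] at h3
  exact h3

theorem FA_all {z : ℂ} (hz : z ∈ Q) (h0 : z ≠ 0) (h8 : z.re ≤ 8) : FA z := by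
  rcases le_total z.im 0 with h | h
  · exact FA_lower ⟨hz, h, h8, h0⟩
  · exact FA_conj (FA_lower (conj_QL hz h0 h8 h))

theorem FC_all {z : ℂ} (hz : z ∈ Q) (h0 : z ≠ 0) (h8 : z.re ≤ 8) : FC z := by
  rcases le_total z.im 0 with h | h
  · exact FC_lower ⟨hz, h, h8, h0⟩
  · exact FC_conj (FC_lower (conj_QL hz h0 h8 h))

/-- segments on a line -/
theorem seg {chk : ℤ → ℕ → Bool} {Φ : ℝ → Prop}
    (hchk : ∀ i k, chk i k = true → ∀ t : ℝ, (i : ℝ) / 2 ^ k ≤ t → t ≤ ((i : ℝ) + 1) / 2 ^ k → Φ t)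
    (i : ℤ) (k : ℕ) (h : verify1 chk 8 i k = true) {t : ℝ} (h1 : (i : ℝ) / 2 ^ k ≤ t)
    (h2 : t ≤ ((i : ℝ) + 1) / 2 ^ k) : Φ t :=
  verify1_sound hchk 8 i k h t h1 h2

theorem closure_P_sub : closure P ⊆
    {z | z.im ≤ 0 ∧ z.im ≤ z.re ∧ -(3 / 8) ≤ z.re ∧ -(127 / 80) - 9 / 10 * z.re ≤ z.im ∧
    -(5 / 3) - 7 / 12 * z.re ≤ z.im ∧ -(33 / 16) - 3 / 16 * z.re ≤ z.im ∧ -(21 / 8) ≤ z.im} := by
  apply closure_minimal
  · intro z hz
    obtain ⟨h1, h2, h3, h4, h5, h6, h7⟩ := hz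
    exact ⟨h1.le, h2.le, h3.le, h4.le, h5.le, h6.le, h7.le⟩
  · simp only [Set.ofPred_and]
    refine IsClosed.inter (isClosed_le Complex.continuous_im continuous_const)
      (IsClosed.inter (isClosed_le Complex.continuous_im Complex.continuous_re)
      (IsClosed.inter (isClosed_le continuous_const Complex.continuous_re)
      (IsClosed.inter (isClosed_le (continuous_const.sub
        (continuous_const.mul Complex.continuous_re)) Complex.continuous_im)
      (IsClosed.inter (isClosed_le (continuous_const.sub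
        (continuous_const.mul Complex.continuous_re)) Complex.continuous_im)
      (IsClosed.inter (isClosed_le (continuous_const.sub
        (continuous_const.mul Complex.continuous_re)) Complex.continuous_im)
      (isClosed_le continuous_const Complex.continuous_im))))))

theorem N14_all {z : ℂ} (hz : z ∈ closure P) (hP : z ∉ P) (him : z.im < 0) (h8 : z.re ≤ 8) :
    F14 z := by
  obtain ⟨_, c2, c3, c4, c5, c6, c7⟩ := closure_P_sub hz
  have hz0 : z ≠ 0 := by intro h; rw [h] at him; simp at him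
  have L : ∀ (K : ℕ) (p q : ℤ) (m dd : ℕ) (_ : 0 < m)
      (_ : ((m : ℤ) ^ 2 + q ^ 2) * 10 ^ 8 ≤ (dd : ℤ) ^ 2 * (m : ℤ) ^ 2) (_ : dd ≤ 15000) (i : ℤ)
      (k : ℕ) (_ : verify1 (chkL K p q m dd) 8 i k = true) (_ : (i : ℝ) / 2 ^ k ≤ z.re)
      (_ : z.re ≤ ((i : ℝ) + 1) / 2 ^ k) (_ : z.im = -((p : ℝ) + q * z.re) / m), F14 z := by
    intro K p q m dd hm hdd hdd2 i k h h1 h2 h3
    exact seg (Φ := fun t => ∀ Z : ℂ, Z ≠ 0 → Z.re = t → Z.im = -((p : ℝ) + q * t) / m → F14 Z)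
      (chkL_sound hm hdd hdd2) i k h h1 h2 z hz0 rfl h3
  have V : ∀ (i : ℤ) (k : ℕ) (_ : verify1 (chkV 7) 8 i k = true) (_ : (i : ℝ) / 2 ^ k ≤ z.im)
      (_ : z.im ≤ ((i : ℝ) + 1) / 2 ^ k) (_ : z.re = -(3 / 8)), F14 z := by
    intro i k h h1 h2 h3
    exact seg (Φ := fun t => ∀ Z : ℂ, Z.re = -(3 / 8) → Z.im = t → F14 Z)
      chkV_sound i k h h1 h2 z h3 rfl
  have Dg : ∀ (i : ℤ) (k : ℕ) (_ : verify1 (chkD 7) 8 i k = true) (_ : (i : ℝ) / 2 ^ k ≤ z.im)
      (_ : z.im ≤ ((i : ℝ) + 1) / 2 ^ k) (_ : z.im = z.re), F14 z := by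
    intro i k h h1 h2 h3
    exact seg (Φ := fun t => ∀ Z : ℂ, t < 0 → Z.re = t → Z.im = t → F14 Z)
      chkD_sound i k h h1 h2 z him h3.symm rfl
  by_cases e2 : z.im = z.re
  · rcases le_total z.im (-(1 / 4)) with a | a
    · exact Dg (-3) 3 runD_m3 (by norm_num; linarith) (by norm_num; linarith) e2
    · rcases le_total z.im (-(1 / 8)) with b | b
      · exact Dg (-2) 3 runD_m2 (by norm_num; linarith) (by norm_num; linarith) e2
      · exact Dg (-1) 3 runD_m1 (by norm_num; linarith) (by norm_num; linarith) e2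
  by_cases e3 : z.re = -(3 / 8)
  · rcases le_total z.im (-1) with a | a
    · exact V (-5) 2 runV_m5 (by norm_num; linarith) (by norm_num; linarith) e3
    · rcases le_total z.im (-(1 / 2)) with b | b
      · exact V (-2) 1 runV_m2 (by norm_num; linarith) (by norm_num; linarith) e3
      · exact V (-4) 3 runV_m4 (by norm_num; linarith) (by norm_num; linarith) e3
  by_cases e4 : z.im = -(127 / 80) - 9 / 10 * z.re
  · have hh : z.im = -((127 : ℤ) + (72 : ℤ) * z.re) / (80 : ℕ) := by rw [e4]; push_cast; ring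
    have H := L 7 127 72 80 13454 (by norm_num) (by norm_num) (by norm_num)
    rcases le_total z.re (-(1 / 4)) with a | a
    · exact H (-3) 3 runL1_m3 (by norm_num; linarith) (by norm_num; linarith) hh
    · rcases le_total z.re (-(1 / 8)) with b | b
      · exact H (-2) 3 runL1_m2 (by norm_num; linarith) (by norm_num; linarith) hh
      · rcases le_total z.re 0 with c | c
        · exact H (-1) 3 runL1_m1 (by norm_num; linarith) (by norm_num; linarith) hh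
        · exact H 0 2 runL1_0 (by norm_num; linarith) (by norm_num; linarith) hh
  by_cases e5 : z.im = -(5 / 3) - 7 / 12 * z.re
  · have hh : z.im = -((20 : ℤ) + (7 : ℤ) * z.re) / (12 : ℕ) := by rw [e5]; push_cast; ring
    have H := L 7 20 7 12 11578 (by norm_num) (by norm_num) (by norm_num)
    rcases le_total z.re (1 / 2) with a | a
    · exact H 1 2 runL2_1_2 (by norm_num; linarith) (by norm_num; linarith) hh
    · exact H 1 1 runL2_1_1 (by norm_num; linarith) (by norm_num; linarith) hh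
  by_cases e6 : z.im = -(33 / 16) - 3 / 16 * z.re
  · have hh : z.im = -((33 : ℤ) + (3 : ℤ) * z.re) / (16 : ℕ) := by rw [e6]; push_cast; ring
    have H := L 7 33 3 16 10175 (by norm_num) (by norm_num) (by norm_num)
    rcases le_total z.re 2 with a | a
    · exact H 1 0 runL3_1 (by norm_num; linarith) (by norm_num; linarith) hh
    · exact H 2 0 runL3_2 (by norm_num; linarith) (by norm_num; linarith) hh
  by_cases e7 : z.im = -(21 / 8)
  · have hh : z.im = -((21 : ℤ) + (0 : ℤ) * z.re) / (8 : ℕ) := by rw [e7]; push_cast; ring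
    have H := L 11 21 0 8 10000 (by norm_num) (by norm_num) (by norm_num)
    rcases le_total z.re 4 with a | a
    · exact H 3 0 runL4_3 (by norm_num; linarith) (by norm_num; linarith) hh
    · rcases le_total z.re 5 with b | b
      · exact H 4 0 runL4_4 (by norm_num; linarith) (by norm_num; linarith) hh
      · rcases le_total z.re 6 with c | c
        · exact H 5 0 runL4_5 (by norm_num; linarith) (by norm_num; linarith) hh
        · rcases le_total z.re 7 with d | d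
          · exact H 6 0 runL4_6 (by norm_num; linarith) (by norm_num; linarith) hh
          · exact H 7 0 runL4_7 (by norm_num; linarith) (by norm_num; linarith) hh
  exfalso
  apply hP
  exact ⟨him, lt_of_le_of_ne c2 e2, lt_of_le_of_ne c3 (Ne.symm e3), lt_of_le_of_ne c4 (Ne.symm e4),
    lt_of_le_of_ne c5 (Ne.symm e5), lt_of_le_of_ne c6 (Ne.symm e6), lt_of_le_of_ne c7 (Ne.symm e7)⟩

end BN
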