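import Pool.Agent.Helper76.BN.Defs

/-!
# BN-P1: tails of power series with positive coefficients

`TT c k x = sum_j (c (k+j)/c k) x^j`.

PROOFS.
* `TT_summable`: ratio test (`summable_of_ratio_test_tendsto_lt_one`, or the eventual form
  `summable_of_ratio_norm_eventually_le`): the ratio of consecutive terms is
  `(c (k+j+1)/c (k+j)) * x`, tending to 0. The case `x = 0` is trivial.
* `TT_succ`: split off the term `j = 0` (`Summable.tsum_eq_zero_add`), which is `1`, and
  `c (k+1+j)/c k = (c (k+1)/c k) * (c (k+1+j)/c (k+1))`, `tsum_mul_left`.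
* `TT_sub_one_le`: by induction on `j`, `c (k+j)/c k <= q^j`; so
  `||TT c k x - 1|| <= sum_{j >= 1} (q ||x||)^j = q ||x||/(1 - q ||x||) <= 2 q ||x||`.
* `TT_re_mono`: termwise comparison of real series with nonnegative terms.
-/

namespace BN

open Complex Filter Topology

theorem TT_norm_summable {c : ℕ → ℝ} (hpos : ∀ k, 0 < c k)
    (hlim : Tendsto (fun k => c (k + 1) / c k) atTop (𝓝 0)) (k : ℕ) (x : ℝ) :
    Summable (fun j : ℕ => (c (k + j) / c k) * |x| ^ j) := by
  rcases eq_or_ne x 0 with rfl | hx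
  · refine summable_of_ne_finset_zero (s := {0}) fun j hj => ?_
    have : j ≠ 0 := by simpa using hj
    simp [this]
  · have hx' : 0 < |x| := abs_pos.mpr hx
    refine summable_of_ratio_test_tendsto_lt_one (l := 0) zero_lt_one ?_ ?_
    · refine Eventually.of_forall fun j => ?_
      have h1 := hpos (k + j)
      have h2 := hpos k
      positivity
    · have h1 : Tendsto (fun j => c (k + j + 1) / c (k + j) * |x|) atTop (𝓝 (0 * |x|)) := by
        refine Tendsto.mul_const _ ?_
        exact hlim.comp (tendsto_add_atTop_nat k |>.congr fun j => by ring)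
      rw [zero_mul] at h1
      refine h1.congr fun j => ?_
      have h3 := hpos (k + j)
      have h4 := hpos k
      have h5 := hpos (k + j + 1)
      have h6 : 0 ≤ c (k + (j + 1)) / c k * |x| ^ (j + 1) := by
        rw [← add_assoc]; positivity
      have h7 : 0 ≤ c (k + j) / c k * |x| ^ j := by positivity
      rw [Real.norm_of_nonneg h6, Real.norm_of_nonneg h7, ← add_assoc, pow_succ]
      field_simp

theorem TT_summable {c : ℕ → ℝ} (hpos : ∀ k, 0 < c k)
    (hlim : Tendsto (fun k => c (k + 1) / c k) atTop (𝓝 0)) (k : ℕ) (x : ℂ) :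
    Summable (fun j : ℕ => ((c (k + j) / c k : ℝ) : ℂ) * x ^ j) := by
  refine Summable.of_norm ?_
  have h := TT_norm_summable hpos hlim k ‖x‖
  refine h.congr fun j => ?_
  have h3 := hpos (k + j)
  have h4 := hpos k
  rw [norm_mul, norm_pow, Complex.norm_real, Real.norm_of_nonneg (by positivity), abs_norm]

theorem TT_succ {c : ℕ → ℝ} (hpos : ∀ k, 0 < c k)
    (hlim : Tendsto (fun k => c (k + 1) / c k) atTop (𝓝 0)) (k : ℕ) (x : ℂ) :
    TT c k x = 1 + ((c (k + 1) / c k : ℝ) : ℂ) * x * TT c (k + 1) x := by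
  have h0 := hpos k
  have h1 := hpos (k + 1)
  unfold TT
  rw [(TT_summable hpos hlim k x).tsum_eq_zero_add, ← tsum_mul_left]
  congr 1
  · simp [h0.ne']
  · refine tsum_congr fun j => ?_
    have e : c (k + (j + 1)) / c k = (c (k + 1) / c k) * (c (k + 1 + j) / c (k + 1)) := by
      rw [show k + (j + 1) = k + 1 + j by ring]
      field_simp
    rw [e]
    push_cast
    ring

theorem TT_coef_le {c : ℕ → ℝ} (hpos : ∀ k, 0 < c k) {k : ℕ} {q : ℝ}
    (hq : ∀ j, k ≤ j → c (j + 1) / c j ≤ q) (j : ℕ) : c (k + j) / c k ≤ q ^ j := by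
  have h0 := hpos k
  induction j with
  | zero => simp [h0.ne']
  | succ j ih =>
    have h1 := hpos (k + j)
    have h2 := hq (k + j) (by omega)
    have h3 := hpos (k + j + 1)
    have hq0 : 0 ≤ q := le_trans (by positivity) h2
    have e : c (k + (j + 1)) / c k = (c (k + j) / c k) * (c (k + j + 1) / c (k + j)) := by
      rw [← add_assoc]
      field_simp
    rw [e, pow_succ]
    exact mul_le_mul ih h2 (by positivity) (by positivity)

theorem TT_sub_one_le {c : ℕ → ℝ} (hpos : ∀ k, 0 < c k)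
    (hlim : Tendsto (fun k => c (k + 1) / c k) atTop (𝓝 0)) {k : ℕ} {x : ℂ} {q : ℝ}
    (hq : ∀ j, k ≤ j → c (j + 1) / c j ≤ q) (hx : q * ‖x‖ ≤ 1 / 2) :
    ‖TT c k x - 1‖ ≤ 2 * (q * ‖x‖) := by
  have h0 := hpos k
  have hq0 : 0 ≤ q := le_trans (by have := hpos (k + 1); positivity) (hq k le_rfl)
  have hy0 : 0 ≤ q * ‖x‖ := by positivity
  unfold TT
  rw [(TT_summable hpos hlim k x).tsum_eq_zero_add]
  have e : ((c (k + 0) / c k : ℝ) : ℂ) * x ^ 0 = 1 := by simp [h0.ne']
  rw [e, add_sub_cancel_left]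
  have hg : HasSum (fun j : ℕ => (q * ‖x‖) * (q * ‖x‖) ^ j) ((q * ‖x‖) * (1 - q * ‖x‖)⁻¹) :=
    (hasSum_geometric_of_lt_one hy0 (by linarith)).mul_left _
  refine (tsum_of_norm_bounded hg fun j => ?_).trans ?_
  · have h3 := hpos (k + (j + 1))
    rw [norm_mul, norm_pow, Complex.norm_real, Real.norm_of_nonneg (by positivity),
      ← pow_succ', mul_pow]
    exact mul_le_mul_of_nonneg_right (TT_coef_le hpos hq (j + 1)) (by positivity)
  · have h4 : (1 - q * ‖x‖)⁻¹ ≤ 2 := by
      rw [inv_le_comm₀ (by linarith) (by norm_num)]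
      linarith
    nlinarith

theorem TT_real {c : ℕ → ℝ} (k : ℕ) (s : ℝ) :
    TT c k (s : ℂ) = ((∑' j : ℕ, (c (k + j) / c k) * s ^ j : ℝ) : ℂ) := by
  unfold TT
  rw [Complex.ofReal_tsum]
  refine tsum_congr fun j => ?_
  push_cast
  ring

theorem TT_re_mono {c : ℕ → ℝ} (hpos : ∀ k, 0 < c k)
    (hlim : Tendsto (fun k => c (k + 1) / c k) atTop (𝓝 0)) (k : ℕ) {s t : ℝ} (hs : 0 ≤ s)
    (hst : s ≤ t) : 0 ≤ (TT c k (s : ℂ)).re ∧ (TT c k (s : ℂ)).re ≤ (TT c k (t : ℂ)).re := by
  have ht : 0 ≤ t := hs.trans hst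
  have h1 := TT_norm_summable hpos hlim k s
  have h2 := TT_norm_summable hpos hlim k t
  rw [abs_of_nonneg hs] at h1
  rw [abs_of_nonneg ht] at h2
  rw [TT_real, TT_real, Complex.ofReal_re, Complex.ofReal_re]
  refine ⟨tsum_nonneg fun j => ?_, h1.tsum_le_tsum (fun j => ?_) h2⟩
  · have h3 := hpos (k + j)
    have h4 := hpos k
    positivity
  · have h3 := hpos (k + j)
    have h4 := hpos k
    exact mul_le_mul_of_nonneg_left (pow_le_pow_left₀ hs hst j) (by positivity)

end BN
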