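import Pool.Agent.Helper76.BN.Defs

/-!
# BN-P2: the functions `Ph n`: contiguous relation, estimates near 1

`Ph n w = sum_j pc n j w^j`, `pc n j = 1/(8^j j! prod_{i<j} (2n+5+2i))`.

PROOFS.
* `pc_ratio`: `pr n (j+1) = pr n j * (2n+5+2j)`.
* `Ph_summable`: `0 < pc n j <= 1/j!` and `Real.summable_pow_div_factorial`.
* `pc_sub`: with `A = prod_{i<j} (2n+7+2i)` we have `pr n (j+1) = (2n+5) A` (split off `i = 0`),
  `pr (n+1) (j+1) = A (2n+7+2j)` and `pr (n+2) j * (2n+7) = A (2n+7+2j)`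
  (`Finset.prod_range_succ'` and `Finset.prod_range_succ`), so
  `pc n (j+1) - pc (n+1) (j+1) = (1/(8^{j+1} (j+1)! A)) (1/(2n+5) - 1/(2n+7+2j))
    = 2(j+1)/(8^{j+1} (j+1)! A (2n+5)(2n+7+2j)) = pc (n+2) j/(4 (2n+5)(2n+7))`.
* `Ph_sub`: the terms `j = 0` are both 1; shift the index and use `pc_sub`, `tsum_mul_left`.
* `Ph_near`: `pr n j >= (2n+5)^j`, hence
  `||Ph n w - 1|| <= sum_{j >= 1} x^j/j! = exp x - 1`, `x = ||w||/(8 (2n+5)) <= 1/2`, and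
  `exp (1/2) <= 1.65` (`Real.exp_bound'` or square: `exp 1 < 2.7182818286 <= 1.65^2`).
* `Ph_ratio`: `||Ph N w|| >= 7/20`, `||Ph (N+1) w - Ph N w|| <= 1.65 ||w||/(4 (2N+5)(2N+7))
  <= 1.65/(2N+7)` by `Ph_sub`, `Ph_near` for `N` and `N + 2`; `1.65/0.35 <= 5`.
-/

namespace BN

open Complex

theorem pr_pos (n j : ℕ) : 0 < pr n j := by
  unfold pr
  exact Finset.prod_pos fun i _ => by positivity

theorem pc_pos (n j : ℕ) : 0 < pc n j := by
  have := pr_pos n j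
  unfold pc
  positivity

theorem pr_succ (n j : ℕ) : pr n (j + 1) = pr n j * (2 * (n : ℝ) + 5 + 2 * (j : ℝ)) := by
  unfold pr
  rw [Finset.prod_range_succ]

theorem pr_succ' (n j : ℕ) : pr n (j + 1) = (2 * (n : ℝ) + 5) * pr (n + 1) j := by
  unfold pr
  rw [Finset.prod_range_succ']
  simp only [Nat.cast_zero, mul_zero, add_zero]
  rw [mul_comm]
  congr 1
  refine Finset.prod_congr rfl fun i _ => ?_
  push_cast
  ring

theorem pc_ratio (n j : ℕ) :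
    pc n (j + 1) / pc n j = 1 / (8 * ((j : ℝ) + 1) * (2 * (n : ℝ) + 5 + 2 * (j : ℝ))) := by
  have h1 := pr_pos n j
  have h2 : (0 : ℝ) < (j.factorial : ℝ) := by exact_mod_cast Nat.factorial_pos j
  have h3 : (0 : ℝ) < 2 * (n : ℝ) + 5 + 2 * (j : ℝ) := by positivity
  unfold pc
  rw [pr_succ, Nat.factorial_succ, pow_succ]
  push_cast
  field_simp

theorem pc_sub (n j : ℕ) : pc n (j + 1) - pc (n + 1) (j + 1) =
    pc (n + 2) j / (4 * (2 * (n : ℝ) + 5) * (2 * (n : ℝ) + 7)) := by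
  have hA := pr_pos (n + 1) j
  have h2 : (0 : ℝ) < (j.factorial : ℝ) := by exact_mod_cast Nat.factorial_pos j
  have e1 : pr n (j + 1) = (2 * (n : ℝ) + 5) * pr (n + 1) j := pr_succ' n j
  have e2 : pr (n + 1) (j + 1) = pr (n + 1) j * (2 * (n : ℝ) + 7 + 2 * (j : ℝ)) := by
    rw [pr_succ]; push_cast; ring
  have e3 : (2 * (n : ℝ) + 7) * pr (n + 2) j = pr (n + 1) j * (2 * (n : ℝ) + 7 + 2 * (j : ℝ)) := by
    rw [← e2, pr_succ']; push_cast; ring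
  have e4 : pr (n + 2) j = pr (n + 1) j * (2 * (n : ℝ) + 7 + 2 * (j : ℝ)) / (2 * (n : ℝ) + 7) := by
    rw [← e3]; field_simp
  have h3 : (0 : ℝ) < 2 * (n : ℝ) + 7 + 2 * (j : ℝ) := by positivity
  unfold pc
  rw [e1, e2, e4, Nat.factorial_succ]
  push_cast
  field_simp
  ring

theorem pr_ge (n j : ℕ) : (2 * (n : ℝ) + 5) ^ j ≤ pr n j := by
  induction j with
  | zero => simp [pr]
  | succ j ih =>
    rw [pr_succ, pow_succ]
    have : (0 : ℝ) ≤ (j : ℝ) := by positivity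
    exact mul_le_mul ih (by linarith) (by positivity) (pr_pos n j).le

theorem pc_le_fac (n j : ℕ) : pc n j ≤ (1 / (8 * (2 * (n : ℝ) + 5))) ^ j / (j.factorial : ℝ) := by
  have h1 := pr_pos n j
  have h2 : (0 : ℝ) < (j.factorial : ℝ) := by exact_mod_cast Nat.factorial_pos j
  have h3 := pr_ge n j
  unfold pc
  rw [div_pow, one_pow, mul_pow, div_div]
  apply one_div_le_one_div_of_le
  · positivity
  · have : (8 : ℝ) ^ j * (2 * (n : ℝ) + 5) ^ j ≤ 8 ^ j * pr n j :=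
      mul_le_mul_of_nonneg_left h3 (by positivity)
    nlinarith

theorem Ph_term_norm (n : ℕ) (w : ℂ) (j : ℕ) :
    ‖(pc n j : ℂ) * w ^ j‖ ≤ (‖w‖ / (8 * (2 * (n : ℝ) + 5))) ^ j / (j.factorial : ℝ) := by
  rw [norm_mul, norm_pow, Complex.norm_real, Real.norm_eq_abs, abs_of_pos (pc_pos n j)]
  calc pc n j * ‖w‖ ^ j ≤ (1 / (8 * (2 * (n : ℝ) + 5))) ^ j / (j.factorial : ℝ) * ‖w‖ ^ j :=
        mul_le_mul_of_nonneg_right (pc_le_fac n j) (by positivity)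
    _ = _ := by
        rw [div_pow, div_pow, one_pow]
        ring

theorem Ph_summable (n : ℕ) (w : ℂ) : Summable (fun j : ℕ => (pc n j : ℂ) * w ^ j) := by
  refine Summable.of_norm_bounded
    (g := fun j : ℕ => (‖w‖ / (8 * (2 * (n : ℝ) + 5))) ^ j / (j.factorial : ℝ))
    (Real.summable_pow_div_factorial _) (Ph_term_norm n w)

theorem pc_zero (n : ℕ) : pc n 0 = 1 := by
  simp [pc, pr]

theorem Ph_zero (n : ℕ) : Ph n 0 = 1 := by
  unfold Ph
  rw [tsum_eq_single 0]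
  · simp [pc_zero]
  · intro j hj
    simp [hj]

theorem Ph_split (n : ℕ) (w : ℂ) :
    Ph n w = 1 + ∑' j : ℕ, (pc n (j + 1) : ℂ) * w ^ (j + 1) := by
  unfold Ph
  rw [(Ph_summable n w).tsum_eq_zero_add]
  simp [pc_zero]

theorem Ph_sub (n : ℕ) (w : ℂ) :
    Ph n w - Ph (n + 1) w = w / (4 * (2 * (n : ℂ) + 5) * (2 * (n : ℂ) + 7)) * Ph (n + 2) w := by
  rw [Ph_split n, Ph_split (n + 1)]
  have s1 := (summable_nat_add_iff 1).mpr (Ph_summable n w)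
  have s2 := (summable_nat_add_iff 1).mpr (Ph_summable (n + 1) w)
  have e : (∑' j : ℕ, (pc n (j + 1) : ℂ) * w ^ (j + 1)) -
      (∑' j : ℕ, (pc (n + 1) (j + 1) : ℂ) * w ^ (j + 1)) =
      w / (4 * (2 * (n : ℂ) + 5) * (2 * (n : ℂ) + 7)) * Ph (n + 2) w := by
    rw [← s1.tsum_sub s2]
    unfold Ph
    rw [← tsum_mul_left]
    refine tsum_congr fun j => ?_
    have h : ((pc n (j + 1) - pc (n + 1) (j + 1) : ℝ) : ℂ) =
        ((pc (n + 2) j / (4 * (2 * (n : ℝ) + 5) * (2 * (n : ℝ) + 7)) : ℝ) : ℂ) := by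
      rw [pc_sub n j]
    push_cast at h
    rw [← sub_mul, h, pow_succ]
    ring
  rw [← e]
  ring

theorem Ph_near (n : ℕ) {w : ℂ} (h : ‖w‖ ≤ 4 * (2 * (n : ℝ) + 5)) : ‖Ph n w - 1‖ ≤ 13 / 20 := by
  rw [Ph_split, add_sub_cancel_left]
  set x := ‖w‖ / (8 * (2 * (n : ℝ) + 5)) with hx
  have hx0 : 0 ≤ x := by positivity
  have hx2 : x ≤ 1 / 2 := by
    rw [hx, div_le_iff₀ (by positivity)]
    linarith
  have hs := Real.summable_pow_div_factorial x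
  have hb : ‖∑' j : ℕ, (pc n (j + 1) : ℂ) * w ^ (j + 1)‖ ≤
      ∑' j : ℕ, x ^ (j + 1) / ((j + 1).factorial : ℝ) :=
    tsum_of_norm_bounded ((summable_nat_add_iff 1).mpr hs).hasSum fun j => Ph_term_norm n w (j + 1)
  have hexp : Real.exp x = 1 + ∑' j : ℕ, x ^ (j + 1) / ((j + 1).factorial : ℝ) := by
    have h0 : Real.exp x = ∑' j : ℕ, x ^ j / (j.factorial : ℝ) := by
      rw [Real.exp_eq_exp_ℝ, NormedSpace.exp_eq_tsum_div]
    rw [h0, hs.tsum_eq_zero_add]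
    simp
  have h1 : Real.exp x ≤ Real.exp (1 / 2) := Real.exp_le_exp.mpr hx2
  have h2 : Real.exp (1 / 2) ≤ 33 / 20 := by
    have h3 : Real.exp (1 / 2) ^ 2 = Real.exp 1 := by
      rw [← Real.exp_nat_mul]; norm_num
    have h4 := Real.exp_one_lt_d9
    have h5 := Real.exp_pos (1 / 2)
    nlinarith
  linarith

theorem Ph_ratio (N : ℕ) {w : ℂ} (h : ‖w‖ ≤ 4 * (2 * (N : ℝ) + 5)) :
    Ph N w ≠ 0 ∧ ‖Ph (N + 1) w / Ph N w - 1‖ ≤ 5 / (2 * (N : ℝ) + 7) := by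
  have h1 := Ph_near N h
  have h1' : 7 / 20 ≤ ‖Ph N w‖ := by
    have := norm_sub_norm_le (1 : ℂ) (1 - Ph N w)
    have e : (1 : ℂ) - (1 - Ph N w) = Ph N w := by ring
    rw [e, norm_one, norm_sub_rev] at this
    linarith
  have hne : Ph N w ≠ 0 := by
    intro h0
    rw [h0, norm_zero] at h1'
    norm_num at h1'
  refine ⟨hne, ?_⟩
  have h2 : ‖Ph (N + 2) w‖ ≤ 33 / 20 := by
    have h3 := Ph_near (N + 2) (w := w) (by push_cast; linarith)
    have := norm_sub_norm_le (Ph (N + 2) w) 1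
    rw [norm_one] at this
    linarith
  have h4 := Ph_sub N w
  have e : Ph (N + 1) w / Ph N w - 1 = -((Ph N w - Ph (N + 1) w) / Ph N w) := by
    field_simp
    ring
  rw [e, norm_neg, norm_div, h4, norm_mul, norm_div, norm_mul, norm_mul]
  have e5 : ‖(2 * (N : ℂ) + 5)‖ = 2 * (N : ℝ) + 5 := by
    rw [show (2 * (N : ℂ) + 5) = ((2 * (N : ℝ) + 5 : ℝ) : ℂ) by push_cast; ring, Complex.norm_real,
      Real.norm_eq_abs, abs_of_pos (by positivity)]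
  have e7 : ‖(2 * (N : ℂ) + 7)‖ = 2 * (N : ℝ) + 7 := by
    rw [show (2 * (N : ℂ) + 7) = ((2 * (N : ℝ) + 7 : ℝ) : ℂ) by push_cast; ring, Complex.norm_real,
      Real.norm_eq_abs, abs_of_pos (by positivity)]
  rw [e5, e7, show ‖(4 : ℂ)‖ = 4 by norm_num]
  have h6 : ‖w‖ / (4 * (2 * (N : ℝ) + 5) * (2 * (N : ℝ) + 7)) ≤ 1 / (2 * (N : ℝ) + 7) := by
    rw [div_le_div_iff₀ (by positivity) (by positivity)]
    have : (0 : ℝ) < 2 * (N : ℝ) + 7 := by positivity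
    nlinarith
  rw [div_le_iff₀ (by linarith)]
  calc ‖w‖ / (4 * (2 * (N : ℝ) + 5) * (2 * (N : ℝ) + 7)) * ‖Ph (N + 2) w‖
      ≤ 1 / (2 * (N : ℝ) + 7) * (33 / 20) :=
        mul_le_mul h6 h2 (norm_nonneg _) (by positivity)
    _ ≤ 5 / (2 * (N : ℝ) + 7) * (7 / 20) := by
        have : (0 : ℝ) < 1 / (2 * (N : ℝ) + 7) := by positivity
        have e8 : 5 / (2 * (N : ℝ) + 7) = 5 * (1 / (2 * (N : ℝ) + 7)) := by ring
        rw [e8]
        nlinarith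
    _ ≤ 5 / (2 * (N : ℝ) + 7) * ‖Ph N w‖ := mul_le_mul_of_nonneg_left h1' (by positivity)

theorem Ph_eq_TT (n : ℕ) (w : ℂ) : Ph n w = TT (pc n) 0 w := by
  unfold Ph TT
  refine tsum_congr fun j => ?_
  rw [zero_add, pc_zero, div_one]

theorem pc_tendsto (n : ℕ) :
    Filter.Tendsto (fun j => pc n (j + 1) / pc n j) Filter.atTop (nhds 0) := by
  have h : Filter.Tendsto (fun j : ℕ => 1 / ((j : ℝ) + 1)) Filter.atTop (nhds 0) :=
    tendsto_one_div_add_atTop_nhds_zero_nat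
  refine squeeze_zero (fun j => (div_pos (pc_pos n _) (pc_pos n _)).le) (fun j => ?_) h
  rw [pc_ratio]
  apply one_div_le_one_div_of_le (by positivity)
  have h1 : (0 : ℝ) ≤ (j : ℝ) := by positivity
  have h2 : (0 : ℝ) ≤ (n : ℝ) := by positivity
  nlinarith [mul_nonneg h1 h1, mul_nonneg h1 h2]

end BN
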