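import Pool.Agent.Helper76.BN.Defs

/-!
# BN-P6: the coefficients `hc p m = 6 (m+1)^p/(m+3)!`

PROOFS. `hc_ratio`: `(m+4)! = (m+4) (m+3)!`. `hc_tendsto`: `((m+2)/(m+1))^p -> 1`, `1/(m+4) -> 0`.
`hc_le`: `(m+2)/(m+1) <= (k+2)/(k+1)` for `k <= m`, powers, and `1/(m+4) <= 1/(k+4)`.
-/

namespace BN

open Filter Topology

theorem hc_pos (p m : ℕ) : 0 < hc p m := by
  unfold hc
  positivity

theorem hc_zero (p : ℕ) : hc p 0 = 1 := by
  unfold hc
  norm_num [Nat.factorial]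

theorem hc_ratio (p m : ℕ) :
    hc p (m + 1) / hc p m = ((m : ℝ) + 2) ^ p / (((m : ℝ) + 1) ^ p * ((m : ℝ) + 4)) := by
  unfold hc
  have h1 : (((m + 1 + 3).factorial : ℕ) : ℝ) = ((m : ℝ) + 4) * ((m + 3).factorial : ℝ) := by
    rw [show m + 1 + 3 = (m + 3) + 1 by ring, Nat.factorial_succ]
    push_cast
    ring
  have h2 : ((m + 3).factorial : ℝ) ≠ 0 := Nat.cast_ne_zero.2 (Nat.factorial_ne_zero _)
  have h3 : ((m : ℝ) + 4) ≠ 0 := by positivity
  have h4 : ((m : ℝ) + 1) ^ p ≠ 0 := by positivity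
  have h5 : (((m + 1 : ℕ) : ℝ) + 1) = (m : ℝ) + 2 := by
    push_cast
    ring
  rw [h1, h5]
  field_simp

/-- the ratio as a product -/
theorem p6_ratio (p m : ℕ) :
    hc p (m + 1) / hc p m = (((m : ℝ) + 2) / ((m : ℝ) + 1)) ^ p * (1 / ((m : ℝ) + 4)) := by
  rw [hc_ratio, div_pow, div_mul_div_comm, mul_one]

theorem p6_base {k m : ℕ} (h : k ≤ m) :
    ((m : ℝ) + 2) / ((m : ℝ) + 1) ≤ ((k : ℝ) + 2) / ((k : ℝ) + 1) := by
  have h0 : (k : ℝ) ≤ m := by exact_mod_cast h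
  rw [div_le_div_iff₀ (by positivity) (by positivity)]
  nlinarith

theorem hc_le (p : ℕ) {k m : ℕ} (h : k ≤ m) :
    hc p (m + 1) / hc p m ≤ hc p (k + 1) / hc p k := by
  have h0 : (k : ℝ) ≤ m := by exact_mod_cast h
  rw [p6_ratio, p6_ratio]
  refine mul_le_mul (pow_le_pow_left₀ (by positivity) (p6_base h) p) ?_ (by positivity)
    (by positivity)
  exact one_div_le_one_div_of_le (by positivity) (by linarith)

theorem hc_tendsto (p : ℕ) : Tendsto (fun m => hc p (m + 1) / hc p m) atTop (𝓝 0) := by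
  have h1 : Tendsto (fun m : ℕ => (2 : ℝ) ^ p * (1 / ((m : ℝ) + 1))) atTop (𝓝 0) := by
    have := (tendsto_one_div_add_atTop_nhds_zero_nat (𝕜 := ℝ)).const_mul ((2 : ℝ) ^ p)
    rwa [mul_zero] at this
  refine squeeze_zero (fun m => (div_pos (hc_pos _ _) (hc_pos _ _)).le) (fun m => ?_) h1
  rw [p6_ratio]
  have h2 := p6_base (Nat.zero_le m)
  norm_num at h2
  refine mul_le_mul (pow_le_pow_left₀ (by positivity) h2 p) ?_ (by positivity) (by positivity)
  exact one_div_le_one_div_of_le (by positivity) (by linarith)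

theorem p6_pc_ratio (n m : ℕ) :
    pc n (m + 1) / pc n m = 1 / (8 * ((m : ℝ) + 1) * (2 * (n : ℝ) + 5 + 2 * (m : ℝ))) := by
  have h1 : pr n (m + 1) = pr n m * (2 * (n : ℝ) + 5 + 2 * (m : ℝ)) := by
    unfold pr
    rw [Finset.prod_range_succ]
  have h2 : pr n m ≠ 0 := by
    unfold pr
    exact Finset.prod_ne_zero_iff.2 fun i _ => by positivity
  have h3 : (((m + 1).factorial : ℕ) : ℝ) = ((m : ℝ) + 1) * (m.factorial : ℝ) := by
    rw [Nat.factorial_succ]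
    push_cast
    ring
  have h4 : (m.factorial : ℝ) ≠ 0 := Nat.cast_ne_zero.2 (Nat.factorial_ne_zero _)
  have h5 : (2 * (n : ℝ) + 5 + 2 * (m : ℝ)) ≠ 0 := by positivity
  have h6 : ((m : ℝ) + 1) ≠ 0 := by positivity
  unfold pc
  rw [h1, h3, pow_succ]
  field_simp

theorem pc_le (n : ℕ) {k m : ℕ} (h : k ≤ m) :
    pc n (m + 1) / pc n m ≤ pc n (k + 1) / pc n k := by
  have h0 : (k : ℝ) ≤ m := by exact_mod_cast h
  rw [p6_pc_ratio, p6_pc_ratio]
  refine one_div_le_one_div_of_le (by positivity) ?_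
  have h1 : (0 : ℝ) ≤ n := Nat.cast_nonneg n
  have h2 : (0 : ℝ) ≤ k := Nat.cast_nonneg k
  refine mul_le_mul (by linarith) (by linarith) (by positivity) (by positivity)

end BN
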