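import Pool.Agent.Helper76.BN.TM2
import Pool.Agent.Helper76.BN.P1
import Pool.Agent.Helper76.BN.P2
import Pool.Agent.Helper76.BN.P6

/-!
Block N of MP_3942cb_co: continued fraction for `Ph 1/Ph 0` and Horner scheme for `Ph 0`.
-/

namespace BN

/-- start of the continued fraction -/
noncomputable def cf0 (r : ℕ) (w : T) (N : ℕ) (k : T → Bool) : Bool :=
  band (Nat.ble (w.hi r) (Nat.mul (Nat.mul 4 (Nat.add (Nat.mul 2 N) 5)) DD))
  (forceT (w.sdiv (Nat.mul (Nat.mul 4 (Nat.add (Nat.mul 2 N) 3)) (Nat.add (Nat.mul 2 N) 5)))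
    fun u =>
    forceN (Nat.add u.e (Nat.succ (Nat.div (Nat.mul 5 (u.hi r)) (Nat.add (Nat.mul 2 N) 7))))
    fun e => k ⟨u.ax, u.ay, u.bx, u.bY, e⟩)

/-- continued fraction -/
noncomputable def cfT (r : ℕ) (w : T) (k : T → Bool) (n : ℕ) : T → Bool :=
  @Nat.rec (fun _ => T → Bool) k
    (fun n ih t => divT r
      (w.sdiv (Nat.mul (Nat.mul 4 (Nat.add (Nat.mul 2 n) 3)) (Nat.add (Nat.mul 2 n) 5)))
      (t.addc (Int.ofNat DD)) ih) n

/-- Horner scheme for `Ph 0`: start -/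
noncomputable def ph0 (r : ℕ) (w : T) (K : ℕ) (k : T → Bool) : Bool :=
  forceN (Nat.succ (Nat.div (w.hi r) (Nat.mul (Nat.mul 4 (Nat.succ K)) (Nat.add (Nat.mul 2 K) 5))))
  fun e => band (Nat.ble e DD) (k ⟨Int.ofNat DD, 0, 0, 0, e⟩)

/-- Horner scheme for `Ph 0` -/
noncomputable def phT (r : ℕ) (w : T) (k : T → Bool) (n : ℕ) : T → Bool :=
  @Nat.rec (fun _ => T → Bool) k
    (fun n ih t => mulT r w t fun u => forceT (T.addc (T.sdiv u
      (Nat.mul (Nat.mul 8 (Nat.succ n)) (Nat.add (Nat.mul 2 n) 5))) (Int.ofNat DD)) ih) n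

/-- partial quotients -/
noncomputable def yy (n : ℕ) (W : ℂ) : ℂ :=
  W / (4 * (2 * (n : ℂ) + 3) * (2 * (n : ℂ) + 5)) * (Ph (n + 1) W / Ph n W)

theorem rv_le_iff {a b : ℕ} : rv a ≤ rv b ↔ a ≤ b := by
  unfold rv
  rw [div_le_div_iff_of_pos_right (by norm_num)]
  exact Nat.cast_le

theorem rv_mul_DD (n : ℕ) : rv (n * DD) = (n : ℝ) := by
  unfold rv DD; push_cast; field_simp

theorem cv_DD : cv (Int.ofNat DD) 0 = 1 := by
  have := cv_int 1
  simpa using this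

theorem cf0_sound {δ : ℂ} {r : ℕ} {w : T} {W : ℂ} {N : ℕ} {k : T → Bool} (hδ : ‖δ‖ ≤ rv r)
    (hr : rv r ≤ 1) (hw : Enc δ w W) (h : cf0 r w N k = true) :
    Ph N W ≠ 0 ∧ ∃ u, Enc δ u (yy N W) ∧ k u = true := by
  simp only [cf0, band_iff, forceT_eq, forceN_eq] at h
  obtain ⟨h1, h2⟩ := h
  have h1' := rv_mono (Nat.le_of_ble_eq_true h1)
  have hW : ‖W‖ ≤ 4 * (2 * (N : ℝ) + 5) := by
    refine (hw.hi hδ).trans (h1'.trans (le_of_eq ?_))
    simp only [Nat.mul_eq, Nat.add_eq]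
    rw [rv_mul_DD]; push_cast; ring
  obtain ⟨hne, hrho⟩ := Ph_ratio N hW
  refine ⟨hne, _, ?_, h2⟩
  have hpos : 0 < 4 * (2 * N + 3) * (2 * N + 5) := by positivity
  have hu := hw.sdiv hδ hr hpos
  have hhi := hu.hi hδ
  unfold Enc at hu ⊢
  simp only [Nat.mul_eq, Nat.add_eq, Nat.succ_eq_add_one, ndiv_eq] at hu hhi ⊢
  set u := w.sdiv (4 * (2 * N + 3) * (2 * N + 5))
  have hc : W / ((4 * (2 * N + 3) * (2 * N + 5) : ℕ) : ℂ) =
      W / (4 * (2 * (N : ℂ) + 3) * (2 * (N : ℂ) + 5)) := by push_cast; ring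
  rw [hc] at hu hhi
  have e : yy N W - (cv u.ax u.ay + cv u.bx u.bY * δ) =
      (W / (4 * (2 * (N : ℂ) + 3) * (2 * (N : ℂ) + 5)) - (cv u.ax u.ay + cv u.bx u.bY * δ)) +
      W / (4 * (2 * (N : ℂ) + 3) * (2 * (N : ℂ) + 5)) * (Ph (N + 1) W / Ph N W - 1) := by
    unfold yy; ring
  rw [e, rv_add]
  refine (norm_add_le _ _).trans (add_le_add hu ?_)
  rw [norm_mul]
  have h7 : (0 : ℝ) < 2 * (N : ℝ) + 7 := by positivity
  calc _ ≤ rv (u.hi r) * (5 / (2 * (N : ℝ) + 7)) :=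
        mul_le_mul hhi hrho (norm_nonneg _) (rv_nonneg _)
    _ ≤ _ := by
      unfold rv
      have h : 5 * u.hi r < (2 * N + 7) * (5 * u.hi r / (2 * N + 7) + 1) :=
        Nat.lt_mul_div_succ _ (by positivity)
      have h' : ((5 * u.hi r : ℕ) : ℝ) ≤
          (((2 * N + 7) * (5 * u.hi r / (2 * N + 7) + 1) : ℕ) : ℝ) := by exact_mod_cast h.le
      rw [Nat.cast_mul, Nat.cast_mul] at h'
      push_cast at h' ⊢
      rw [div_mul_div_comm, div_le_div_iff₀ (by positivity) (by norm_num)]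
      nlinarith

theorem cfT_sound {δ : ℂ} {r : ℕ} {w : T} {W : ℂ} {k : T → Bool} (hδ : ‖δ‖ ≤ rv r)
    (hr : rv r ≤ 1) (hw : Enc δ w W) (n : ℕ) : ∀ t : T, Ph n W ≠ 0 → Enc δ t (yy n W) →
    cfT r w k n t = true → Ph 0 W ≠ 0 ∧ ∃ u, Enc δ u (yy 0 W) ∧ k u = true := by
  induction n with
  | zero => exact fun t h1 h2 h3 => ⟨h1, t, h2, h3⟩
  | succ n ih =>
    intro t h1 h2 h3
    change divT r (w.sdiv (Nat.mul (Nat.mul 4 (Nat.add (Nat.mul 2 n) 3)) (Nat.add (Nat.mul 2 n) 5)))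
      (t.addc (Int.ofNat DD)) (cfT r w k n) = true at h3
    simp only [Nat.mul_eq, Nat.add_eq] at h3
    have hpos : 0 < 4 * (2 * n + 3) * (2 * n + 5) := by positivity
    have ht := h2.addc (Int.ofNat DD)
    rw [cv_DD] at ht
    obtain ⟨hne, u, hu, hk⟩ := divT_sound hδ hr (hw.sdiv hδ hr hpos) ht h3
    have hrec := Ph_sub n W
    have hy : yy (n + 1) W = W / (4 * (2 * (n : ℂ) + 5) * (2 * (n : ℂ) + 7)) *
        (Ph (n + 2) W / Ph (n + 1) W) := by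
      unfold yy; push_cast; ring_nf
    have hPn : Ph n W = Ph (n + 1) W * (yy (n + 1) W + 1) := by
      rw [hy]
      have : Ph n W = Ph (n + 1) W + W / (4 * (2 * (n : ℂ) + 5) * (2 * (n : ℂ) + 7)) *
        Ph (n + 2) W := by rw [← hrec]; ring
      rw [this]
      field_simp
      ring
    have hPn0 : Ph n W ≠ 0 := by rw [hPn]; exact mul_ne_zero h1 hne
    have hyn : yy n W = W / ((4 * (2 * n + 3) * (2 * n + 5) : ℕ) : ℂ) / (yy (n + 1) W + 1) := by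
      have : Ph (n + 1) W / Ph n W = 1 / (yy (n + 1) W + 1) := by
        rw [hPn]; field_simp
      unfold yy
      unfold yy at this
      rw [this]; push_cast; ring
    exact ih u hPn0 (by rw [hyn]; exact hu) hk

theorem cf_sound {δ : ℂ} {r : ℕ} {w : T} {W : ℂ} {k : T → Bool} {N : ℕ} (hδ : ‖δ‖ ≤ rv r)
    (hr : rv r ≤ 1) (hw : Enc δ w W) (h : cf0 r w N (cfT r w k N) = true) :
    Ph 0 W ≠ 0 ∧ ∃ u, Enc δ u (yy 0 W) ∧ k u = true := by
  obtain ⟨h1, u, h2, h3⟩ := cf0_sound hδ hr hw h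
  exact cfT_sound hδ hr hw N u h1 h2 h3

theorem ph0_sound {δ : ℂ} {r : ℕ} {w : T} {W : ℂ} {K : ℕ} {k : T → Bool} (hδ : ‖δ‖ ≤ rv r)
    (hw : Enc δ w W) (h : ph0 r w K k = true) :
    ∃ u, Enc δ u (TT (pc 0) K W) ∧ k u = true := by
  simp only [ph0, band_iff, forceN_eq] at h
  obtain ⟨h1, h2⟩ := h
  have h1' := rv_mono (Nat.le_of_ble_eq_true h1)
  have hD : rv DD = 1 := by unfold rv DD; norm_num
  rw [hD] at h1'
  refine ⟨_, ?_, h2⟩
  have hhi := hw.hi hδ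
  unfold Enc
  simp only [Nat.mul_eq, Nat.add_eq, Nat.succ_eq_add_one, ndiv_eq] at h1' ⊢
  rw [cv_DD]
  have hcv0 : cv 0 0 = 0 := by apply Complex.ext <;> simp [cv]
  rw [hcv0, zero_mul, add_zero]
  have hq : ∀ j, K ≤ j → pc 0 (j + 1) / pc 0 j ≤ 1 / (8 * ((K : ℝ) + 1) * (2 * (K : ℝ) + 5)) := by
    intro j hj
    refine (pc_le 0 hj).trans (le_of_eq ?_)
    rw [pc_ratio]; push_cast; ring
  have h2q : 2 * (1 / (8 * ((K : ℝ) + 1) * (2 * (K : ℝ) + 5)) * ‖W‖) ≤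
      rv (w.hi r / (4 * (K + 1) * (2 * K + 5)) + 1) := by
    have hpos : (0 : ℝ) < 8 * ((K : ℝ) + 1) * (2 * (K : ℝ) + 5) := by positivity
    calc _ ≤ 2 * (1 / (8 * ((K : ℝ) + 1) * (2 * (K : ℝ) + 5)) * rv (w.hi r)) := by gcongr
      _ ≤ _ := by
        unfold rv
        have h : w.hi r < (4 * (K + 1) * (2 * K + 5)) * (w.hi r / (4 * (K + 1) * (2 * K + 5)) + 1) :=
          Nat.lt_mul_div_succ _ (by positivity)
        have h' : ((w.hi r : ℕ) : ℝ) ≤ ((((4 * (K + 1) * (2 * K + 5)) *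
          (w.hi r / (4 * (K + 1) * (2 * K + 5)) + 1) : ℕ)) : ℝ) := by exact_mod_cast h.le
        rw [Nat.cast_mul] at h'
        generalize ((w.hi r / (4 * (K + 1) * (2 * K + 5)) + 1 : ℕ) : ℝ) = M at *
        push_cast at h'
        have e1 : 2 * (1 / (8 * ((K : ℝ) + 1) * (2 * (K : ℝ) + 5)) *
            (((w.hi r : ℕ) : ℝ) / 1099511627776)) =
            ((w.hi r : ℕ) : ℝ) / (4 * ((K : ℝ) + 1) * (2 * (K : ℝ) + 5)) / 1099511627776 := by
          field_simp; ring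
        rw [e1]
        apply div_le_div_of_nonneg_right _ (by norm_num)
        rw [div_le_iff₀ (by positivity)]
        linarith
  refine (TT_sub_one_le (pc_pos 0) (pc_tendsto 0) hq ?_).trans h2q
  linarith

theorem phT_sound {δ : ℂ} {r : ℕ} {w : T} {W : ℂ} {k : T → Bool} (hδ : ‖δ‖ ≤ rv r)
    (hr : rv r ≤ 1) (hw : Enc δ w W) (n : ℕ) : ∀ t : T, Enc δ t (TT (pc 0) n W) →
    phT r w k n t = true → ∃ u, Enc δ u (Ph 0 W) ∧ k u = true := by
  induction n with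
  | zero => exact fun t h1 h2 => ⟨t, by rw [Ph_eq_TT]; exact h1, h2⟩
  | succ n ih =>
    intro t h1 h2
    change (mulT r w t fun u => forceT (T.addc (T.sdiv u
      (Nat.mul (Nat.mul 8 (Nat.succ n)) (Nat.add (Nat.mul 2 n) 5))) (Int.ofNat DD))
      (phT r w k n)) = true at h2
    obtain ⟨u, hu, hk⟩ := mulT_sound hδ hr hw h1 h2
    simp only [forceT_eq, Nat.mul_eq, Nat.add_eq, Nat.succ_eq_add_one] at hk
    have hpos : 0 < 8 * (n + 1) * (2 * n + 5) := by positivity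
    have h3 := (hu.sdiv hδ hr hpos).addc (Int.ofNat DD)
    rw [cv_DD] at h3
    refine ih _ ?_ hk
    have e : TT (pc 0) n W = W * TT (pc 0) (n + 1) W / ((8 * (n + 1) * (2 * n + 5) : ℕ) : ℂ) + 1 := by
      rw [TT_succ (pc_pos 0) (pc_tendsto 0), pc_ratio]
      push_cast
      ring
    rw [e]; exact h3

theorem ph_sound {δ : ℂ} {r : ℕ} {w : T} {W : ℂ} {k : T → Bool} {K : ℕ} (hδ : ‖δ‖ ≤ rv r)
    (hr : rv r ≤ 1) (hw : Enc δ w W) (h : ph0 r w K (phT r w k K) = true) :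
    ∃ u, Enc δ u (Ph 0 W) ∧ k u = true := by
  obtain ⟨u, h2, h3⟩ := ph0_sound hδ hw h
  exact phT_sound hδ hr hw K u h2 h3

end BN
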