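import Pool.Agent.Helper76.BN.TM2
import Pool.Agent.Helper2.ST.Defs

/-!
Block N of MP_3942cb_co: squares and quadtrees.
-/

namespace BN

open ST3

/-- the square as a Taylor model, radius and half side -/
noncomputable def center (i j : ℤ) (k : ℕ) (f : T → ℕ → ℕ → Bool) : Bool :=
  band (Nat.ble k 39)
  (forceN (Nat.div 549755813888 (Nat.pow 2 k)) fun h =>
  forceI (imul (iadd (imul 2 i) 1) (Int.ofNat h)) fun x =>
  forceI (imul (iadd (imul 2 j) 1) (Int.ofNat h)) fun y =>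
  forceN (Nat.add (Nat.div (Nat.mul h 70711) 50000) 2) fun r =>
  f ⟨x, y, Int.ofNat DD, 0, 0⟩ r h)

/-- the square does not meet the lower part of `Q` with real part at most 8 -/
noncomputable def outQ (i j : ℤ) (k : ℕ) : Bool :=
  forceI (Int.ofNat (Nat.pow 2 k)) fun d => forceI (iadd i 1) fun i1 => forceI (iadd j 1) fun j1 =>
  forceI (isub 0 j1) fun a =>
  bor (leZ (iadd (iadd (imul 8 i1) (imul 3 d)) 1) 0)
  (bor (leZ (iadd (iadd (imul 127 d) (imul 72 i1)) 1) (imul 80 a))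
  (bor (leZ (iadd (iadd (imul 20 d) (imul 7 i1)) 1) (imul 12 a))
  (bor (leZ (iadd (iadd (imul 33 d) (imul 3 i1)) 1) (imul 16 a))
  (bor (leZ (iadd (imul 21 d) 1) (imul 8 a)) (leZ (iadd (imul 8 d) 1) i)))))

/-- quadtree -/
noncomputable def verify (out chk : ℤ → ℤ → ℕ → Bool) (n : ℕ) : ℤ → ℤ → ℕ → Bool :=
  @Nat.rec (fun _ => ℤ → ℤ → ℕ → Bool) (fun i j k => bor (out i j k) (chk i j k))
    (fun _ ih i j k => bor (out i j k) (bor (chk i j k)
      (forceI (imul 2 i) fun i => forceI (imul 2 j) fun j => forceN (Nat.succ k) fun k =>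
       forceI (iadd i 1) fun i1 => forceI (iadd j 1) fun j1 =>
       band (ih i j k) (band (ih i1 j k) (band (ih i j1 k) (ih i1 j1 k)))))) n

/-- the closed square `[i/2^k, (i+1)/2^k] x [j/2^k, (j+1)/2^k]` -/
def InSq (i j : ℤ) (k : ℕ) (z : ℂ) : Prop :=
  (i : ℝ) / 2 ^ k ≤ z.re ∧ z.re ≤ ((i : ℝ) + 1) / 2 ^ k ∧ (j : ℝ) / 2 ^ k ≤ z.im ∧
    z.im ≤ ((j : ℝ) + 1) / 2 ^ k

/-- the lower part of `Q`, real part at most 8, without 0 -/
def QL : Set ℂ := {z | z ∈ Q ∧ z.im ≤ 0 ∧ z.re ≤ 8 ∧ z ≠ 0}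

theorem half_le (i : ℤ) (k : ℕ) (x : ℝ) (h1 : (i : ℝ) / 2 ^ k ≤ x) (h2 : x ≤ ((i : ℝ) + 1) / 2 ^ k) :
    (((2 * i : ℤ) : ℝ) / 2 ^ (k + 1) ≤ x ∧ x ≤ (((2 * i : ℤ) : ℝ) + 1) / 2 ^ (k + 1)) ∨
    (((2 * i + 1 : ℤ) : ℝ) / 2 ^ (k + 1) ≤ x ∧ x ≤ (((2 * i + 1 : ℤ) : ℝ) + 1) / 2 ^ (k + 1)) := by
  have hp : (0 : ℝ) < 2 ^ k := by positivity
  have e : (2 : ℝ) ^ (k + 1) = 2 * 2 ^ k := by ring
  rw [e]
  push_cast
  rcases le_total x ((2 * (i : ℝ) + 1) / (2 * 2 ^ k)) with h | h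
  · left
    refine ⟨?_, h⟩
    refine le_trans (le_of_eq ?_) h1
    field_simp
  · right
    refine ⟨h, ?_⟩
    refine h2.trans (le_of_eq ?_)
    field_simp
    ring

theorem verify_sound {out chk : ℤ → ℤ → ℕ → Bool} {Φ : ℂ → Prop} (R : Set ℂ)
    (hout : ∀ i j k, out i j k = true → ∀ z ∈ R, ¬ InSq i j k z)
    (hchk : ∀ i j k, chk i j k = true → ∀ z ∈ R, InSq i j k z → Φ z) (n : ℕ) :
    ∀ i j k, verify out chk n i j k = true → ∀ z ∈ R, InSq i j k z → Φ z := by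
  induction n with
  | zero =>
    intro i j k h z hz hs
    change bor (out i j k) (chk i j k) = true at h
    rw [bor_iff] at h
    rcases h with h | h
    · exact absurd hs (hout i j k h z hz)
    · exact hchk i j k h z hz hs
  | succ n ih =>
    intro i j k h z hz hs
    change bor (out i j k) (bor (chk i j k)
      (forceI (imul 2 i) fun i => forceI (imul 2 j) fun j => forceN (Nat.succ k) fun k =>
       forceI (iadd i 1) fun i1 => forceI (iadd j 1) fun j1 =>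
       band (verify out chk n i j k) (band (verify out chk n i1 j k)
        (band (verify out chk n i j1 k) (verify out chk n i1 j1 k))))) = true at h
    simp only [forceI_eq, forceN_eq, bor_iff, band_iff, imul_eq, iadd_eq,
      Nat.succ_eq_add_one] at h
    rcases h with h | h | ⟨h1, h2, h3, h4⟩
    · exact absurd hs (hout i j k h z hz)
    · exact hchk i j k h z hz hs
    · obtain ⟨a1, a2, a3, a4⟩ := hs
      rcases half_le i k z.re a1 a2 with ⟨b1, b2⟩ | ⟨b1, b2⟩ <;>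
      rcases half_le j k z.im a3 a4 with ⟨b3, b4⟩ | ⟨b3, b4⟩
      · exact ih _ _ _ h1 z hz ⟨b1, b2, b3, b4⟩
      · exact ih _ _ _ h3 z hz ⟨b1, b2, b3, b4⟩
      · exact ih _ _ _ h2 z hz ⟨b1, b2, b3, b4⟩
      · exact ih _ _ _ h4 z hz ⟨b1, b2, b3, b4⟩

theorem outQ_sound (i j : ℤ) (k : ℕ) (h : outQ i j k = true) :
    ∀ z : ℂ, z ∈ Q → z.im ≤ 0 → z.re ≤ 8 → ¬ InSq i j k z := by
  intro z hz him h8 ⟨a1, a2, a3, a4⟩
  obtain ⟨q1, q2, q3, q4, q5⟩ := hz
  rw [abs_of_nonpos him] at q2 q3 q4 q5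
  have hp : (0 : ℝ) < 2 ^ k := by positivity
  rw [le_div_iff₀ hp] at a2 a4
  rw [div_le_iff₀ hp] at a1
  simp only [outQ, forceI_eq, bor_iff, leZ_iff, iadd_eq, imul_eq, isub_eq, npow_eq] at h
  have e : ((Int.ofNat (2 ^ k) : ℤ) : ℝ) = 2 ^ k := by simp
  rcases h with h | h | h | h | h | h
  · have h' : ((8 * (i + 1) + 3 * Int.ofNat (2 ^ k) + 1 : ℤ) : ℝ) ≤ ((0 : ℤ) : ℝ) := by
      exact_mod_cast h
    push_cast [e] at h'
    nlinarith
  · have h' : ((127 * Int.ofNat (2 ^ k) + 72 * (i + 1) + 1 : ℤ) : ℝ) ≤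
        ((80 * (0 - (j + 1)) : ℤ) : ℝ) := by exact_mod_cast h
    push_cast [e] at h'
    nlinarith
  · have h' : ((20 * Int.ofNat (2 ^ k) + 7 * (i + 1) + 1 : ℤ) : ℝ) ≤
        ((12 * (0 - (j + 1)) : ℤ) : ℝ) := by exact_mod_cast h
    push_cast [e] at h'
    nlinarith
  · have h' : ((33 * Int.ofNat (2 ^ k) + 3 * (i + 1) + 1 : ℤ) : ℝ) ≤
        ((16 * (0 - (j + 1)) : ℤ) : ℝ) := by exact_mod_cast h
    push_cast [e] at h'
    nlinarith
  · have h' : ((21 * Int.ofNat (2 ^ k) + 1 : ℤ) : ℝ) ≤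
        ((8 * (0 - (j + 1)) : ℤ) : ℝ) := by exact_mod_cast h
    push_cast [e] at h'
    nlinarith
  · have h' : ((8 * Int.ofNat (2 ^ k) + 1 : ℤ) : ℝ) ≤ ((i : ℤ) : ℝ) := by exact_mod_cast h
    push_cast [e] at h'
    nlinarith

theorem center_sound {i j : ℤ} {k : ℕ} {f : T → ℕ → ℕ → Bool} (h : center i j k f = true)
    {z : ℂ} (hz : InSq i j k z) : ∃ (t : T) (r g : ℕ) (δ : ℂ), ‖δ‖ ≤ rv r ∧ rv r ≤ 1 ∧
      Enc δ t z ∧ |z.re - (t.ax : ℝ) / 1099511627776| ≤ rv g ∧ f t r g = true := by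
  simp only [center, band_iff, forceN_eq, forceI_eq, imul_eq, iadd_eq, Nat.add_eq, Nat.mul_eq,
    ndiv_eq, npow_eq] at h
  obtain ⟨h1, h2⟩ := h
  have hk : k ≤ 39 := Nat.le_of_ble_eq_true h1
  obtain ⟨g, hg⟩ : ∃ g, g = 549755813888 / 2 ^ k := ⟨_, rfl⟩
  rw [← hg] at h2
  have hgk : g * 2 ^ k = 549755813888 := by
    rw [hg]
    apply Nat.div_mul_cancel
    exact (pow_dvd_pow 2 hk).trans (by norm_num)
  have hgr : (g : ℝ) * 2 ^ k = 549755813888 := by exact_mod_cast hgk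
  have hp : (0 : ℝ) < 2 ^ k := by positivity
  have hp1 : (1 : ℝ) ≤ 2 ^ k := one_le_pow₀ (by norm_num)
  obtain ⟨a1, a2, a3, a4⟩ := hz
  have key : ∀ (m : ℤ) (x : ℝ), (m : ℝ) / 2 ^ k ≤ x → x ≤ ((m : ℝ) + 1) / 2 ^ k →
      |x - (((2 * m + 1) * Int.ofNat g : ℤ) : ℝ) / 1099511627776| ≤ rv g := by
    intro m x h1 h2
    unfold rv
    rw [abs_le]
    have e : ((Int.ofNat g : ℤ) : ℝ) = (g : ℝ) := by simp
    push_cast [e]
    have e1 : (m : ℝ) / 2 ^ k = m * (2 * g) / 1099511627776 := by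
      rw [div_eq_div_iff hp.ne' (by norm_num)]
      linear_combination -(2 * (m : ℝ)) * hgr
    have e2 : ((m : ℝ) + 1) / 2 ^ k = (m + 1) * (2 * g) / 1099511627776 := by
      rw [div_eq_div_iff hp.ne' (by norm_num)]
      linear_combination -(2 * ((m : ℝ) + 1)) * hgr
    rw [e1] at h1
    rw [e2] at h2
    constructor
    · have : -((g : ℝ) / 1099511627776) = m * (2 * g) / 1099511627776 -
        (2 * (m : ℝ) + 1) * g / 1099511627776 := by ring
      linarith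
    · have : ((g : ℝ) / 1099511627776) = (m + 1) * (2 * g) / 1099511627776 -
        (2 * (m : ℝ) + 1) * g / 1099511627776 := by ring
      linarith
  have k1 := key i z.re a1 a2
  have k2 := key j z.im a3 a4
  obtain ⟨x, hx⟩ : ∃ x, x = (2 * i + 1) * Int.ofNat g := ⟨_, rfl⟩
  obtain ⟨y, hy⟩ : ∃ y, y = (2 * j + 1) * Int.ofNat g := ⟨_, rfl⟩
  rw [← hx] at k1 h2
  rw [← hy] at k2 h2
  have hfl : 70711 * (g : ℝ) ≤ 50000 * ((g * 70711 / 50000 + 2 : ℕ) : ℝ) := by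
    have h : g * 70711 < 50000 * (g * 70711 / 50000 + 1) := Nat.lt_mul_div_succ _ (by norm_num)
    have h' : ((g * 70711 : ℕ) : ℝ) ≤ ((50000 * (g * 70711 / 50000 + 1) : ℕ) : ℝ) := by
      exact_mod_cast h.le
    push_cast at h' ⊢
    linarith
  refine ⟨_, _, g, z - cv x y, ?_, ?_, ?_, k1, h2⟩
  · -- norm
    have hre : (z - cv x y).re = z.re - (x : ℝ) / 1099511627776 := by simp [cv]
    have him : (z - cv x y).im = z.im - (y : ℝ) / 1099511627776 := by simp [cv]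
    rw [← sq_le_sq₀ (norm_nonneg _) (rv_nonneg _), Complex.sq_norm, Complex.normSq_apply, hre, him]
    have s1 : (z.re - (x : ℝ) / 1099511627776) * (z.re - (x : ℝ) / 1099511627776) ≤ rv g ^ 2 := by
      rw [← pow_two]; exact sq_le_sq' (abs_le.mp k1).1 (abs_le.mp k1).2
    have s2 : (z.im - (y : ℝ) / 1099511627776) * (z.im - (y : ℝ) / 1099511627776) ≤ rv g ^ 2 := by
      rw [← pow_two]; exact sq_le_sq' (abs_le.mp k2).1 (abs_le.mp k2).2
    have s3 : 70711 / 50000 * rv g ≤ rv (g * 70711 / 50000 + 2) := by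
      unfold rv
      rw [mul_div_assoc']
      apply div_le_div_of_nonneg_right _ (by norm_num)
      linarith
    have s4 : (70711 / 50000 * rv g) ^ 2 ≤ rv (g * 70711 / 50000 + 2) ^ 2 :=
      pow_le_pow_left₀ (by have := rv_nonneg g; positivity) s3 2
    nlinarith [sq_nonneg (rv g)]
  · unfold rv
    rw [div_le_one (by norm_num)]
    have hg1 : g ≤ 549755813888 := by rw [hg]; exact Nat.div_le_self _ _
    have : g * 70711 / 50000 + 2 ≤ 1099511627776 := by omega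
    exact_mod_cast this
  · unfold Enc
    simp only
    rw [show cv (Int.ofNat DD) 0 = 1 by simpa using cv_int 1]
    have : z - (cv x y + 1 * (z - cv x y)) = 0 := by ring
    rw [this, norm_zero]
    exact rv_nonneg _

end BN
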