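import Pool.Agent.Helper76.BN.Link
import Pool.Agent.Helper76.BN.Sq

/-!
Block N of MP_3942cb_co: the check of group A.
-/

set_option linter.unusedSimpArgs false

namespace BN

open ST3

/-- second part of the check of group A: `V1`, `V2` -/
noncomputable def coreA2 (r : ℕ) (z κ k2 tk v : T) : Bool :=
  forceT (T.sub z tk) fun ztk => divT r ztk κ fun v1 =>
  band (Nat.ble (Nat.mul 50 (v1.hi r)) (Nat.mul 13 (v.lo r)))
  (band (forceT (T.sub v (T.add v1 v1)) fun b => forceN (b.dev r) fun db =>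
    band (leZ (Int.ofNat (Nat.add (Nat.mul 11 DD) (Nat.mul 10 db))) (imul 10 b.ax))
      (leZ (Int.ofNat (Nat.add (Nat.mul 1000 (iab b.ay)) (Nat.mul 1400 db))) (imul 979 b.ax)))
  (mulT r k2 κ fun k3 => divT r tk k3 fun u =>
    forceT (T.sub v1 (T.add u u)) fun v2 => Nat.ble (Nat.mul 4 (v2.hi r)) (Nat.mul 5 DD)))

/-- first part of the check of group A -/
noncomputable def coreA (r : ℕ) (z w y : T) : Bool :=
  forceT (T.sdiv z 2) fun z2 =>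
  forceT (T.addc (T.add z2 y) (Int.ofNat DD)) fun κ =>
  forceN (κ.dev r) fun dκ =>
  band (leZ (Int.ofNat (Nat.add (Nat.mul 7 DD) (Nat.mul 10 dκ))) (imul 10 κ.ax))
  (band (leZ (Int.ofNat (Nat.add (Nat.mul 1000 (iab κ.ay)) (Nat.mul 1492 dκ))) (imul 1107 κ.ax))
  (sqT r y fun yy => sqT r κ fun k2 =>
   forceT (T.sub (T.sub (T.add z2 (T.sdiv w 4)) (T.zmul 3 y)) yy) fun tk =>
   forceT (T.add tk k2) fun v0 => forceN (κ.lo r) fun lκ =>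
   band (Nat.ble (Nat.mul (Nat.mul 10 (v0.hi r)) DD) (Nat.mul 17 (Nat.mul lκ lκ)))
   (band (Nat.ble (Nat.mul (Nat.mul 4 (tk.hi r)) DD) (Nat.mul 3 (Nat.mul lκ lκ)))
   (forceT (T.addc (T.sub y z2) (imul 3 (Int.ofNat DD))) fun v =>
    forceN (v.dev r) fun dv =>
    band (leZ (Int.ofNat (Nat.add DD dv)) v.ax)
    (band (Nat.ble (Nat.mul 10 (v.hi r)) (Nat.mul 33 DD))
    (band (leZ (Int.ofNat (Nat.add (Nat.mul 1000 (iab v.ay)) (Nat.mul 1075 dv))) (imul 393 v.ax))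
      (coreA2 r z κ k2 tk v)))))))

/-- check of group A -/
noncomputable def chkA (N : ℕ) (i j : ℤ) (k : ℕ) : Bool :=
  center i j k fun z r _ => sqT r z fun w =>
    cf0 r w N (cfT r w (fun y => forceT (T.zmul 3 y) fun y => coreA r z w y) N)

/-- the facts of group A -/
def FA (z : ℂ) : Prop :=
  7 / 10 ≤ (kap z).re ∧ ‖V1 z‖ ≤ 13 / 50 * ‖VV z‖ ∧ ‖V2 z‖ ≤ 5 / 4 ∧
  |(VV z).im| ≤ 393 / 1000 * (VV z).re ∧ (1 ≤ (VV z).re ∧ ‖VV z‖ ≤ 33 / 10) ∧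
  (11 / 20 ≤ (VV z / 2 - V1 z).re ∧ ‖VV z / 2 - V1 z‖ ≤ 7 / 5 * (VV z / 2 - V1 z).re) ∧
  ‖tk z‖ ≤ 3 / 4 * ‖kap z‖ ^ 2 ∧ ‖2 + z + (z - 1) * kap z‖ ≤ 17 / 10 * ‖kap z‖ ^ 2 ∧
  67 / 100 * ‖kap z‖ ≤ (kap z).re

theorem re_im_le {w c : ℂ} {d : ℝ} (h : ‖w - c‖ ≤ d) : |w.re - c.re| ≤ d ∧ |w.im - c.im| ≤ d := by
  constructor
  · rw [← Complex.sub_re]; exact (Complex.abs_re_le_norm _).trans h
  · rw [← Complex.sub_im]; exact (Complex.abs_im_le_norm _).trans h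

theorem lin_le {w c : ℂ} {d : ℝ} (h : ‖w - c‖ ≤ d) {p q m : ℝ} (hm : 0 ≤ m)
    (hpq : p ^ 2 + q ^ 2 ≤ m ^ 2) : p * c.re + q * c.im - m * d ≤ p * w.re + q * w.im := by
  have hd : 0 ≤ d := (norm_nonneg _).trans h
  have h2 : (w.re - c.re) ^ 2 + (w.im - c.im) ^ 2 ≤ d ^ 2 := by
    have := pow_le_pow_left₀ (norm_nonneg _) h 2
    rw [Complex.sq_norm, Complex.normSq_apply, Complex.sub_re, Complex.sub_im] at this
    nlinarith
  have h3 : (p * (w.re - c.re) + q * (w.im - c.im)) ^ 2 ≤ (m * d) ^ 2 := by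
    have e1 : (p * (w.re - c.re) + q * (w.im - c.im)) ^ 2 ≤
        (p ^ 2 + q ^ 2) * ((w.re - c.re) ^ 2 + (w.im - c.im) ^ 2) := by
      nlinarith [sq_nonneg (p * (w.im - c.im) - q * (w.re - c.re))]
    calc _ ≤ (p ^ 2 + q ^ 2) * ((w.re - c.re) ^ 2 + (w.im - c.im) ^ 2) := e1
      _ ≤ m ^ 2 * d ^ 2 := mul_le_mul hpq h2 (by positivity) (by positivity)
      _ = _ := by ring
  have h4 := abs_le_of_sq_le_sq h3 (by positivity)
  have := (abs_le.mp h4).1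
  linarith

theorem cone_le {w c : ℂ} {d : ℝ} (h : ‖w - c‖ ≤ d) {p q m : ℝ} (hm : 0 ≤ m) (hq : 0 ≤ q)
    (hpq : p ^ 2 + q ^ 2 ≤ m ^ 2) (hc : q * |c.im| + m * d ≤ p * c.re) :
    q * |w.im| ≤ p * w.re := by
  have h1 := lin_le h (p := p) (q := q) hm hpq
  have h2 := lin_le h (p := p) (q := -q) hm (by rw [neg_sq]; exact hpq)
  have h3 := mul_le_mul_of_nonneg_left (le_abs_self c.im) hq
  have h4 := mul_le_mul_of_nonneg_left (neg_abs_le c.im) hq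
  rcases abs_cases w.im with ⟨h5, _⟩ | ⟨h5, _⟩ <;> rw [h5] <;> linarith

theorem cone_norm {w : ℂ} {p q m : ℝ} (hm : 0 ≤ m) (hq : 0 < q) (hp : 0 < p)
    (hpq : p ^ 2 + q ^ 2 ≤ m ^ 2) (h : q * |w.im| ≤ p * w.re) : ‖w‖ * q ≤ m * w.re := by
  have hre : 0 ≤ w.re := by
    have : 0 ≤ q * |w.im| := by positivity
    nlinarith
  have h0 : 0 ≤ ‖w‖ * q := by positivity
  rw [← sq_le_sq₀ h0 (by positivity), mul_pow, Complex.sq_norm, Complex.normSq_apply]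
  have h1 := pow_le_pow_left₀ (by positivity) h 2
  have h2 : |w.im| ^ 2 = w.im ^ 2 := sq_abs _
  rw [mul_pow, h2] at h1
  nlinarith [sq_nonneg w.re]

theorem cv_re (x y : ℤ) : (cv x y).re = (x : ℝ) / 1099511627776 := rfl
theorem cv_im (x y : ℤ) : (cv x y).im = (y : ℝ) / 1099511627776 := rfl

theorem rv_eq (n : ℕ) : rv n = (n : ℝ) / 1099511627776 := rfl

theorem DD_cast : ((DD : ℕ) : ℝ) = 1099511627776 := by simp [DD]

theorem coreA2_sound {δ : ℂ} {r : ℕ} {z κ k2 tk v : T} {Z K TK V : ℂ} (hδ : ‖δ‖ ≤ rv r)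
    (hr : rv r ≤ 1) (hz : Enc δ z Z) (hκ : Enc δ κ K) (hk2 : Enc δ k2 (K ^ 2))
    (htk : Enc δ tk TK) (hv : Enc δ v V) (h : coreA2 r z κ k2 tk v = true) :
    ‖(Z - TK) / K‖ ≤ 13 / 50 * ‖V‖ ∧ ‖(Z - TK) / K - 2 * TK / K ^ 3‖ ≤ 5 / 4 ∧
    11 / 20 ≤ (V / 2 - (Z - TK) / K).re ∧
    ‖V / 2 - (Z - TK) / K‖ ≤ 7 / 5 * (V / 2 - (Z - TK) / K).re := by
  simp only [coreA2, forceT_eq] at h
  obtain ⟨hK, v1, hv1, h⟩ := divT_sound hδ hr (hz.sub htk) hκ h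
  simp only [band_iff, forceN_eq] at h
  obtain ⟨c1, ⟨c2, c3⟩, h⟩ := h
  obtain ⟨k3, hk3, h⟩ := mulT_sound hδ hr hk2 hκ h
  obtain ⟨_, u, hu, h⟩ := divT_sound hδ hr htk hk3 h
  have hV1 : Enc δ v1 ((Z - TK) / K) := hv1
  have hB := hv.sub (hV1.add hV1)
  have hV2 := hV1.sub (hu.add hu)
  obtain ⟨bb, hbb⟩ : ∃ b, b = v.sub (v1.add v1) := ⟨_, rfl⟩
  rw [← hbb] at hB c2 c3
  set X := (Z - TK) / K with hX
  have c1' := Nat.le_of_ble_eq_true c1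
  have h' := Nat.le_of_ble_eq_true h
  have hDD := DD_cast
  refine ⟨?_, ?_, ?_⟩
  · have a1 := hV1.hi hδ
    have a2 := hv.lo hδ
    have c1r : ((Nat.mul 50 (v1.hi r) : ℕ) : ℝ) ≤ ((Nat.mul 13 (v.lo r) : ℕ) : ℝ) := by
      exact_mod_cast c1'
    simp only [Nat.mul_eq] at c1r
    push_cast at c1r
    rw [rv_eq] at a1 a2
    linarith
  · have a1 := hV2.hi hδ
    have e : X - (TK / (K ^ 2 * K) + TK / (K ^ 2 * K)) = X - 2 * TK / K ^ 3 := by ring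
    rw [e] at a1
    have hr' : ((Nat.mul 4 ((v1.sub (u.add u)).hi r) : ℕ) : ℝ) ≤ ((Nat.mul 5 DD : ℕ) : ℝ) := by
      exact_mod_cast h'
    simp only [Nat.mul_eq] at hr'
    push_cast [hDD] at hr'
    rw [rv_eq] at a1
    linarith
  · have a1 := hB.dev hδ
    have e : V - (X + X) = 2 * (V / 2 - X) := by ring
    rw [e] at a1
    have b1 := (re_im_le a1).1
    rw [rv_eq] at b1
    rw [cv_re] at b1
    have c2' := leZ_iff.mp c2
    have c3' := leZ_iff.mp c3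
    have c2r : ((Int.ofNat (Nat.add (Nat.mul 11 DD) (Nat.mul 10 (bb.dev r))) : ℤ) : ℝ) ≤
        ((imul 10 bb.ax : ℤ) : ℝ) := by exact_mod_cast c2'
    have c3r : ((Int.ofNat (Nat.add (Nat.mul 1000 (iab bb.ay)) (Nat.mul 1400 (bb.dev r))) : ℤ) : ℝ)
        ≤ ((imul 979 bb.ax : ℤ) : ℝ) := by exact_mod_cast c3'
    simp only [Nat.mul_eq, Nat.add_eq, imul_eq, Int.ofNat_eq_natCast, iab_eq] at c2r c3r
    push_cast [hDD, Nat.cast_natAbs] at c2r c3r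
    have hre : (2 * (V / 2 - X)).re = 2 * (V / 2 - X).re := by simp
    have b2 := (abs_le.mp b1).1
    rw [hre] at b2
    refine ⟨by linarith, ?_⟩
    have hcone := cone_le a1 (p := 979) (q := 1000) (m := 1400) (by norm_num) (by norm_num)
      (by norm_num) (by
        rw [cv_re, cv_im, rv_eq, abs_div, abs_of_pos (show (0:ℝ) < 1099511627776 by norm_num)]
        have : (1000 * |(bb.ay : ℝ)| + 1400 * (bb.dev r : ℝ)) / 1099511627776 ≤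
          979 * (bb.ax : ℝ) / 1099511627776 := div_le_div_of_nonneg_right c3r (by norm_num)
        linarith)
    have hn := cone_norm (by norm_num) (by norm_num) (by norm_num) (by norm_num)
      hcone (p := 979) (q := 1000) (m := 1400)
    rw [norm_mul, Complex.norm_ofNat, hre] at hn
    linarith

theorem coreA_sound {δ : ℂ} {r : ℕ} {z w y : T} {Z : ℂ} (hδ : ‖δ‖ ≤ rv r)
    (hr : rv r ≤ 1) (hz : Enc δ z Z) (hw : Enc δ w (Z ^ 2)) (hy : Enc δ y (3 * yy 0 (Z ^ 2)))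
    (hZ : Z ≠ 0) (hP : Ph 0 (Z ^ 2) ≠ 0) (h : coreA r z w y = true) : FA Z := by
  simp only [coreA, forceT_eq, forceN_eq, band_iff] at h
  have hz2 := hz.sdiv hδ hr (k := 2) (by norm_num)
  have hκ := (hz2.add hy).addc (Int.ofNat DD)
  have eκ : Z / ((2 : ℕ) : ℂ) + 3 * yy 0 (Z ^ 2) + cv (Int.ofNat DD) 0 = kap Z := by
    rw [cv_DD, kap_yy hZ hP]; push_cast; ring
  rw [eκ] at hκ
  obtain ⟨κ, hκd⟩ : ∃ κ, κ = ((z.sdiv 2).add y).addc (Int.ofNat DD) := ⟨_, rfl⟩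
  rw [← hκd] at hκ h
  obtain ⟨c1, c2, h⟩ := h
  obtain ⟨y2, hy2, h⟩ := sqT_sound hδ hr hy h
  obtain ⟨k2, hk2, h⟩ := sqT_sound hδ hr hκ h
  simp only [forceT_eq, forceN_eq, band_iff] at h
  have htk := ((hz2.add (hw.sdiv hδ hr (k := 4) (by norm_num))).sub (hy.zmul 3)).sub hy2
  obtain ⟨t, ht⟩ : ∃ t, t = (((z.sdiv 2).add (w.sdiv 4)).sub (T.zmul 3 y)).sub y2 := ⟨_, rfl⟩
  rw [← ht] at htk h
  have etk : Z / ((2 : ℕ) : ℂ) + Z ^ 2 / ((4 : ℕ) : ℂ) - ((3 : ℤ) : ℂ) * (3 * yy 0 (Z ^ 2)) -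
      (3 * yy 0 (Z ^ 2)) ^ 2 = tk Z := by
    unfold tk; rw [kap_yy hZ hP]; push_cast; ring
  rw [etk] at htk
  have hv := (hy.sub hz2).addc (imul 3 (Int.ofNat DD))
  obtain ⟨v, hvd⟩ : ∃ v, v = (y.sub (z.sdiv 2)).addc (imul 3 (Int.ofNat DD)) := ⟨_, rfl⟩
  rw [← hvd] at hv h
  have ev : 3 * yy 0 (Z ^ 2) - Z / ((2 : ℕ) : ℂ) + cv (imul 3 (Int.ofNat DD)) 0 = VV Z := by
    have : cv (imul 3 (Int.ofNat DD)) 0 = ((3 : ℤ) : ℂ) := by
      rw [imul_eq]; exact cv_int 3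
    rw [this, VV_yy hZ hP]; push_cast; ring
  rw [ev] at hv
  obtain ⟨c3, c4, c5, c6, c7, h⟩ := h
  obtain ⟨d1, d2, d3, d4⟩ := coreA2_sound hδ hr hz hκ hk2 htk hv h
  have hDD := DD_cast
  have a1 := hκ.dev hδ
  have b1 := (re_im_le a1).1
  rw [rv_eq, cv_re] at b1
  have c1r : ((Int.ofNat (Nat.add (Nat.mul 7 DD) (Nat.mul 10 (κ.dev r))) : ℤ) : ℝ) ≤
        ((imul 10 κ.ax : ℤ) : ℝ) := by exact_mod_cast leZ_iff.mp c1
  have c2r : ((Int.ofNat (Nat.add (Nat.mul 1000 (iab κ.ay)) (Nat.mul 1492 (κ.dev r))) : ℤ) : ℝ)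
        ≤ ((imul 1107 κ.ax : ℤ) : ℝ) := by exact_mod_cast leZ_iff.mp c2
  have c5r : ((Int.ofNat (Nat.add DD (v.dev r)) : ℤ) : ℝ) ≤ ((v.ax : ℤ) : ℝ) := by
    exact_mod_cast leZ_iff.mp c5
  have c7r : ((Int.ofNat (Nat.add (Nat.mul 1000 (iab v.ay)) (Nat.mul 1075 (v.dev r))) : ℤ) : ℝ)
        ≤ ((imul 393 v.ax : ℤ) : ℝ) := by exact_mod_cast leZ_iff.mp c7
  simp only [Nat.mul_eq, Nat.add_eq, imul_eq, Int.ofNat_eq_natCast, iab_eq] at c1r c2r c5r c7r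
  push_cast [hDD, Nat.cast_natAbs] at c1r c2r c5r c7r
  have hcone := cone_le a1 (p := 1107) (q := 1000) (m := 1492) (by norm_num) (by norm_num)
      (by norm_num) (by
        rw [cv_re, cv_im, rv_eq, abs_div, abs_of_pos (show (0:ℝ) < 1099511627776 by norm_num)]
        have : (1000 * |(κ.ay : ℝ)| + 1492 * (κ.dev r : ℝ)) / 1099511627776 ≤
          1107 * (κ.ax : ℝ) / 1099511627776 := div_le_div_of_nonneg_right c2r (by norm_num)
        linarith)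
  have hn := cone_norm (by norm_num) (by norm_num) (by norm_num) (by norm_num)
      hcone (p := 1107) (q := 1000) (m := 1492)
  have hlo := hκ.lo hδ
  have hlo2 := pow_le_pow_left₀ (rv_nonneg _) hlo 2
  have a5 := hv.dev hδ
  have b5 := (re_im_le a5).1
  rw [rv_eq, cv_re] at b5
  have hconev := cone_le a5 (p := 393) (q := 1000) (m := 1075) (by norm_num) (by norm_num)
      (by norm_num) (by
        rw [cv_re, cv_im, rv_eq, abs_div, abs_of_pos (show (0:ℝ) < 1099511627776 by norm_num)]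
        have : (1000 * |(v.ay : ℝ)| + 1075 * (v.dev r : ℝ)) / 1099511627776 ≤
          393 * (v.ax : ℝ) / 1099511627776 := div_le_div_of_nonneg_right c7r (by norm_num)
        linarith)
  have c3r : ((Nat.mul (Nat.mul 10 ((t.add k2).hi r)) DD : ℕ) : ℝ) ≤
      ((Nat.mul 17 (Nat.mul (κ.lo r) (κ.lo r)) : ℕ) : ℝ) := by
    exact_mod_cast Nat.le_of_ble_eq_true c3
  have c4r : ((Nat.mul (Nat.mul 4 (t.hi r)) DD : ℕ) : ℝ) ≤
      ((Nat.mul 3 (Nat.mul (κ.lo r) (κ.lo r)) : ℕ) : ℝ) := by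
    exact_mod_cast Nat.le_of_ble_eq_true c4
  have c6r : ((Nat.mul 10 (v.hi r) : ℕ) : ℝ) ≤ ((Nat.mul 33 DD : ℕ) : ℝ) := by
    exact_mod_cast Nat.le_of_ble_eq_true c6
  simp only [Nat.mul_eq] at c3r c4r c6r
  push_cast [hDD] at c3r c4r c6r
  have a3 := (htk.add hk2).hi hδ
  have a4 := htk.hi hδ
  have a6 := hv.hi hδ
  rw [rv_eq] at a3 a4 a6
  have hlosq : rv (κ.lo r) ^ 2 = (κ.lo r : ℝ) * (κ.lo r : ℝ) / 1099511627776 ^ 2 := by
    rw [rv_eq]; ring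
  rw [hlosq] at hlo2
  have eW : tk Z + kap Z ^ 2 = 2 + Z + (Z - 1) * kap Z := by unfold tk; ring
  rw [eW] at a3
  refine ⟨?_, d1, ?_, ?_, ⟨?_, ?_⟩, ⟨d3, d4⟩, ?_, ?_, ?_⟩
  · linarith [(abs_le.mp b1).1]
  · exact d2
  · linarith
  · linarith [(abs_le.mp b5).1]
  · linarith
  · have : (t.hi r : ℝ) / 1099511627776 ≤ 3 / 4 * ((κ.lo r : ℝ) * (κ.lo r : ℝ) /
        1099511627776 ^ 2) := by
      rw [div_le_iff₀ (by norm_num)]
      have e : 3 / 4 * ((κ.lo r : ℝ) * (κ.lo r : ℝ) / 1099511627776 ^ 2) * 1099511627776 =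
        3 / 4 * ((κ.lo r : ℝ) * (κ.lo r : ℝ)) / 1099511627776 := by ring
      rw [e, le_div_iff₀ (by norm_num)]
      linarith
    linarith
  · have : ((t.add k2).hi r : ℝ) / 1099511627776 ≤ 17 / 10 * ((κ.lo r : ℝ) * (κ.lo r : ℝ) /
        1099511627776 ^ 2) := by
      rw [div_le_iff₀ (by norm_num)]
      have e : 17 / 10 * ((κ.lo r : ℝ) * (κ.lo r : ℝ) / 1099511627776 ^ 2) * 1099511627776 =
        17 / 10 * ((κ.lo r : ℝ) * (κ.lo r : ℝ)) / 1099511627776 := by ring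
      rw [e, le_div_iff₀ (by norm_num)]
      linarith
    linarith
  · have : 0 ≤ (kap Z).re := by linarith [(abs_le.mp b1).1, rv_nonneg (κ.dev r)]
    linarith

theorem chkA_sound {N : ℕ} (i j : ℤ) (k : ℕ) (h : chkA N i j k = true) :
    ∀ z ∈ QL, InSq i j k z → FA z := by
  intro Z hZ hs
  obtain ⟨z, r, g, δ, hδ, hr, hz, _, h⟩ := center_sound h hs
  obtain ⟨w, hw, h⟩ := sqT_sound hδ hr hz h
  obtain ⟨hP, y, hy, h⟩ := cf_sound hδ hr hw h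
  rw [forceT_eq] at h
  exact coreA_sound hδ hr hz hw (by simpa using hy.zmul 3) hZ.2.2.2 hP h

end BN
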