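import Pool.Agent.Helper76.BN.RealB

/-!
Block N of MP_3942cb_co: the check of N11, N12, N18.
-/

set_option linter.unusedSimpArgs false

namespace BN

open ST3 Complex

/-- the models of `E'` and `24 O'` -/
noncomputable def eoT (r : ℕ) (z w κ : T) (k : T → T → Bool) : Bool :=
  mulT r z w fun z3 => sqT r w fun z4 =>
  forceT (T.addc (T.add (T.add z4 (T.zmul 7 z3)) (T.add (T.zmul (-463) w) (T.zmul (-950) z)))
    (imul 950 (Int.ofNat DD))) fun ea =>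
  forceT (T.addc (T.add (T.add z4 (T.zmul 5 z3)) (T.zmul (-469) w))
    (imul 90731 (Int.ofNat DD))) fun eb =>
  forceT (T.addc (T.add z3 (T.add (T.zmul 4 w) (T.zmul (-315) z)))
    (imul 30086 (Int.ofNat DD))) fun oa =>
  forceT (T.addc (T.add z3 (T.add (T.zmul 2 w) (T.zmul (-315) z)))
    (imul 315 (Int.ofNat DD))) fun ob =>
  mulT r eb κ fun u => mulT r ob κ fun v =>
  forceT (T.add ea u) fun e => forceT (T.zmul 24 (T.add oa v)) fun o => k e o

/-- smaller of two natural numbers -/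
noncomputable def nmin (a b : ℕ) : ℕ := @Bool.rec (fun _ => ℕ) b a (Nat.ble a b)

/-- part N18 -/
noncomputable def c18 (x1 gm : ℤ) : Bool :=
  forceN (Nat.mul DD DD) fun D2 =>
  band (bor (leZ (iadd x1 1) (Int.ofNat DD)) (leZ (Int.ofNat (Nat.mul 7932 D2)) (imul 5000 gm)))
  (band (bor (leZ (iadd (imul 10 x1) 1) (Int.ofNat (Nat.mul 17 DD)))
    (leZ (Int.ofNat (Nat.mul 2 D2)) gm))
  (bor (leZ (iadd x1 1) (Int.ofNat (Nat.mul 3 DD)))
    (leZ (Int.ofNat (Nat.mul 228 D2)) (imul 100 gm))))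

/-- part N11 -/
noncomputable def c11 (r : ℕ) (z κ : T) (mm : ℕ) : Bool :=
  bor (Nat.ble (Nat.succ (Nat.mul 9 DD)) (Nat.mul 2 (z.lo r)))
    (forceN (nmin (z.hi r) 4947802324992) fun t => hup 4 t 16 fun a => forceN (κ.lo r) fun lk =>
      Nat.ble (Nat.mul a (Nat.mul DD DD)) (Nat.mul 31 (Nat.mul (Nat.mul lk lk) mm)))

/-- part N12 -/
noncomputable def c12 (r : ℕ) (z w κ : T) (mm : ℕ) : Bool :=
  band (Nat.ble 1 mm)
  (eoT r z w κ fun e o => forceN (z.hi r) fun t => hup 7 t 24 fun a =>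
    forceN (Nat.succ (Nat.div (Nat.mul a DD) (Nat.mul 28 mm))) fun rem =>
    forceT (T.mulI o) fun io =>
    band (forceT (T.add e io) fun p =>
      leZ (Int.ofNat (Nat.add (Nat.mul 53085 DD) (Nat.add rem (p.dev r)))) p.ax)
    (forceT (T.sub e io) fun q =>
      leZ (Int.ofNat (Nat.add (Nat.mul 53085 DD) (Nat.add rem (q.dev r)))) q.ax))

/-- check of N11, N12, N18 -/
noncomputable def coreC (r g : ℕ) (z w y s : T) : Bool :=
  forceT (T.sdiv z 2) fun z2 =>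
  forceT (T.addc (T.add z2 y) (Int.ofNat DD)) fun κ =>
  forceT (T.addc (T.sub y z2) (imul 3 (Int.ofNat DD))) fun v =>
  forceN (Nat.div (Nat.mul (exLo (isub z.ax (Int.ofNat g))) (s.lo r)) DD) fun mm =>
  forceI (isub v.ax (Int.ofNat (Nat.add (v.dev r) (Nat.add DD (Nat.succ (Nat.div DD 25))))))
    fun gg => forceI (iadd z.ax (Int.ofNat g)) fun x1 =>
  forceI (imul gg (Int.ofNat mm)) fun gm =>
  band (c18 x1 gm) (band (c11 r z κ mm) (c12 r z w κ mm))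

/-- check of N11, N12, N18 -/
noncomputable def chkC (N K : ℕ) (i j : ℤ) (k : ℕ) : Bool :=
  center i j k fun z r g => sqT r z fun w =>
    cf0 r w N (cfT r w (fun y => forceT (T.zmul 3 y) fun y =>
      ph0 r w K (phT r w (fun s => coreC r g z w y s) K)) N)

/-- the facts N11, N12, N18 -/
def FC (z : ℂ) : Prop :=
  (‖z‖ ≤ 9 / 2 → (GG 4 (‖z‖ : ℂ)).re * ‖GG 1 z‖ ≤ 31 * ‖GG 2 z‖ ^ 2) ∧
  (9 / 500 ≤ ((GG 0 z - GG 0 (z * exp ((1 / 4 : ℝ) * I))) / GG 1 z).re ∧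
  9 / 500 ≤ ((GG 0 z - GG 0 (z * exp (-(1 / 4 : ℝ) * I))) / GG 1 z).re) ∧
  (1 ≤ z.re → 661 / 5000 * ‖z‖ / ‖GG 1 z‖ + 1 / 50 ≤ (GG 0 z / GG 1 z).re) ∧
  (17 / 10 ≤ z.re → 1 / 6 * ‖z‖ / ‖GG 1 z‖ + 1 / 50 ≤ (GG 0 z / GG 1 z).re) ∧
  (3 ≤ z.re → 19 / 100 * ‖z‖ / ‖GG 1 z‖ + 1 / 50 ≤ (GG 0 z / GG 1 z).re)

theorem cv_mulDD (n : ℤ) : cv (imul n (Int.ofNat DD)) 0 = (n : ℂ) := by
  rw [imul_eq]; exact cv_int n

theorem eoT_sound {δ : ℂ} {r : ℕ} {z w κ : T} {Z κ' : ℂ} {k : T → T → Bool} (hδ : ‖δ‖ ≤ rv r)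
    (hr : rv r ≤ 1) (hz : Enc δ z Z) (hw : Enc δ w (Z ^ 2)) (hκ : Enc δ κ κ')
    (h : eoT r z w κ k = true) : ∃ e o, Enc δ e (Ec Z κ') ∧ Enc δ o (Oc Z κ') ∧ k e o = true := by
  unfold eoT at h
  obtain ⟨z3, hz3, h⟩ := mulT_sound hδ hr hz hw h
  obtain ⟨z4, hz4, h⟩ := sqT_sound hδ hr hw h
  simp only [forceT_eq] at h
  have hea := ((hz4.add (hz3.zmul 7)).add ((hw.zmul (-463)).add (hz.zmul (-950)))).addc
    (imul 950 (Int.ofNat DD))
  have heb := ((hz4.add (hz3.zmul 5)).add (hw.zmul (-469))).addc (imul 90731 (Int.ofNat DD))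
  have hoa := (hz3.add ((hw.zmul 4).add (hz.zmul (-315)))).addc (imul 30086 (Int.ofNat DD))
  have hob := (hz3.add ((hw.zmul 2).add (hz.zmul (-315)))).addc (imul 315 (Int.ofNat DD))
  rw [cv_mulDD] at hea heb hoa hob
  obtain ⟨u, hu, h⟩ := mulT_sound hδ hr heb hκ h
  obtain ⟨v, hv, h⟩ := mulT_sound hδ hr hob hκ h
  refine ⟨_, _, ?_, ?_, h⟩
  · convert hea.add hu using 1
    unfold Ec; push_cast; ring
  · convert (hoa.add hv).zmul 24 using 1
    unfold Oc; push_cast; ring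

theorem nmin_eq (a b : ℕ) : nmin a b = min a b := by
  unfold nmin
  cases h : Nat.ble a b with
  | true => rw [min_eq_left (Nat.le_of_ble_eq_true h)]
  | false =>
    have : ¬ a ≤ b := by
      intro h2
      rw [Nat.ble_eq_true_of_le h2] at h
      exact absurd h (by decide)
    rw [min_eq_right (by omega)]

/-- consequence of a product inequality -/
theorem prod_le {gg mm : ℝ} {G m c : ℝ} (hc : 0 < c) (hm0 : 0 ≤ mm) (hG : gg ≤ G) (hm : mm ≤ m)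
    (h : c ≤ gg * mm) : 0 < m ∧ c / m ≤ G := by
  have hmm : 0 < mm := by
    rcases hm0.lt_or_eq with h1 | h1
    · exact h1
    · rw [← h1, mul_zero] at h; linarith
  have hgg : 0 < gg := by
    by_contra h1
    have : gg * mm ≤ 0 := mul_nonpos_of_nonpos_of_nonneg (not_lt.mp h1) hm0
    linarith
  refine ⟨by linarith, ?_⟩
  rw [div_le_iff₀ (by linarith)]
  calc c ≤ gg * mm := h
    _ ≤ G * m := mul_le_mul hG hm hm0 (by linarith)

theorem c18_sound {x1 gm gg : ℤ} {mm : ℕ} (h : c18 x1 gm = true) (hgm : gm = gg * mm) {x G m : ℝ}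
    (hx : x ≤ (x1 : ℝ) / 1099511627776) (hG : (gg : ℝ) / 1099511627776 ≤ G) (hm : rv mm ≤ m) :
    (1 ≤ x → 12 * (661 / 5000) / m ≤ G) ∧ (17 / 10 ≤ x → 12 * (1 / 6) / m ≤ G) ∧
    (3 ≤ x → 12 * (19 / 100) / m ≤ G) := by
  simp only [c18, forceN_eq, band_iff, bor_iff, leZ_iff, iadd_eq, imul_eq, Nat.mul_eq] at h
  obtain ⟨h1, h2, h3⟩ := h
  have hgmr : (gm : ℝ) = (gg : ℝ) * (mm : ℝ) := by rw [hgm]; push_cast; ring
  have hD := DD_cast
  have hprod : (gg : ℝ) / 1099511627776 * rv mm = (gm : ℝ) / (1099511627776 * 1099511627776) := by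
    rw [hgmr]; unfold rv; ring
  refine ⟨fun hx1 => ?_, fun hx1 => ?_, fun hx1 => ?_⟩
  · rcases h1 with h1 | h1
    · have h1r : ((x1 + 1 : ℤ) : ℝ) ≤ ((Int.ofNat DD : ℤ) : ℝ) := by exact_mod_cast h1
      simp only [Int.ofNat_eq_natCast] at h1r
      push_cast [hD] at h1r
      linarith
    · have h1r : ((Int.ofNat (7932 * (DD * DD)) : ℤ) : ℝ) ≤ ((5000 * gm : ℤ) : ℝ) := by
        exact_mod_cast h1
      simp only [Int.ofNat_eq_natCast] at h1r
      push_cast [hD] at h1r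
      refine (prod_le (by norm_num) (rv_nonneg mm) hG hm ?_).2
      rw [hprod, le_div_iff₀ (by norm_num)]
      linarith
  · rcases h2 with h1 | h1
    · have h1r : ((10 * x1 + 1 : ℤ) : ℝ) ≤ ((Int.ofNat (17 * DD) : ℤ) : ℝ) := by exact_mod_cast h1
      simp only [Int.ofNat_eq_natCast] at h1r
      push_cast [hD] at h1r
      linarith
    · have h1r : ((Int.ofNat (2 * (DD * DD)) : ℤ) : ℝ) ≤ ((gm : ℤ) : ℝ) := by exact_mod_cast h1
      simp only [Int.ofNat_eq_natCast] at h1r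
      push_cast [hD] at h1r
      refine (prod_le (by norm_num) (rv_nonneg mm) hG hm ?_).2
      rw [hprod, le_div_iff₀ (by norm_num)]
      linarith
  · rcases h3 with h1 | h1
    · have h1r : ((x1 + 1 : ℤ) : ℝ) ≤ ((Int.ofNat (3 * DD) : ℤ) : ℝ) := by exact_mod_cast h1
      simp only [Int.ofNat_eq_natCast] at h1r
      push_cast [hD] at h1r
      linarith
    · have h1r : ((Int.ofNat (228 * (DD * DD)) : ℤ) : ℝ) ≤ ((100 * gm : ℤ) : ℝ) := by
        exact_mod_cast h1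
      simp only [Int.ofNat_eq_natCast] at h1r
      push_cast [hD] at h1r
      refine (prod_le (by norm_num) (rv_nonneg mm) hG hm ?_).2
      rw [hprod, le_div_iff₀ (by norm_num)]
      linarith

theorem TT_le {p t : ℕ} {a : ℕ} (ha : (TT (hc p) 0 ((rv t : ℝ) : ℂ)).re ≤ rv a) {x : ℝ}
    (h0 : 0 ≤ x) (hx : x ≤ rv t) : (TT (hc p) 0 (x : ℂ)).re ≤ rv a :=
  ((TT_re_mono (hc_pos p) (hc_tendsto p) 0 h0 hx).2).trans ha

theorem c11_sound {δ : ℂ} {r : ℕ} {z κ : T} {Z κ' : ℂ} {mm : ℕ} (hδ : ‖δ‖ ≤ rv r)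
    (hz : Enc δ z Z) (hκ : Enc δ κ κ') (h : c11 r z κ mm = true) {m : ℝ} (hm : rv mm ≤ m)
    (h9 : ‖Z‖ ≤ 9 / 2) : (TT (hc 4) 0 (‖Z‖ : ℂ)).re ≤ 31 * ‖κ'‖ ^ 2 * m := by
  simp only [c11, forceN_eq, bor_iff] at h
  rcases h with h | h
  · exfalso
    have h' := Nat.le_of_ble_eq_true h
    have hr : ((Nat.succ (Nat.mul 9 DD) : ℕ) : ℝ) ≤ ((Nat.mul 2 (z.lo r) : ℕ) : ℝ) := by
      exact_mod_cast h'
    simp only [Nat.succ_eq_add_one, Nat.mul_eq] at hr
    push_cast [DD_cast] at hr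
    have := hz.lo hδ
    rw [rv_eq] at this
    linarith
  · obtain ⟨a, ha, h⟩ := hup_sound h
    have h' := Nat.le_of_ble_eq_true h
    have hr : ((Nat.mul a (Nat.mul DD DD) : ℕ) : ℝ) ≤
        ((Nat.mul 31 (Nat.mul (Nat.mul (κ.lo r) (κ.lo r)) mm) : ℕ) : ℝ) := by exact_mod_cast h'
    simp only [Nat.mul_eq] at hr
    push_cast [DD_cast] at hr
    have ht : ‖Z‖ ≤ rv (nmin (z.hi r) 4947802324992) := by
      rw [nmin_eq]
      rcases min_choice (z.hi r) 4947802324992 with h1 | h1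
      · rw [h1]; exact hz.hi hδ
      · rw [h1]; refine h9.trans (le_of_eq ?_); unfold rv; norm_num
    have h1 := TT_le ha (norm_nonneg Z) ht
    have hlo := pow_le_pow_left₀ (rv_nonneg _) (hκ.lo hδ) 2
    have h2 : rv (κ.lo r) ^ 2 * rv mm ≤ ‖κ'‖ ^ 2 * m :=
      mul_le_mul hlo hm (rv_nonneg _) (by positivity)
    have h3 : rv a ≤ 31 * (rv (κ.lo r) ^ 2 * rv mm) := by
      unfold rv
      have e : 31 * (((κ.lo r : ℕ) : ℝ) / 1099511627776) ^ 2 * ((mm : ℝ) / 1099511627776) =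
          31 * ((κ.lo r : ℝ) * (κ.lo r : ℝ) * mm) / (1099511627776 * 1099511627776) /
            1099511627776 := by ring
      rw [← mul_assoc, e]
      apply div_le_div_of_nonneg_right _ (by norm_num)
      rw [le_div_iff₀ (by norm_num)]
      linarith
    nlinarith

theorem c12_sound {δ : ℂ} {r : ℕ} {z w κ : T} {Z κ' : ℂ} {mm : ℕ} (hδ : ‖δ‖ ≤ rv r)
    (hr : rv r ≤ 1) (hz : Enc δ z Z) (hw : Enc δ w (Z ^ 2)) (hκ : Enc δ κ κ')
    (h : c12 r z w κ mm = true) {m : ℝ} (hm : rv mm ≤ m) :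
    53085 + (TT (hc 7) 0 (‖Z‖ : ℂ)).re / (28 * m) ≤ (Ec Z κ' + I * Oc Z κ').re ∧
    53085 + (TT (hc 7) 0 (‖Z‖ : ℂ)).re / (28 * m) ≤ (Ec Z κ' - I * Oc Z κ').re := by
  simp only [c12, band_iff] at h
  obtain ⟨h1, h⟩ := h
  have hmm : 1 ≤ mm := Nat.le_of_ble_eq_true h1
  obtain ⟨e, o, he, ho, h⟩ := eoT_sound hδ hr hz hw hκ h
  simp only [forceN_eq] at h
  obtain ⟨a, ha, h⟩ := hup_sound h
  simp only [forceT_eq, band_iff, leZ_iff, forceN_eq] at h
  obtain ⟨c1, c2⟩ := h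
  have hT := TT_le ha (norm_nonneg Z) (hz.hi hδ)
  have hp := (he.add ho.mulI).dev hδ
  have hq := (he.sub ho.mulI).dev hδ
  obtain ⟨p, hpd⟩ : ∃ p, p = e.add (T.mulI o) := ⟨_, rfl⟩
  obtain ⟨q, hqd⟩ : ∃ q, q = e.sub (T.mulI o) := ⟨_, rfl⟩
  rw [← hpd] at hp c1
  rw [← hqd] at hq c2
  have b1 := (abs_le.mp (re_im_le hp).1).1
  have b2 := (abs_le.mp (re_im_le hq).1).1
  rw [cv_re, rv_eq] at b1 b2
  simp only [Nat.succ_eq_add_one, Nat.mul_eq, Nat.add_eq, ndiv_eq] at c1 c2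
  have hmr : (0 : ℝ) < (mm : ℝ) := by exact_mod_cast hmm
  have hrem : (TT (hc 7) 0 (‖Z‖ : ℂ)).re / (28 * m) ≤ rv (a * DD / (28 * mm) + 1) := by
    have hmp : 0 < rv mm := by unfold rv; positivity
    have hTn : 0 ≤ rv a := rv_nonneg a
    have s1 : (TT (hc 7) 0 (‖Z‖ : ℂ)).re / (28 * m) ≤ rv a / (28 * rv mm) := by
      have h1 : (TT (hc 7) 0 (‖Z‖ : ℂ)).re / (28 * m) ≤ rv a / (28 * m) :=
        div_le_div_of_nonneg_right hT (by linarith)
      refine h1.trans ?_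
      apply div_le_div_of_nonneg_left hTn (by positivity)
      linarith
    refine s1.trans ?_
    have h3 : a * DD < (28 * mm) * (a * DD / (28 * mm) + 1) :=
      Nat.lt_mul_div_succ _ (by omega)
    have h4 : ((a * DD : ℕ) : ℝ) ≤ (((28 * mm) * (a * DD / (28 * mm) + 1) : ℕ) : ℝ) := by
      exact_mod_cast h3.le
    rw [Nat.cast_mul (28 * mm)] at h4
    have e2 : rv (a * DD / (28 * mm) + 1) = ((a * DD / (28 * mm) + 1 : ℕ) : ℝ) / 1099511627776 := rfl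
    rw [e2]
    generalize ((a * DD / (28 * mm) + 1 : ℕ) : ℝ) = M at *
    push_cast [DD_cast] at h4
    unfold rv
    rw [div_le_div_iff₀ (by positivity) (by norm_num)]
    have : M * (28 * ((mm : ℝ) / 1099511627776)) = 28 * mm * M / 1099511627776 := by ring
    rw [this, le_div_iff₀ (by norm_num)]
    have e3 : (a : ℝ) / 1099511627776 * 1099511627776 * 1099511627776 = a * 1099511627776 := by
      field_simp
    linarith
  have c1r : ((Int.ofNat (53085 * DD + (a * DD / (28 * mm) + 1 + p.dev r)) : ℤ) : ℝ) ≤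
      ((p.ax : ℤ) : ℝ) := by exact_mod_cast c1
  have c2r : ((Int.ofNat (53085 * DD + (a * DD / (28 * mm) + 1 + q.dev r)) : ℤ) : ℝ) ≤
      ((q.ax : ℤ) : ℝ) := by exact_mod_cast c2
  simp only [Int.ofNat_eq_natCast, Int.cast_natCast] at c1r c2r
  rw [Nat.cast_add, Nat.cast_add, Nat.cast_mul, DD_cast] at c1r c2r
  rw [rv_eq] at hrem
  constructor
  · rw [Nat.cast_ofNat] at c1r
    have : (53085 * (1099511627776 : ℝ) + (((a * DD / (28 * mm) + 1 : ℕ) : ℝ) + (p.dev r : ℝ))) /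
        1099511627776 ≤ (p.ax : ℝ) / 1099511627776 := div_le_div_of_nonneg_right c1r (by norm_num)
    have e : (53085 * (1099511627776 : ℝ) + (((a * DD / (28 * mm) + 1 : ℕ) : ℝ) + (p.dev r : ℝ))) /
        1099511627776 = 53085 + (((a * DD / (28 * mm) + 1 : ℕ) : ℝ) / 1099511627776 +
        (p.dev r : ℝ) / 1099511627776) := by ring
    rw [e] at this
    linarith
  · rw [Nat.cast_ofNat] at c2r
    have : (53085 * (1099511627776 : ℝ) + (((a * DD / (28 * mm) + 1 : ℕ) : ℝ) + (q.dev r : ℝ))) /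
        1099511627776 ≤ (q.ax : ℝ) / 1099511627776 := div_le_div_of_nonneg_right c2r (by norm_num)
    have e : (53085 * (1099511627776 : ℝ) + (((a * DD / (28 * mm) + 1 : ℕ) : ℝ) + (q.dev r : ℝ))) /
        1099511627776 = 53085 + (((a * DD / (28 * mm) + 1 : ℕ) : ℝ) / 1099511627776 +
        (q.dev r : ℝ) / 1099511627776) := by ring
    rw [e] at this
    linarith

end BN
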