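import Pool.Agent.Helper76.BN.ChkC

/-!
Block N of MP_3942cb_co: soundness of the check of N11, N12, N18.
-/

set_option linter.unusedSimpArgs false

namespace BN

open ST3 Complex

theorem rot_aux {Z : ℂ} (hZ : Z ≠ 0) (hP : Ph 0 (Z ^ 2) ≠ 0) (s : ℝ) (hs : s = 1 ∨ s = -1)
    {m : ℝ} (hm : 0 < m) (hG : ‖GG 1 Z‖ = ‖Z‖ / 6 * m)
    (h : 53085 + (TT (hc 7) 0 (‖Z‖ : ℂ)).re / (28 * m) ≤
      (Ec Z (kap Z) - I * (s : ℂ) * Oc Z (kap Z)).re) :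
    9 / 500 ≤ ((GG 0 Z - GG 0 (Z * exp (((s / 4 : ℝ) : ℂ) * I))) / GG 1 Z).re := by
  have hrot := GG0_rot Z (s / 4)
  have hs2 : (s : ℂ) ^ 2 = 1 := by
    rcases hs with h | h <;> rw [h] <;> norm_num
  have hG0 := GG1_ne hZ hP
  have hsum := sum_rot hZ hG0 (s : ℂ) hs2
  have hcs : ((s / 4 : ℝ) : ℂ) = (s : ℂ) / 4 := by push_cast; ring
  rw [hcs] at hrot
  rw [hcs]
  set S := ∑ j ∈ Finset.Icc 1 6, (I * ((s : ℂ) / 4)) ^ j / (j.factorial : ℂ) * GG j Z with hS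
  set D := GG 0 Z - GG 0 (Z * exp ((s : ℂ) / 4 * I)) with hD
  set E := Ec Z (kap Z) - I * (s : ℂ) * Oc Z (kap Z) with hE
  have e : D / GG 1 Z = (D + S) / GG 1 Z + E / 2949120 := by
    have : S = -E * GG 1 Z / 2949120 := by
      rw [← hsum]; ring
    rw [this]
    field_simp
    ring
  have hn : ‖(D + S) / GG 1 Z‖ ≤ (TT (hc 7) 0 (‖Z‖ : ℂ)).re / (82575360 * m) := by
    have hZn : 0 < ‖Z‖ := norm_pos_iff.mpr hZ
    rw [norm_div, hG, div_le_iff₀ (by positivity)]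
    refine hrot.trans (le_of_eq ?_)
    rw [GG_real]
    have h4 : |s / 4| = 1 / 4 := by
      rcases hs with h | h <;> rw [h] <;> norm_num [abs_div]
    rw [h4]
    field_simp
    norm_num
    ring
  have hre := (abs_le.mp ((Complex.abs_re_le_norm ((D + S) / GG 1 Z)).trans hn)).1
  rw [e, Complex.add_re]
  have hdiv : (E / 2949120).re = E.re / 2949120 := by
    rw [show (2949120 : ℂ) = ((2949120 : ℝ) : ℂ) by norm_num, Complex.div_ofReal_re]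
  rw [hdiv]
  have h3 : (TT (hc 7) 0 (‖Z‖ : ℂ)).re / (82575360 * m) =
      (TT (hc 7) 0 (‖Z‖ : ℂ)).re / (28 * m) / 2949120 := by
    rw [div_div]; congr 1; ring
  rw [h3] at hre
  have h5 : (53085 + (TT (hc 7) 0 (‖Z‖ : ℂ)).re / (28 * m)) / 2949120 ≤ E.re / 2949120 :=
    div_le_div_of_nonneg_right h (by norm_num)
  rw [add_div] at h5
  have : (9 : ℝ) / 500 ≤ 53085 / 2949120 := by norm_num
  linarith

theorem coreC_sound {δ : ℂ} {r g : ℕ} {z w y s : T} {Z : ℂ} (hδ : ‖δ‖ ≤ rv r)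
    (hr : rv r ≤ 1) (hz : Enc δ z Z) (hw : Enc δ w (Z ^ 2)) (hy : Enc δ y (3 * yy 0 (Z ^ 2)))
    (hs : Enc δ s (Ph 0 (Z ^ 2))) (hg : |Z.re - (z.ax : ℝ) / 1099511627776| ≤ rv g)
    (hZ : Z ≠ 0) (hP : Ph 0 (Z ^ 2) ≠ 0) (h : coreC r g z w y s = true) : FC Z := by
  simp only [coreC, forceT_eq, forceN_eq, forceI_eq, band_iff] at h
  have hz2 := hz.sdiv hδ hr (k := 2) (by norm_num)
  have hκ := (hz2.add hy).addc (Int.ofNat DD)
  have eκ : Z / ((2 : ℕ) : ℂ) + 3 * yy 0 (Z ^ 2) + cv (Int.ofNat DD) 0 = kap Z := by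
    rw [cv_DD, kap_yy hZ hP]; push_cast; ring
  rw [eκ] at hκ
  obtain ⟨κ, hκd⟩ : ∃ κ, κ = ((z.sdiv 2).add y).addc (Int.ofNat DD) := ⟨_, rfl⟩
  rw [← hκd] at hκ h
  have hv := (hy.sub hz2).addc (imul 3 (Int.ofNat DD))
  obtain ⟨v, hvd⟩ : ∃ v, v = (y.sub (z.sdiv 2)).addc (imul 3 (Int.ofNat DD)) := ⟨_, rfl⟩
  rw [← hvd] at hv h
  have ev : 3 * yy 0 (Z ^ 2) - Z / ((2 : ℕ) : ℂ) + cv (imul 3 (Int.ofNat DD)) 0 = VV Z := by
    rw [cv_mulDD, VV_yy hZ hP]; push_cast; ring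
  rw [ev] at hv
  obtain ⟨mm, hmmd⟩ : ∃ mm, mm = Nat.div (Nat.mul (exLo (isub z.ax (Int.ofNat g))) (s.lo r)) DD :=
    ⟨_, rfl⟩
  rw [← hmmd] at h
  obtain ⟨h18, h11, h12⟩ := h
  have hmpos : 0 < Real.exp (Z.re / 2) * ‖Ph 0 (Z ^ 2)‖ :=
    mul_pos (Real.exp_pos _) (norm_pos_iff.mpr hP)
  have hG := norm_GG1 hZ
  obtain ⟨m, hmd⟩ : ∃ m, m = Real.exp (Z.re / 2) * ‖Ph 0 (Z ^ 2)‖ := ⟨_, rfl⟩
  rw [← hmd] at hmpos hG
  have hZn : 0 < ‖Z‖ := norm_pos_iff.mpr hZ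
  have hG0 := GG1_ne hZ hP
  obtain ⟨g1, g2⟩ := abs_le.mp hg
  rw [rv_eq] at g1 g2
  have hmm : rv mm ≤ m := by
    have h1 : rv mm ≤ rv (exLo (isub z.ax (Int.ofNat g))) * rv (s.lo r) := by
      rw [hmmd]
      simp only [ndiv_eq, Nat.mul_eq]
      have : ((exLo (isub z.ax (Int.ofNat g)) * s.lo r / DD : ℕ) : ℝ) ≤
        ((exLo (isub z.ax (Int.ofNat g)) * s.lo r : ℕ) : ℝ) / ((DD : ℕ) : ℝ) := Nat.cast_div_le
      rw [DD_cast] at this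
      unfold rv
      refine (div_le_div_of_nonneg_right this (by norm_num)).trans (le_of_eq ?_)
      push_cast; ring
    refine h1.trans ?_
    rw [hmd]
    refine mul_le_mul ?_ (hs.lo hδ) (rv_nonneg _) (Real.exp_pos _).le
    refine (exLo_sound _).trans (Real.exp_le_exp.mpr ?_)
    rw [isub_eq]
    have e : ((z.ax - Int.ofNat g : ℤ) : ℝ) = (z.ax : ℝ) - (g : ℝ) := by simp
    rw [e]
    linarith
  have hx1 : Z.re ≤ ((iadd z.ax (Int.ofNat g) : ℤ) : ℝ) / 1099511627776 := by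
    rw [iadd_eq]
    have e : ((z.ax + Int.ofNat g : ℤ) : ℝ) = (z.ax : ℝ) + (g : ℝ) := by simp
    rw [e]
    linarith
  have a5 := hv.dev hδ
  have b5 := (abs_le.mp (re_im_le a5).1).1
  rw [rv_eq, cv_re] at b5
  have hgg : ((isub v.ax (Int.ofNat (Nat.add (v.dev r) (Nat.add DD (Nat.succ (Nat.div DD 25))))) :
      ℤ) : ℝ) / 1099511627776 ≤ (VV Z).re - 1 - 1 / 25 := by
    rw [isub_eq]
    simp only [Nat.add_eq, Nat.succ_eq_add_one, ndiv_eq]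
    have h3 : DD < 25 * (DD / 25 + 1) := Nat.lt_mul_div_succ _ (by norm_num)
    obtain ⟨n, hn⟩ : ∃ n, n = DD / 25 + 1 := ⟨_, rfl⟩
    rw [← hn] at h3 ⊢
    have e : ((v.ax - Int.ofNat (v.dev r + (DD + n)) : ℤ) : ℝ) =
        (v.ax : ℝ) - ((v.dev r : ℝ) + ((DD : ℝ) + (n : ℝ))) := by
      simp
    rw [e, DD_cast]
    have h4 : ((DD : ℕ) : ℝ) ≤ ((25 * n : ℕ) : ℝ) := by exact_mod_cast h3.le
    rw [Nat.cast_mul, DD_cast] at h4
    push_cast at h4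
    linarith
  have hgm : imul (isub v.ax (Int.ofNat (Nat.add (v.dev r) (Nat.add DD (Nat.succ
      (Nat.div DD 25)))))) (Int.ofNat mm) = isub v.ax (Int.ofNat (Nat.add (v.dev r)
      (Nat.add DD (Nat.succ (Nat.div DD 25))))) * (mm : ℤ) := by
    rw [imul_eq]; rfl
  obtain ⟨f1, f2, f3⟩ := c18_sound h18 hgm hx1 hgg hmm
  have f4 := c11_sound hδ hz hκ h11 hmm
  obtain ⟨f5, f6⟩ := c12_sound hδ hr hz hw hκ h12 hmm
  have hq : (GG 0 Z / GG 1 Z).re = ((VV Z).re - 1) / 2 := by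
    rw [GG0_div hG0 hZ]
    have : ((VV Z - 1) / 2).re = (VV Z - 1).re / 2 := by simp
    rw [this]; simp
  have hk : ∀ c : ℝ, c * ‖Z‖ / ‖GG 1 Z‖ = 12 * c / m / 2 := by
    intro c
    rw [hG]; field_simp; ring
  refine ⟨fun h9 => ?_, ⟨?_, ?_⟩, fun hx => ?_, fun hx => ?_, fun hx => ?_⟩
  · have := f4 h9
    have hk2 : GG 2 Z = kap Z * GG 1 Z := by unfold kap; field_simp
    rw [hk2, norm_mul, GG_real, hG]
    calc ‖Z‖ / 6 * (TT (hc 4) 0 (‖Z‖ : ℂ)).re * (‖Z‖ / 6 * m) ≤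
          ‖Z‖ / 6 * (31 * ‖kap Z‖ ^ 2 * m) * (‖Z‖ / 6 * m) := by gcongr
      _ = _ := by ring
  · have := rot_aux hZ hP 1 (Or.inl rfl) hmpos hG (by
      have e : Ec Z (kap Z) - I * ((1 : ℝ) : ℂ) * Oc Z (kap Z) =
        Ec Z (kap Z) - I * Oc Z (kap Z) := by push_cast; ring
      rw [e]; exact f6)
    simpa using this
  · have := rot_aux hZ hP (-1) (Or.inr rfl) hmpos hG (by
      have e : Ec Z (kap Z) - I * ((-1 : ℝ) : ℂ) * Oc Z (kap Z) =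
        Ec Z (kap Z) + I * Oc Z (kap Z) := by push_cast; ring
      rw [e]; exact f5)
    have e : (((-1 / 4 : ℝ) : ℝ) : ℂ) * I = -(1 / 4 : ℝ) * I := by push_cast; ring
    rw [e] at this
    exact this
  · rw [hk, hq]; have := f1 hx; linarith
  · rw [hk, hq]; have := f2 hx; linarith
  · rw [hk, hq]; have := f3 hx; linarith

theorem chkC_sound {N K : ℕ} (i j : ℤ) (k : ℕ) (h : chkC N K i j k = true) :
    ∀ z ∈ QL, InSq i j k z → FC z := by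
  intro Z hZ hs
  obtain ⟨z, r, g, δ, hδ, hr, hz, hg, h⟩ := center_sound h hs
  obtain ⟨w, hw, h⟩ := sqT_sound hδ hr hz h
  obtain ⟨hP, y, hy, h⟩ := cf_sound hδ hr hw h
  rw [forceT_eq] at h
  obtain ⟨s, hs', h⟩ := ph_sound hδ hr hw h
  exact coreC_sound hδ hr hz hw (by simpa using hy.zmul 3) hs' hg hZ.2.2.2 hP h

end BN
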