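import Pool.Agent.Helper76.BN.ChkA

/-!
Block N of MP_3942cb_co: the check of N13.
-/

set_option linter.unusedSimpArgs false

namespace BN

open ST3 Complex

/-- the square does not meet `P`, real part at most 8 -/
noncomputable def outE (i j : ℤ) (k : ℕ) : Bool := bor (outQ i j k) (leZ (iadd i 1) j)

/-- core of the check of N13 -/
noncomputable def coreE (r : ℕ) (z y : T) : Bool :=
  forceT (T.addc (T.add (T.sdiv z 2) y) (Int.ofNat DD)) fun κ =>
  bor (forceT (T.addc κ (imul (-1) (Int.ofNat DD))) fun κ1 =>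
      Nat.ble (Nat.mul 10 (κ1.hi r)) (Nat.mul 3 DD))
    (leZ (Int.ofNat (Nat.succ (Nat.mul 14318 (Nat.add (Nat.mul (κ.hi r) (z.dev r))
      (Nat.mul (κ.dev r) (nu z.ax z.ay))))))
      (imul 1000 (iadd (imul 6 (iadd (imul κ.ax z.ax) (imul κ.ay z.ay)))
        (imul 13 (isub (imul κ.ay z.ax) (imul κ.ax z.ay))))))

/-- check of N13 -/
noncomputable def chkE (N : ℕ) (i j : ℤ) (k : ℕ) : Bool :=
  center i j k fun z r _ => sqT r z fun w =>
    cf0 r w N (cfT r w (fun y => forceT (T.zmul 3 y) fun y => coreE r z y) N)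

/-- the region `P`, real part at most 8 -/
def PL : Set ℂ := {z | z ∈ P ∧ z.re ≤ 8}

theorem P_QL {z : ℂ} (hz : z ∈ P) : z ∈ Q := by
  obtain ⟨h1, h2, h3, h4, h5, h6, h7⟩ := hz
  refine ⟨h3.le, ?_, ?_, ?_, ?_⟩ <;> rw [abs_of_neg h1] <;> linarith

theorem outE_sound (i j : ℤ) (k : ℕ) (h : outE i j k = true) : ∀ z ∈ PL, ¬ InSq i j k z := by
  intro z hz hs
  simp only [outE, bor_iff, leZ_iff, iadd_eq] at h
  rcases h with h | h
  · exact outQ_sound i j k h z (P_QL hz.1) hz.1.1.le hz.2 hs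
  · obtain ⟨a1, a2, a3, a4⟩ := hs
    have hp : (0 : ℝ) < 2 ^ k := by positivity
    have h' : ((i + 1 : ℤ) : ℝ) ≤ (j : ℝ) := by exact_mod_cast h
    push_cast at h'
    have : ((i : ℝ) + 1) / 2 ^ k ≤ (j : ℝ) / 2 ^ k := div_le_div_of_nonneg_right h' hp.le
    have := hz.1.2.1
    linarith

theorem pos_of_conj {K Z : ℂ} (hZ : Z ≠ 0)
    (h : 0 < ((6 - 13 * I) * (K * (starRingEnd ℂ) Z)).re) : 0 < ((6 - 13 * I) * (K / Z)).re := by
  have hn : 0 < Complex.normSq Z := Complex.normSq_pos.mpr hZ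
  have e : (6 - 13 * I) * (K / Z) =
      ((6 - 13 * I) * (K * (starRingEnd ℂ) Z)) / ((Complex.normSq Z : ℝ) : ℂ) := by
    have hc : (starRingEnd ℂ) Z ≠ 0 := by simpa using hZ
    rw [Complex.normSq_eq_conj_mul_self]
    field_simp
  rw [e, Complex.div_ofReal_re]
  exact div_pos h hn

theorem near_pos {K Z : ℂ} (hK : ‖K - 1‖ ≤ 3 / 10) (h1 : Z.im < 0) (h2 : Z.im < Z.re) :
    0 < ((6 - 13 * I) * (K * (starRingEnd ℂ) Z)).re := by
  have e : (6 - 13 * I) * (K * (starRingEnd ℂ) Z) = (6 - 13 * I) * (starRingEnd ℂ) Z +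
      (6 - 13 * I) * ((K - 1) * (starRingEnd ℂ) Z) := by ring
  rw [e, Complex.add_re]
  have e1 : ((6 - 13 * I) * (starRingEnd ℂ) Z).re = 6 * Z.re - 13 * Z.im := by
    simp [Complex.mul_re]
  have hsq : ‖(6 - 13 * I : ℂ)‖ ^ 2 = 205 := by
    rw [Complex.sq_norm, Complex.normSq_apply]; simp; norm_num
  have e2 := (abs_le.mp (Complex.abs_re_le_norm ((6 - 13 * I) * ((K - 1) *
    (starRingEnd ℂ) Z)))).1
  rw [norm_mul, norm_mul, Complex.norm_conj] at e2
  rw [e1]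
  have hpos : 0 < 6 * Z.re - 13 * Z.im := by linarith
  have hb : ‖(6 - 13 * I : ℂ)‖ * (‖K - 1‖ * ‖Z‖) < 6 * Z.re - 13 * Z.im := by
    rw [← sq_lt_sq₀ (by positivity) hpos.le, mul_pow, mul_pow, hsq, Complex.sq_norm Z,
      Complex.normSq_apply]
    have hK2 : ‖K - 1‖ ^ 2 ≤ 9 / 100 := by
      have := pow_le_pow_left₀ (norm_nonneg _) hK 2
      linarith
    have hn : 0 ≤ Z.re * Z.re + Z.im * Z.im := add_nonneg (mul_self_nonneg _) (mul_self_nonneg _)
    have h3 : 205 * (‖K - 1‖ ^ 2 * (Z.re * Z.re + Z.im * Z.im)) ≤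
        205 * (9 / 100 * (Z.re * Z.re + Z.im * Z.im)) := by gcongr
    refine lt_of_le_of_lt h3 ?_
    obtain ⟨u, hu⟩ : ∃ u, u = Z.re - Z.im := ⟨_, rfl⟩
    obtain ⟨v, hv⟩ : ∃ v, v = -Z.im := ⟨_, rfl⟩
    have hu0 : 0 < u := by linarith
    have hv0 : 0 < v := by linarith
    have er : Z.re = u - v := by linarith
    have ei : Z.im = -v := by linarith
    rw [er, ei]
    nlinarith [mul_pos hu0 hv0, mul_pos hu0 hu0, mul_pos hv0 hv0]
  linarith

theorem coreE_sound {δ : ℂ} {r : ℕ} {z y : T} {Z : ℂ} (hδ : ‖δ‖ ≤ rv r)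
    (hr : rv r ≤ 1) (hz : Enc δ z Z) (hy : Enc δ y (3 * yy 0 (Z ^ 2)))
    (hZ : Z ∈ PL) (hP : Ph 0 (Z ^ 2) ≠ 0) (h : coreE r z y = true) :
    0 < ((6 - 13 * I) * (kap Z / Z)).re := by
  have hZ0 : Z ≠ 0 := by
    intro h0; have := hZ.1.1; rw [h0] at this; simp at this
  simp only [coreE, forceT_eq, bor_iff] at h
  have hz2 := hz.sdiv hδ hr (k := 2) (by norm_num)
  have hκ := (hz2.add hy).addc (Int.ofNat DD)
  have eκ : Z / ((2 : ℕ) : ℂ) + 3 * yy 0 (Z ^ 2) + cv (Int.ofNat DD) 0 = kap Z := by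
    rw [cv_DD, kap_yy hZ0 hP]; push_cast; ring
  rw [eκ] at hκ
  obtain ⟨κ, hκd⟩ : ∃ κ, κ = ((z.sdiv 2).add y).addc (Int.ofNat DD) := ⟨_, rfl⟩
  rw [← hκd] at hκ h
  apply pos_of_conj hZ0
  rcases h with h | h
  · apply near_pos _ hZ.1.1 hZ.1.2.1
    have h1 := (hκ.addc (imul (-1) (Int.ofNat DD))).hi hδ
    have e : kap Z + cv (imul (-1) (Int.ofNat DD)) 0 = kap Z - 1 := by
      rw [imul_eq, show ((-1 : ℤ) * Int.ofNat DD) = (-1) * (DD : ℤ) from rfl, cv_int]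
      push_cast; ring
    rw [e] at h1
    have h2 : ((Nat.mul 10 ((κ.addc (imul (-1) (Int.ofNat DD))).hi r) : ℕ) : ℝ) ≤
        ((Nat.mul 3 DD : ℕ) : ℝ) := by exact_mod_cast Nat.le_of_ble_eq_true h
    simp only [Nat.mul_eq] at h2
    push_cast [DD_cast] at h2
    rw [rv_eq] at h1
    linarith
  · have h' := leZ_iff.mp h
    simp only [iadd_eq, isub_eq, imul_eq, Nat.succ_eq_add_one, Nat.mul_eq, Nat.add_eq] at h'
    have hrr : ((Int.ofNat (14318 * (κ.hi r * z.dev r + κ.dev r * nu z.ax z.ay) + 1) : ℤ) : ℝ) ≤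
        ((1000 * (6 * (κ.ax * z.ax + κ.ay * z.ay) + 13 * (κ.ay * z.ax - κ.ax * z.ay)) : ℤ) : ℝ) := by
      exact_mod_cast h'
    simp only [Int.ofNat_eq_natCast] at hrr
    push_cast at hrr
    have hdz := hz.dev hδ
    have hdκ := hκ.dev hδ
    have hhκ := hκ.hi hδ
    have hcz := nu_spec z.ax z.ay
    set c := cv z.ax z.ay with hc
    set κc := cv κ.ax κ.ay with hκc
    have e : (6 - 13 * I) * (kap Z * (starRingEnd ℂ) Z) = (6 - 13 * I) * (κc * (starRingEnd ℂ) c) +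
        (6 - 13 * I) * (kap Z * (starRingEnd ℂ) (Z - c) + (kap Z - κc) * (starRingEnd ℂ) c) := by
      rw [map_sub]; ring
    rw [e, Complex.add_re]
    have e2 := (abs_le.mp (Complex.abs_re_le_norm ((6 - 13 * I) * (kap Z * (starRingEnd ℂ) (Z - c) +
      (kap Z - κc) * (starRingEnd ℂ) c)))).1
    have hb : ‖(6 - 13 * I) * (kap Z * (starRingEnd ℂ) (Z - c) +
        (kap Z - κc) * (starRingEnd ℂ) c)‖ ≤ 14318 / 1000 * (rv (κ.hi r) * rv (z.dev r) +
        rv (κ.dev r) * rv (nu z.ax z.ay)) := by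
      rw [norm_mul]
      have hn : ‖(6 - 13 * I : ℂ)‖ ≤ 14318 / 1000 := by
        rw [← sq_le_sq₀ (norm_nonneg _) (by norm_num), Complex.sq_norm, Complex.normSq_apply]
        simp; norm_num
      have hm : ‖kap Z * (starRingEnd ℂ) (Z - c) + (kap Z - κc) * (starRingEnd ℂ) c‖ ≤
          rv (κ.hi r) * rv (z.dev r) + rv (κ.dev r) * rv (nu z.ax z.ay) := by
        refine (norm_add_le _ _).trans (add_le_add ?_ ?_)
        · rw [norm_mul, Complex.norm_conj]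
          exact mul_le_mul hhκ hdz (norm_nonneg _) (rv_nonneg _)
        · rw [norm_mul, Complex.norm_conj]
          exact mul_le_mul hdκ hcz (norm_nonneg _) (rv_nonneg _)
      exact mul_le_mul hn hm (norm_nonneg _) (by norm_num)
    have e3 : ((6 - 13 * I) * (κc * (starRingEnd ℂ) c)).re =
        (6 * ((κ.ax : ℝ) * z.ax + κ.ay * z.ay) + 13 * ((κ.ay : ℝ) * z.ax - κ.ax * z.ay)) /
          (1099511627776 * 1099511627776) := by
      rw [hκc, hc]
      simp [cv, Complex.mul_re, Complex.mul_im]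
      ring
    have e4 : rv (κ.hi r) * rv (z.dev r) + rv (κ.dev r) * rv (nu z.ax z.ay) =
        ((κ.hi r : ℝ) * z.dev r + κ.dev r * nu z.ax z.ay) / (1099511627776 * 1099511627776) := by
      unfold rv; ring
    rw [e4] at hb
    rw [e3]
    have h6 : 14318 / 1000 * (((κ.hi r : ℝ) * z.dev r + κ.dev r * nu z.ax z.ay) /
        (1099511627776 * 1099511627776)) < (6 * ((κ.ax : ℝ) * z.ax + κ.ay * z.ay) +
        13 * ((κ.ay : ℝ) * z.ax - κ.ax * z.ay)) / (1099511627776 * 1099511627776) := by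
      rw [← mul_div_assoc]
      apply div_lt_div_of_pos_right _ (by norm_num)
      linarith
    linarith

theorem chkE_sound {N : ℕ} (i j : ℤ) (k : ℕ) (h : chkE N i j k = true) :
    ∀ z ∈ PL, InSq i j k z → 0 < ((6 - 13 * I) * (kap z / z)).re := by
  intro Z hZ hs
  obtain ⟨z, r, g, δ, hδ, hr, hz, _, h⟩ := center_sound h hs
  obtain ⟨w, hw, h⟩ := sqT_sound hδ hr hz h
  obtain ⟨hP, y, hy, h⟩ := cf_sound hδ hr hw h
  rw [forceT_eq] at h
  exact coreE_sound hδ hr hz (by simpa using hy.zmul 3) hZ hP h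

end BN
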