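import Pool.Agent.Helper76.BN.Exp
import Pool.Agent.Helper76.BN.ChkE

/-!
Block N of MP_3942cb_co: the check of N14 on the boundary of `P`.
-/

set_option linter.unusedSimpArgs false

namespace BN

open ST3 Complex

/-- binary tree -/
noncomputable def verify1 (chk : ℤ → ℕ → Bool) (n : ℕ) : ℤ → ℕ → Bool :=
  @Nat.rec (fun _ => ℤ → ℕ → Bool) (fun i k => chk i k)
    (fun _ ih i k => bor (chk i k)
      (forceI (imul 2 i) fun i => forceN (Nat.succ k) fun k => forceI (iadd i 1) fun i1 =>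
       band (ih i k) (ih i1 k))) n

/-- check of N14 on a disc -/
noncomputable def chkX (K r : ℕ) (z : T) : Bool :=
  sqT r z fun w => ph0 r w K (phT r w (fun s => forceT (T.sdiv z 2) fun z2 =>
    expT r z2 fun e => mulT r e s fun g => mulT r z g fun x => forceN (x.dev r) fun d =>
    band (leZ (iadd x.ax (Int.ofNat (Nat.succ d))) 0)
      (leZ (iadd (imul 1000 (isub (imul 16 x.ax) (imul 15 x.ay)))
        (Int.ofNat (Nat.succ (Nat.mul 21932 d)))) 0)) K)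

/-- check of N14 on the diagonal -/
noncomputable def chkY (K r : ℕ) (z : T) : Bool :=
  sqT r z fun w => ph0 r w K (phT r w (fun s => forceT (T.sdiv z 2) fun z2 =>
    expT r z2 fun e => mulT r e s fun g => mulT r ⟨Int.ofNat DD, Int.ofNat DD, 0, 0, 0⟩ g fun x =>
    forceN (x.dev r) fun d =>
    band (leZ (Int.ofNat (Nat.succ d)) x.ax)
      (leZ (Int.ofNat (Nat.succ (Nat.mul 21932 d)))
        (imul 1000 (isub (imul 16 x.ax) (imul 15 x.ay))))) K)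

/-- line `im = - (p + q re)/m` -/
noncomputable def chkL (K : ℕ) (p q : ℤ) (m dd : ℕ) (i : ℤ) (k : ℕ) : Bool :=
  band (Nat.ble k 39) (forceN (Nat.div 549755813888 (Nat.pow 2 k)) fun h =>
  forceI (imul (iadd (imul 2 i) 1) (Int.ofNat h)) fun x =>
  forceI (isub 0 (fd (iadd (imul p (Int.ofNat DD)) (imul q x)) m)) fun y =>
  forceN (Nat.add (Nat.div (Nat.mul h dd) 10000) 3) fun r => chkX K r ⟨x, y, Int.ofNat DD, 0, 0⟩)

/-- vertical line `re = -3/8` -/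
noncomputable def chkV (K : ℕ) (i : ℤ) (k : ℕ) : Bool :=
  band (Nat.ble k 39) (forceN (Nat.div 549755813888 (Nat.pow 2 k)) fun h =>
  forceI (imul (iadd (imul 2 i) 1) (Int.ofNat h)) fun y =>
  chkX K h ⟨-412316860416, y, Int.ofNat DD, 0, 0⟩)

/-- diagonal -/
noncomputable def chkD (K : ℕ) (i : ℤ) (k : ℕ) : Bool :=
  band (Nat.ble k 39) (forceN (Nat.div 549755813888 (Nat.pow 2 k)) fun h =>
  forceI (imul (iadd (imul 2 i) 1) (Int.ofNat h)) fun y =>
  forceN (Nat.add (Nat.div (Nat.mul h 14143) 10000) 3) fun r =>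
  chkY K r ⟨y, y, Int.ofNat DD, 0, 0⟩)

/-- the statement of N14 -/
def F14 (z : ℂ) : Prop := (GG 1 z).re < 0 ∧ ((-15 + 16 * I) * GG 1 z).im < 0

theorem verify1_sound {chk : ℤ → ℕ → Bool} {Φ : ℝ → Prop}
    (hchk : ∀ i k, chk i k = true → ∀ t : ℝ, (i : ℝ) / 2 ^ k ≤ t → t ≤ ((i : ℝ) + 1) / 2 ^ k → Φ t)
    (n : ℕ) : ∀ i k, verify1 chk n i k = true → ∀ t : ℝ, (i : ℝ) / 2 ^ k ≤ t →
      t ≤ ((i : ℝ) + 1) / 2 ^ k → Φ t := by
  induction n with
  | zero => exact hchk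
  | succ n ih =>
    intro i k h t h1 h2
    change bor (chk i k)
      (forceI (imul 2 i) fun i => forceN (Nat.succ k) fun k => forceI (iadd i 1) fun i1 =>
       band (verify1 chk n i k) (verify1 chk n i1 k)) = true at h
    simp only [forceI_eq, forceN_eq, bor_iff, band_iff, imul_eq, iadd_eq,
      Nat.succ_eq_add_one] at h
    rcases h with h | ⟨h3, h4⟩
    · exact hchk i k h t h1 h2
    · rcases half_le i k t h1 h2 with ⟨b1, b2⟩ | ⟨b1, b2⟩
      · exact ih _ _ h3 t b1 b2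
      · exact ih _ _ h4 t b1 b2

theorem Enc_var {Z : ℂ} (x y : ℤ) : Enc (Z - cv x y) ⟨x, y, Int.ofNat DD, 0, 0⟩ Z := by
  unfold Enc
  simp only
  rw [show cv (Int.ofNat DD) 0 = 1 by simpa using cv_int 1]
  have : Z - (cv x y + 1 * (Z - cv x y)) = 0 := by ring
  rw [this, norm_zero]
  exact rv_nonneg _

theorem chkX_sound {K r : ℕ} {x y : ℤ} {Z : ℂ} (hδ : ‖Z - cv x y‖ ≤ rv r) (hr : rv r ≤ 1)
    (hZ : Z ≠ 0) (h : chkX K r ⟨x, y, Int.ofNat DD, 0, 0⟩ = true) : F14 Z := by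
  have hz := Enc_var (Z := Z) x y
  obtain ⟨w, hw, h⟩ := sqT_sound hδ hr hz h
  obtain ⟨s, hs, h⟩ := ph_sound hδ hr hw h
  rw [forceT_eq] at h
  obtain ⟨e, he, h⟩ := expT_sound hδ hr (hz.sdiv hδ hr (k := 2) (by norm_num)) h
  obtain ⟨g, hg, h⟩ := mulT_sound hδ hr he hs h
  obtain ⟨u, hu, h⟩ := mulT_sound hδ hr hz hg h
  have eG : Z * (exp (Z / ((2 : ℕ) : ℂ)) * Ph 0 (Z ^ 2)) = 6 * GG 1 Z := by
    rw [GG1_Ph hZ]; push_cast; ring
  rw [eG] at hu
  simp only [forceN_eq, band_iff, leZ_iff, iadd_eq, isub_eq, imul_eq, Nat.succ_eq_add_one,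
    Nat.mul_eq] at h
  obtain ⟨h1, h2⟩ := h
  have hd := hu.dev hδ
  have h1r : ((u.ax + Int.ofNat (u.dev r + 1) : ℤ) : ℝ) ≤ ((0 : ℤ) : ℝ) := by exact_mod_cast h1
  have h2r : ((1000 * (16 * u.ax - 15 * u.ay) + Int.ofNat (21932 * u.dev r + 1) : ℤ) : ℝ) ≤
      ((0 : ℤ) : ℝ) := by exact_mod_cast h2
  simp only [Int.ofNat_eq_natCast] at h1r h2r
  push_cast at h1r h2r
  have b1 := (abs_le.mp (re_im_le hd).1).2
  have b2 := lin_le hd (p := -16) (q := 15) (m := 21932 / 1000) (by norm_num) (by norm_num)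
  rw [cv_re, rv_eq] at b1 b2
  rw [cv_im] at b2
  have c1 : (6 * GG 1 Z).re = 6 * (GG 1 Z).re := by simp
  have c2 : (6 * GG 1 Z).im = 6 * (GG 1 Z).im := by simp
  rw [c1] at b1 b2
  rw [c2] at b2
  constructor
  · linarith
  · have c3 : ((-15 + 16 * I) * GG 1 Z).im = -15 * (GG 1 Z).im + 16 * (GG 1 Z).re := by
      simp [Complex.mul_im]
    rw [c3]
    linarith

theorem chkY_sound {K r : ℕ} {x y : ℤ} {Z : ℂ} {t : ℝ} (hδ : ‖Z - cv x y‖ ≤ rv r)
    (hr : rv r ≤ 1) (ht : t < 0) (hZt : Z = (t : ℂ) * (1 + I))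
    (h : chkY K r ⟨x, y, Int.ofNat DD, 0, 0⟩ = true) : F14 Z := by
  have hZ : Z ≠ 0 := by
    intro h0
    rw [h0] at hZt
    have := congrArg Complex.re hZt
    simp at this
    linarith
  have hz := Enc_var (Z := Z) x y
  obtain ⟨w, hw, h⟩ := sqT_sound hδ hr hz h
  obtain ⟨s, hs, h⟩ := ph_sound hδ hr hw h
  rw [forceT_eq] at h
  obtain ⟨e, he, h⟩ := expT_sound hδ hr (hz.sdiv hδ hr (k := 2) (by norm_num)) h
  obtain ⟨g, hg, h⟩ := mulT_sound hδ hr he hs h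
  have h1I : Enc (Z - cv x y) ⟨Int.ofNat DD, Int.ofNat DD, 0, 0, 0⟩ (1 + I) := by
    unfold Enc
    simp only
    have hc0 : cv 0 0 = 0 := by apply Complex.ext <;> simp [cv]
    have hc1 : cv (Int.ofNat DD) (Int.ofNat DD) = 1 + I := by
      apply Complex.ext <;> simp [cv, DD]
    rw [hc0, hc1, zero_mul, add_zero, sub_self, norm_zero]
    exact rv_nonneg _
  obtain ⟨u, hu, h⟩ := mulT_sound hδ hr h1I hg h
  obtain ⟨Y, hY⟩ : ∃ Y, Y = (1 + I) * (exp (Z / ((2 : ℕ) : ℂ)) * Ph 0 (Z ^ 2)) := ⟨_, rfl⟩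
  rw [← hY] at hu
  have eG : GG 1 Z = ((t / 6 : ℝ) : ℂ) * Y := by
    have h6 : Z / 6 = ((t / 6 : ℝ) : ℂ) * (1 + I) := by
      conv_lhs => rw [hZt]
      push_cast; ring
    rw [GG1_Ph hZ, hY, h6]
    push_cast
    ring
  simp only [forceN_eq, band_iff, leZ_iff, iadd_eq, isub_eq, imul_eq, Nat.succ_eq_add_one,
    Nat.mul_eq] at h
  obtain ⟨h1, h2⟩ := h
  have hd := hu.dev hδ
  have h1r : ((Int.ofNat (u.dev r + 1) : ℤ) : ℝ) ≤ ((u.ax : ℤ) : ℝ) := by exact_mod_cast h1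
  have h2r : ((Int.ofNat (21932 * u.dev r + 1) : ℤ) : ℝ) ≤
      ((1000 * (16 * u.ax - 15 * u.ay) : ℤ) : ℝ) := by exact_mod_cast h2
  simp only [Int.ofNat_eq_natCast] at h1r h2r
  push_cast at h1r h2r
  have b1 := (abs_le.mp (re_im_le hd).1).1
  have b2 := lin_le hd (p := 16) (q := -15) (m := 21932 / 1000) (by norm_num) (by norm_num)
  rw [cv_re, rv_eq] at b1 b2
  rw [cv_im] at b2
  have p1 : 0 < Y.re := by linarith
  have p2 : 0 < 16 * Y.re - 15 * Y.im := by linarith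
  unfold F14
  rw [eG]
  constructor
  · rw [Complex.re_ofReal_mul]
    exact mul_neg_of_neg_of_pos (by linarith) p1
  · have c3 : ((-15 + 16 * I) * (((t / 6 : ℝ) : ℂ) * Y)).im =
        t / 6 * (16 * Y.re - 15 * Y.im) := by
      have : (-15 + 16 * I) * (((t / 6 : ℝ) : ℂ) * Y) = ((t / 6 : ℝ) : ℂ) * ((-15 + 16 * I) * Y) := by
        ring
      have c4 : ((-15 + 16 * I) * Y).im = 16 * Y.re - 15 * Y.im := by
        simp [Complex.mul_im]
        ring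
      rw [this, Complex.im_ofReal_mul, c4]
    rw [c3]
    exact mul_neg_of_neg_of_pos (by linarith) p2

theorem mid_err {i : ℤ} {k : ℕ} (hk : k ≤ 39) {g : ℕ} (hg : g = 549755813888 / 2 ^ k) {x : ℝ}
    (h1 : (i : ℝ) / 2 ^ k ≤ x) (h2 : x ≤ ((i : ℝ) + 1) / 2 ^ k) :
    |x - (((2 * i + 1) * Int.ofNat g : ℤ) : ℝ) / 1099511627776| ≤ rv g := by
  have hgk : g * 2 ^ k = 549755813888 := by
    rw [hg]
    apply Nat.div_mul_cancel
    exact (pow_dvd_pow 2 hk).trans (by norm_num)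
  have hgr : (g : ℝ) * 2 ^ k = 549755813888 := by exact_mod_cast hgk
  have hp : (0 : ℝ) < 2 ^ k := by positivity
  unfold rv
  rw [abs_le]
  have e : ((Int.ofNat g : ℤ) : ℝ) = (g : ℝ) := by simp
  push_cast [e]
  have e1 : (i : ℝ) / 2 ^ k = i * (2 * g) / 1099511627776 := by
    rw [div_eq_div_iff hp.ne' (by norm_num)]
    linear_combination -(2 * (i : ℝ)) * hgr
  have e2 : ((i : ℝ) + 1) / 2 ^ k = (i + 1) * (2 * g) / 1099511627776 := by
    rw [div_eq_div_iff hp.ne' (by norm_num)]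
    linear_combination -(2 * ((i : ℝ) + 1)) * hgr
  rw [e1] at h1
  rw [e2] at h2
  constructor
  · have : -((g : ℝ) / 1099511627776) = i * (2 * g) / 1099511627776 -
      (2 * (i : ℝ) + 1) * g / 1099511627776 := by ring
    linarith
  · have : ((g : ℝ) / 1099511627776) = (i + 1) * (2 * g) / 1099511627776 -
      (2 * (i : ℝ) + 1) * g / 1099511627776 := by ring
    linarith

theorem chkL_sound {K : ℕ} {p q : ℤ} {m dd : ℕ} (hm : 0 < m)
    (hdd : ((m : ℤ) ^ 2 + q ^ 2) * 10 ^ 8 ≤ (dd : ℤ) ^ 2 * (m : ℤ) ^ 2) (hdd2 : dd ≤ 15000)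
    (i : ℤ) (k : ℕ) (h : chkL K p q m dd i k = true) : ∀ t : ℝ, (i : ℝ) / 2 ^ k ≤ t →
      t ≤ ((i : ℝ) + 1) / 2 ^ k → ∀ Z : ℂ, Z ≠ 0 → Z.re = t →
      Z.im = -((p : ℝ) + q * t) / m → F14 Z := by
  intro t h1 h2 Z hZ hre him
  simp only [chkL, band_iff, forceN_eq, forceI_eq, imul_eq, iadd_eq, isub_eq, Nat.add_eq,
    Nat.mul_eq, ndiv_eq, npow_eq] at h
  obtain ⟨h3, h⟩ := h
  have hk : k ≤ 39 := Nat.le_of_ble_eq_true h3
  obtain ⟨g, hg⟩ : ∃ g, g = 549755813888 / 2 ^ k := ⟨_, rfl⟩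
  rw [← hg] at h
  have hx := mid_err hk hg h1 h2
  obtain ⟨x, hxd⟩ : ∃ x, x = (2 * i + 1) * Int.ofNat g := ⟨_, rfl⟩
  rw [← hxd] at hx h
  obtain ⟨f, hf⟩ : ∃ f, f = fd (p * Int.ofNat DD + q * x) m := ⟨_, rfl⟩
  rw [← hf] at h
  have hmr : (0 : ℝ) < (m : ℝ) := by exact_mod_cast hm
  have hg1 : g ≤ 549755813888 := by rw [hg]; exact Nat.div_le_self _ _
  refine chkX_sound ?_ ?_ hZ h
  · have hfe := fd_err (p * Int.ofNat DD + q * x) hm
    rw [← hf] at hfe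
    have e1 : ((p * Int.ofNat DD + q * x : ℤ) : ℝ) = (p : ℝ) * 1099511627776 + q * x := by
      simp [DD]
    rw [e1] at hfe
    obtain ⟨d, hd⟩ : ∃ d : ℝ, d = t - (x : ℝ) / 1099511627776 := ⟨_, rfl⟩
    rw [← hd] at hx
    obtain ⟨ε, hε⟩ : ∃ ε : ℝ, ε = (((p : ℝ) * 1099511627776 + q * x) / m - (f : ℝ)) /
      1099511627776 := ⟨_, rfl⟩
    have hεb : |ε| ≤ rv 1 := by
      rw [hε, abs_div, abs_of_pos (show (0 : ℝ) < 1099511627776 by norm_num)]
      unfold rv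
      push_cast
      exact div_le_div_of_nonneg_right hfe (by norm_num)
    have hZc : Z - cv x (0 - f) = (⟨d, -(q : ℝ) / m * d⟩ : ℂ) + (⟨0, -ε⟩ : ℂ) := by
      apply Complex.ext
      · simp [cv, hre, hd]
      · simp only [cv, Complex.sub_im, Complex.add_im, him, hd, hε]
        push_cast
        field_simp
        ring
    rw [hZc]
    have n2 : ‖(⟨0, -ε⟩ : ℂ)‖ ≤ rv 1 := by
      have : (⟨0, -ε⟩ : ℂ) = ((-ε : ℝ) : ℂ) * I := by apply Complex.ext <;> simp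
      rw [this, norm_mul, Complex.norm_I, mul_one, Complex.norm_real, Real.norm_eq_abs, abs_neg]
      exact hεb
    have n1 : ‖(⟨d, -(q : ℝ) / m * d⟩ : ℂ)‖ ≤ dd / 10000 * rv g := by
      have h0 : (0 : ℝ) ≤ dd / 10000 * rv g := by have := rv_nonneg g; positivity
      rw [← sq_le_sq₀ (norm_nonneg _) h0, Complex.sq_norm, Complex.normSq_apply]
      simp only
      have hddr : ((m : ℝ) ^ 2 + (q : ℝ) ^ 2) * 10 ^ 8 ≤ (dd : ℝ) ^ 2 * (m : ℝ) ^ 2 := by
        exact_mod_cast hdd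
      have hd2 : d ^ 2 ≤ rv g ^ 2 := sq_le_sq' (abs_le.mp hx).1 (abs_le.mp hx).2
      have e2 : d * d + -(q : ℝ) / m * d * (-(q : ℝ) / m * d) =
          ((m : ℝ) ^ 2 + (q : ℝ) ^ 2) / (m : ℝ) ^ 2 * d ^ 2 := by field_simp
      rw [e2]
      have e3 : ((m : ℝ) ^ 2 + (q : ℝ) ^ 2) / (m : ℝ) ^ 2 ≤ (dd : ℝ) ^ 2 / 10 ^ 8 := by
        rw [div_le_div_iff₀ (by positivity) (by norm_num)]
        exact hddr
      calc ((m : ℝ) ^ 2 + (q : ℝ) ^ 2) / (m : ℝ) ^ 2 * d ^ 2 ≤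
            (dd : ℝ) ^ 2 / 10 ^ 8 * rv g ^ 2 := mul_le_mul e3 hd2 (by positivity) (by positivity)
        _ = _ := by ring
    have n3 : (dd : ℝ) / 10000 * rv g ≤ rv (g * dd / 10000 + 1) := by
      have h : g * dd < 10000 * (g * dd / 10000 + 1) := Nat.lt_mul_div_succ _ (by norm_num)
      have h' : ((g * dd : ℕ) : ℝ) ≤ ((10000 * (g * dd / 10000 + 1) : ℕ) : ℝ) := by
        exact_mod_cast h.le
      rw [Nat.cast_mul 10000] at h'
      have e4 : rv (g * dd / 10000 + 1) = ((g * dd / 10000 + 1 : ℕ) : ℝ) / 1099511627776 := rfl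
      rw [e4]
      generalize ((g * dd / 10000 + 1 : ℕ) : ℝ) = M at *
      push_cast at h'
      unfold rv
      rw [← mul_div_assoc]
      apply div_le_div_of_nonneg_right _ (by norm_num)
      linarith
    have n4 : rv (g * dd / 10000 + 3) = rv (g * dd / 10000 + 1) + rv 1 + rv 1 := by
      rw [← rv_add, ← rv_add]
    rw [n4]
    have := rv_nonneg 1
    exact (norm_add_le _ _).trans (by linarith)
  · unfold rv
    rw [div_le_one (by norm_num)]
    have h5 : g * dd ≤ 549755813888 * 15000 := Nat.mul_le_mul hg1 hdd2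
    have : g * dd / 10000 + 3 ≤ 1099511627776 := by omega
    exact_mod_cast this

theorem chkV_sound {K : ℕ} (i : ℤ) (k : ℕ) (h : chkV K i k = true) : ∀ t : ℝ,
    (i : ℝ) / 2 ^ k ≤ t → t ≤ ((i : ℝ) + 1) / 2 ^ k → ∀ Z : ℂ, Z.re = -(3 / 8) →
      Z.im = t → F14 Z := by
  intro t h1 h2 Z hre him
  simp only [chkV, band_iff, forceN_eq, forceI_eq, imul_eq, iadd_eq, isub_eq, Nat.add_eq,
    Nat.mul_eq, ndiv_eq, npow_eq] at h
  obtain ⟨h3, h⟩ := h
  have hk : k ≤ 39 := Nat.le_of_ble_eq_true h3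
  obtain ⟨g, hg⟩ : ∃ g, g = 549755813888 / 2 ^ k := ⟨_, rfl⟩
  rw [← hg] at h
  have hx := mid_err hk hg h1 h2
  obtain ⟨y, hyd⟩ : ∃ y, y = (2 * i + 1) * Int.ofNat g := ⟨_, rfl⟩
  rw [← hyd] at hx h
  have hg1 : g ≤ 549755813888 := by rw [hg]; exact Nat.div_le_self _ _
  have hZ : Z ≠ 0 := by intro h0; rw [h0] at hre; simp at hre
  refine chkX_sound ?_ ?_ hZ h
  · have : Z - cv (-412316860416) y = ((t - (y : ℝ) / 1099511627776 : ℝ) : ℂ) * I := by
      apply Complex.ext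
      · simp [cv, hre]; norm_num
      · simp [cv, him]
    rw [this, norm_mul, Complex.norm_I, mul_one, Complex.norm_real]
    exact hx
  · unfold rv
    rw [div_le_one (by norm_num)]
    have : g ≤ 1099511627776 := by omega
    exact_mod_cast this

theorem chkD_sound {K : ℕ} (i : ℤ) (k : ℕ) (h : chkD K i k = true) : ∀ t : ℝ,
    (i : ℝ) / 2 ^ k ≤ t → t ≤ ((i : ℝ) + 1) / 2 ^ k → ∀ Z : ℂ, t < 0 → Z.re = t →
      Z.im = t → F14 Z := by
  intro t h1 h2 Z ht hre him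
  simp only [chkD, band_iff, forceN_eq, forceI_eq, imul_eq, iadd_eq, isub_eq, Nat.add_eq,
    Nat.mul_eq, ndiv_eq, npow_eq] at h
  obtain ⟨h3, h⟩ := h
  have hk : k ≤ 39 := Nat.le_of_ble_eq_true h3
  obtain ⟨g, hg⟩ : ∃ g, g = 549755813888 / 2 ^ k := ⟨_, rfl⟩
  rw [← hg] at h
  have hx := mid_err hk hg h1 h2
  obtain ⟨y, hyd⟩ : ∃ y, y = (2 * i + 1) * Int.ofNat g := ⟨_, rfl⟩
  rw [← hyd] at hx h
  have hg1 : g ≤ 549755813888 := by rw [hg]; exact Nat.div_le_self _ _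
  have hZt : Z = (t : ℂ) * (1 + I) := by
    apply Complex.ext
    · simp [hre]
    · simp [him]
  refine chkY_sound ?_ ?_ ht hZt h
  · have : Z - cv y y = ((t - (y : ℝ) / 1099511627776 : ℝ) : ℂ) * (1 + I) := by
      apply Complex.ext
      · simp [cv, hre]
      · simp [cv, him]
    rw [this, norm_mul, Complex.norm_real]
    have hn : ‖(1 + I : ℂ)‖ ≤ 14143 / 10000 := by
      rw [← sq_le_sq₀ (norm_nonneg _) (by norm_num), Complex.sq_norm, Complex.normSq_apply]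
      simp; norm_num
    have n3 : rv g * (14143 / 10000) ≤ rv (g * 14143 / 10000 + 3) := by
      have h : g * 14143 < 10000 * (g * 14143 / 10000 + 1) := Nat.lt_mul_div_succ _ (by norm_num)
      have h' : ((g * 14143 : ℕ) : ℝ) ≤ ((10000 * (g * 14143 / 10000 + 1) : ℕ) : ℝ) := by
        exact_mod_cast h.le
      push_cast at h'
      unfold rv
      rw [div_mul_eq_mul_div]
      apply div_le_div_of_nonneg_right _ (by norm_num)
      push_cast
      linarith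
    exact (mul_le_mul hx hn (norm_nonneg _) (rv_nonneg _)).trans n3
  · unfold rv
    rw [div_le_one (by norm_num)]
    have : g * 14143 / 10000 + 3 ≤ 1099511627776 := by omega
    exact_mod_cast this

end BN
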