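import Pool.Agent.Helper2.ST.Defs

/-!
Block N of MP_3942cb_co: definitions.

`TT c k x` is the normalised tail `sum_j (c (k+j) / c k) x^j` of the power series with positive
coefficients `c`. `Ph n w = 0F1(; n + 5/2; w/16)`. `hc p m = 6 (m+1)^p/(m+3)!`, the coefficients of
`6 GG_p(t)/t`.
-/

namespace BN

open Complex

/-- normalised tail of a power series -/
noncomputable def TT (c : ℕ → ℝ) (k : ℕ) (x : ℂ) : ℂ :=
  ∑' j : ℕ, ((c (k + j) / c k : ℝ) : ℂ) * x ^ j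

/-- product `(2n+5)(2n+7) ... (2n+3+2j)` -/
noncomputable def pr (n j : ℕ) : ℝ := ∏ i ∈ Finset.range j, (2 * (n : ℝ) + 5 + 2 * (i : ℝ))

/-- coefficient of `Ph n` -/
noncomputable def pc (n j : ℕ) : ℝ := 1 / (8 ^ j * (j.factorial : ℝ) * pr n j)

/-- `Ph n w = 0F1(; n + 5/2; w/16)` -/
noncomputable def Ph (n : ℕ) (w : ℂ) : ℂ := ∑' j : ℕ, (pc n j : ℂ) * w ^ j

/-- coefficients of `6 GG_p(t)/t` -/
noncomputable def hc (p m : ℕ) : ℝ := 6 * ((m : ℝ) + 1) ^ p / ((m + 3).factorial : ℝ)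

end BN
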