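import Pool.Agent.Helper76.BN.ChkA

/-!
Block N of MP_3942cb_co: the exponential of a Taylor model.
-/

set_option linter.unusedSimpArgs false

namespace BN

open Complex

/-- Horner scheme for the exponential of `a / 32` -/
noncomputable def hor (ax ay : ℤ) (k : ℤ → ℤ → Bool) (n : ℕ) : ℤ → ℤ → Bool :=
  @Nat.rec (fun _ => ℤ → ℤ → Bool) k (fun n ih x y =>
    forceI (iadd (Int.ofNat DD) (fd (isub (imul ax x) (imul ay y))
      (Nat.mul (Nat.mul 32 (Nat.succ n)) DD))) fun x' =>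
    forceI (fd (iadd (imul ax y) (imul ay x)) (Nat.mul (Nat.mul 32 (Nat.succ n)) DD)) fun y' =>
    ih x' y') n

/-- repeated squaring -/
noncomputable def sqr (k : ℤ → ℤ → ℕ → Bool) (n : ℕ) : ℤ → ℤ → ℕ → Bool :=
  @Nat.rec (fun _ => ℤ → ℤ → ℕ → Bool) k (fun _ ih x y e =>
    forceN (Nat.add (Nat.mul 2 (mu (nu x y) e)) (Nat.add (mu e e) 2)) fun e' =>
    forceI (rmx x y x y) fun x' => forceI (rmy x y x y) fun y' => ih x' y' e') n

/-- the exponential of a Gaussian number of absolute value at most 9 -/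
noncomputable def expG (ax ay : ℤ) (k : ℤ → ℤ → ℕ → Bool) : Bool :=
  band (Nat.ble (nu ax ay) (Nat.mul 9 DD))
    (hor ax ay (fun x y => sqr k 5 x y 6) 9 (Int.ofNat DD) 0)

/-- exponential of a Taylor model -/
noncomputable def expT (r : ℕ) (s : T) (k : T → Bool) : Bool :=
  expG s.ax s.ay fun x y e =>
  forceN (Nat.add (mu (nu s.bx s.bY) r) s.e) fun q => band (Nat.ble q DD)
    (forceN (Nat.add s.e (Nat.add (Nat.div (mu q q) 2) (Nat.add (Nat.div (mu q (mu q q)) 4) 2)))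
    fun f => mulT r ⟨x, y, 0, 0, e⟩ ⟨Int.ofNat DD, 0, s.bx, s.bY, f⟩ k)

theorem cv_fd2 (x y : ℤ) {d : ℕ} (hd : 0 < d) :
    ‖cv x y / (d : ℂ) - cv (fd x d) (fd y d)‖ ≤ rv 2 := cv_fd x y hd

theorem hor_sound {ax ay : ℤ} {k : ℤ → ℤ → Bool} {a : ℂ} (ha : cv ax ay = a) (n : ℕ) :
    ∀ x y, hor ax ay k n x y = true → ∃ X Y, ‖cv X Y - (∑ i ∈ Finset.range n,
      (a / 32) ^ i / (i.factorial : ℂ) + (a / 32) ^ n / (n.factorial : ℂ) * cv x y)‖ ≤
      (∑ i ∈ Finset.range n, ‖a / 32‖ ^ i / (i.factorial : ℝ)) * rv 2 ∧ k X Y = true := by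
  induction n with
  | zero => intro x y h; exact ⟨x, y, by simp, h⟩
  | succ n ih =>
    intro x y h
    change (forceI (iadd (Int.ofNat DD) (fd (isub (imul ax x) (imul ay y))
      (Nat.mul (Nat.mul 32 (Nat.succ n)) DD))) fun x' =>
      forceI (fd (iadd (imul ax y) (imul ay x)) (Nat.mul (Nat.mul 32 (Nat.succ n)) DD)) fun y' =>
      hor ax ay k n x' y') = true at h
    simp only [forceI_eq, Nat.mul_eq, Nat.succ_eq_add_one] at h
    obtain ⟨X, Y, h1, h2⟩ := ih _ _ h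
    refine ⟨X, Y, ?_, h2⟩
    have hpos : 0 < 32 * (n + 1) * DD := by have := DD_pos; positivity
    have herr := cv_fd2 (isub (imul ax x) (imul ay y)) (iadd (imul ax y) (imul ay x)) hpos
    have hmulcv : cv (isub (imul ax x) (imul ay y)) (iadd (imul ax y) (imul ay x)) =
        1099511627776 * (a * cv x y) := by
      rw [← ha]
      apply Complex.ext
      · simp [cv, isub_eq, imul_eq, Complex.mul_re, Complex.mul_im]; ring
      · simp [cv, iadd_eq, imul_eq, Complex.mul_re, Complex.mul_im]; ring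
    rw [hmulcv] at herr
    have e1 : (1099511627776 : ℂ) * (a * cv x y) / ((32 * (n + 1) * DD : ℕ) : ℂ) =
        a / 32 * cv x y / ((n : ℂ) + 1) := by
      have : ((DD : ℕ) : ℂ) = 1099511627776 := by simp [DD]
      push_cast [this]; field_simp
    rw [e1] at herr
    have e2 : cv (iadd (Int.ofNat DD) (fd (isub (imul ax x) (imul ay y)) (32 * (n + 1) * DD)))
        (fd (iadd (imul ax y) (imul ay x)) (32 * (n + 1) * DD)) =
        1 + cv (fd (isub (imul ax x) (imul ay y)) (32 * (n + 1) * DD))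
        (fd (iadd (imul ax y) (imul ay x)) (32 * (n + 1) * DD)) := by
      have := cv_add (Int.ofNat DD) 0 (fd (isub (imul ax x) (imul ay y)) (32 * (n + 1) * DD))
        (fd (iadd (imul ax y) (imul ay x)) (32 * (n + 1) * DD))
      rw [zero_add] at this
      rw [iadd_eq, this]
      congr 1
      simpa using cv_int 1
    rw [e2] at h1
    set F := cv (fd (isub (imul ax x) (imul ay y)) (32 * (n + 1) * DD))
        (fd (iadd (imul ax y) (imul ay x)) (32 * (n + 1) * DD)) with hF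
    rw [Finset.sum_range_succ, Finset.sum_range_succ]
    have e3 : cv X Y - (∑ i ∈ Finset.range n, (a / 32) ^ i / (i.factorial : ℂ) +
        (a / 32) ^ n / (n.factorial : ℂ) + (a / 32) ^ (n + 1) / ((n + 1).factorial : ℂ) *
        cv x y) = (cv X Y - (∑ i ∈ Finset.range n, (a / 32) ^ i / (i.factorial : ℂ) +
        (a / 32) ^ n / (n.factorial : ℂ) * (1 + F))) - (a / 32) ^ n / (n.factorial : ℂ) *
        (a / 32 * cv x y / ((n : ℂ) + 1) - F) := by
      have hf : ((n + 1).factorial : ℂ) = ((n : ℂ) + 1) * (n.factorial : ℂ) := by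
        rw [Nat.factorial_succ]; push_cast; ring
      have hn0 : (n.factorial : ℂ) ≠ 0 := by exact_mod_cast (Nat.factorial_pos n).ne'
      have hn1 : (n : ℂ) + 1 ≠ 0 := by exact_mod_cast (Nat.succ_ne_zero n)
      rw [hf, pow_succ]
      field_simp
      ring
    rw [e3, add_mul]
    refine (norm_sub_le _ _).trans (add_le_add h1 ?_)
    rw [norm_mul, norm_div, norm_pow, Complex.norm_natCast]
    exact mul_le_mul_of_nonneg_left herr (by positivity)

theorem sqr_sound {k : ℤ → ℤ → ℕ → Bool} (n : ℕ) : ∀ (x y : ℤ) (e : ℕ) (E : ℂ),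
    ‖cv x y - E‖ ≤ rv e → sqr k n x y e = true →
    ∃ X Y f, ‖cv X Y - E ^ (2 ^ n)‖ ≤ rv f ∧ k X Y f = true := by
  induction n with
  | zero => intro x y e E h1 h2; exact ⟨x, y, e, by simpa using h1, h2⟩
  | succ n ih =>
    intro x y e E h1 h2
    change (forceN (Nat.add (Nat.mul 2 (mu (nu x y) e)) (Nat.add (mu e e) 2)) fun e' =>
      forceI (rmx x y x y) fun x' => forceI (rmy x y x y) fun y' => sqr k n x' y' e') = true at h2
    simp only [forceN_eq, forceI_eq] at h2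
    have hE : E ^ (2 ^ (n + 1)) = (E ^ 2) ^ (2 ^ n) := by rw [← pow_mul, pow_succ]; congr 1; ring
    rw [hE]
    refine ih _ _ _ (E ^ 2) ?_ h2
    simp only [Nat.add_eq, Nat.mul_eq]
    have h3 := rm_spec x y x y
    have e0 : cv (rmx x y x y) (rmy x y x y) - E ^ 2 =
        -(cv x y * cv x y - cv (rmx x y x y) (rmy x y x y)) + (cv x y * (cv x y - E) +
        cv x y * (cv x y - E)) - (cv x y - E) * (cv x y - E) := by ring
    have m1 := norm_mul_le_mu (nu_spec x y) h1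
    have m2 := norm_mul_le_mu h1 h1
    rw [e0, rv_add, rv_add, two_mul, rv_add]
    refine (norm_sub_le _ _).trans ?_
    have t1 := norm_add_le (-(cv x y * cv x y - cv (rmx x y x y) (rmy x y x y)))
      (cv x y * (cv x y - E) + cv x y * (cv x y - E))
    have t2 := norm_add_le (cv x y * (cv x y - E)) (cv x y * (cv x y - E))
    rw [norm_neg] at t1
    linarith

theorem expG_sound {ax ay : ℤ} {k : ℤ → ℤ → ℕ → Bool} (h : expG ax ay k = true) :
    ∃ X Y e, ‖cv X Y - exp (cv ax ay)‖ ≤ rv e ∧ k X Y e = true := by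
  simp only [expG, band_iff] at h
  obtain ⟨h1, h2⟩ := h
  have ha : ‖cv ax ay‖ ≤ 9 := by
    refine (nu_spec ax ay).trans ((rv_mono (Nat.le_of_ble_eq_true h1)).trans (le_of_eq ?_))
    simp only [Nat.mul_eq]; rw [rv_mul_DD]; norm_num
  obtain ⟨a, hcv⟩ : ∃ a, a = cv ax ay := ⟨_, rfl⟩
  rw [← hcv] at ha ⊢
  obtain ⟨x, y, h3, h4⟩ := hor_sound hcv.symm 9 _ _ h2
  have hs : ‖a / 32‖ ≤ 9 / 32 := by
    rw [norm_div, Complex.norm_ofNat]; linarith
  have h5 : ‖cv x y - exp (a / 32)‖ ≤ rv 6 := by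
    have hD1 : cv (Int.ofNat DD) 0 = 1 := by simpa using cv_int 1
    rw [hD1, mul_one, ← Finset.sum_range_succ] at h3
    have hb := Complex.exp_bound (x := a / 32) (hs.trans (by norm_num)) (n := 10) (by norm_num)
    have hb2 : ‖a / 32‖ ^ 10 * ((Nat.succ 10 : ℕ) * ((Nat.factorial 10 : ℕ) * (10 : ℕ) : ℝ)⁻¹) ≤
        rv 2 := by
      calc _ ≤ (9 / 32) ^ 10 * ((Nat.succ 10 : ℕ) * ((Nat.factorial 10 : ℕ) * (10 : ℕ) : ℝ)⁻¹) := by
            gcongr
        _ ≤ _ := by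
          unfold rv
          norm_num [Nat.factorial]
    have hsum : (∑ i ∈ Finset.range 9, ‖a / 32‖ ^ i / (i.factorial : ℝ)) ≤ 2 := by
      refine (Real.sum_le_exp_of_nonneg (norm_nonneg _) 9).trans ?_
      refine (Real.exp_le_exp.mpr (hs.trans (show (9 / 32 : ℝ) ≤ 1 / 2 by norm_num))).trans ?_
      have h9 := Real.exp_one_lt_d9
      have h10 : Real.exp (1 / 2) ^ 2 = Real.exp 1 := by
        rw [← Real.exp_nat_mul]; norm_num
      nlinarith [Real.exp_pos (1 / 2)]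
    have e0 : cv x y - exp (a / 32) = (cv x y - ∑ i ∈ Finset.range 10,
        (a / 32) ^ i / (i.factorial : ℂ)) - (exp (a / 32) - ∑ i ∈ Finset.range 10,
        (a / 32) ^ i / (i.factorial : ℂ)) := by ring
    rw [e0]
    have h6 : rv 6 = 2 * rv 2 + rv 2 := by
      rw [show (6 : ℕ) = 2 + 2 + 2 from rfl, rv_add, rv_add]; ring
    rw [h6]
    refine (norm_sub_le _ _).trans (add_le_add (h3.trans ?_) (hb.trans hb2))
    exact mul_le_mul_of_nonneg_right hsum (rv_nonneg 2)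
  obtain ⟨X, Y, f, h6, h7⟩ := sqr_sound 5 x y 6 (exp (a / 32)) h5 h4
  refine ⟨X, Y, f, ?_, h7⟩
  have : exp (a / 32) ^ (2 ^ 5) = exp a := by
    rw [← Complex.exp_nat_mul]; congr 1; push_cast; ring
  rw [← this]; exact h6

theorem expT_sound {δ : ℂ} {r : ℕ} {s : T} {v : ℂ} {k : T → Bool} (hδ : ‖δ‖ ≤ rv r)
    (hr : rv r ≤ 1) (hs : Enc δ s v) (h : expT r s k = true) :
    ∃ u, Enc δ u (exp v) ∧ k u = true := by
  unfold expT at h
  obtain ⟨x, y, e, h1, h⟩ := expG_sound h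
  simp only [forceN_eq, band_iff] at h
  obtain ⟨h2, h⟩ := h
  obtain ⟨u, hu⟩ : ∃ u, u = v - cv s.ax s.ay := ⟨_, rfl⟩
  have hv : exp v = exp (cv s.ax s.ay) * exp u := by
    rw [← Complex.exp_add, hu]; congr 1; ring
  have hun : ‖u‖ ≤ rv (mu (nu s.bx s.bY) r + s.e) := by
    have := hs.dev hδ
    rw [hu]; exact this
  obtain ⟨q, hq⟩ : ∃ q, q = mu (nu s.bx s.bY) r + s.e := ⟨_, rfl⟩
  simp only [Nat.add_eq] at h h2
  rw [← hq] at hun h h2
  have hu1 : ‖u‖ ≤ 1 := hun.trans ((rv_mono (Nat.le_of_ble_eq_true h2)).trans (le_of_eq (by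
    unfold rv DD; norm_num)))
  have henc : Enc δ ⟨Int.ofNat DD, 0, s.bx, s.bY, s.e + (mu q q / 2 + (mu q (mu q q) / 4 + 2))⟩
      (exp u) := by
    unfold Enc
    simp only
    have hD1 : cv (Int.ofNat DD) 0 = 1 := by simpa using cv_int 1
    rw [hD1]
    have hb := Complex.exp_bound hu1 (n := 3) (by norm_num)
    have hsum : ∑ m ∈ Finset.range 3, u ^ m / (m.factorial : ℂ) = 1 + u + u ^ 2 / 2 := by
      simp [Finset.sum_range_succ, Nat.factorial]
    rw [hsum] at hb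
    have e0 : exp u - (1 + cv s.bx s.bY * δ) = (exp u - (1 + u + u ^ 2 / 2)) + u ^ 2 / 2 +
        (v - (cv s.ax s.ay + cv s.bx s.bY * δ)) := by
      rw [hu]; ring
    have q2 : ‖u‖ * ‖u‖ ≤ rv (mu q q) :=
      (mul_le_mul hun hun (norm_nonneg _) (rv_nonneg _)).trans (mu_spec _ _)
    have q3 : ‖u‖ * (‖u‖ * ‖u‖) ≤ rv (mu q (mu q q)) :=
      (mul_le_mul hun q2 (by positivity) (rv_nonneg _)).trans (mu_spec _ _)
    have d2 : rv (mu q q) ≤ 2 * rv (mu q q / 2 + 1) := by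
      unfold rv
      have h : mu q q ≤ 2 * (mu q q / 2 + 1) := by omega
      have h' : ((mu q q : ℕ) : ℝ) ≤ 2 * ((mu q q / 2 + 1 : ℕ) : ℝ) := by exact_mod_cast h
      linarith
    have d3 : rv (mu q (mu q q)) ≤ 4 * rv (mu q (mu q q) / 4 + 1) := by
      unfold rv
      have h : mu q (mu q q) ≤ 4 * (mu q (mu q q) / 4 + 1) := by omega
      have h' : ((mu q (mu q q) : ℕ) : ℝ) ≤ 4 * ((mu q (mu q q) / 4 + 1 : ℕ) : ℝ) := by
        exact_mod_cast h
      linarith
    have hsplit : rv (s.e + (mu q q / 2 + (mu q (mu q q) / 4 + 2))) =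
        rv s.e + (rv (mu q q / 2 + 1) + rv (mu q (mu q q) / 4 + 1)) := by
      rw [← rv_add, ← rv_add]; congr 1; omega
    rw [hsplit, e0]
    have n1 : ‖u ^ 2 / 2‖ = ‖u‖ * ‖u‖ / 2 := by
      rw [norm_div, norm_pow, Complex.norm_ofNat]; ring
    have n2 : ‖u‖ ^ 3 * ((Nat.succ 3 : ℕ) * ((Nat.factorial 3 : ℕ) * (3 : ℕ) : ℝ)⁻¹) =
        2 / 9 * (‖u‖ * (‖u‖ * ‖u‖)) := by
      norm_num [Nat.factorial]; ring
    rw [n2] at hb
    have t1 := norm_add_le ((exp u - (1 + u + u ^ 2 / 2)) + u ^ 2 / 2)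
      (v - (cv s.ax s.ay + cv s.bx s.bY * δ))
    have t2 := norm_add_le (exp u - (1 + u + u ^ 2 / 2)) (u ^ 2 / 2)
    have t3 : ‖v - (cv s.ax s.ay + cv s.bx s.bY * δ)‖ ≤ rv s.e := hs
    have t4 := rv_nonneg (mu q (mu q q))
    linarith
  have hencE : Enc δ ⟨x, y, 0, 0, e⟩ (exp (cv s.ax s.ay)) := by
    unfold Enc
    simp only
    have hc0 : cv 0 0 = 0 := by apply Complex.ext <;> simp [cv]
    rw [hc0, zero_mul, add_zero, norm_sub_rev]
    exact h1
  rw [hv]
  exact mulT_sound hδ hr hencE henc h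

end BN
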