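import Pool.Agent.Helper76.BN.P2

/-!
# BN-P3: closed forms of `Ph 0` and `Ph 1`

Put `u = z/2`. The closed forms follow from the series of `cosh u` and `sinh u`.
* `pc_closed0`, `pc_closed1`: induction on `j`: `pc n (j+1) = pc n j/(8 (j+1) (2n+5+2j))` and
  `(2j+3)! = (2j+3)(2j+2)(2j+1)!`.
* `Ph0_closed`: `4 (u cosh u - sinh u) = 4 sum_k (2k+2) u^{2k+3}/(2k+3)!`.
* `Ph1_closed`: `4 u^2 sinh u + 12 sinh u - 12 u cosh u = sum_k 16 (k+2)(k+1) u^{2k+5}/(2k+5)!`.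
-/

namespace BN

open Complex

theorem pc_step (n j : ℕ) :
    pc n (j + 1) = pc n j / (8 * ((j : ℝ) + 1) * (2 * (n : ℝ) + 5 + 2 * (j : ℝ))) := by
  have h := pc_ratio n j
  have h0 := (pc_pos n j).ne'
  rw [div_eq_iff h0] at h
  rw [h]; ring

theorem fac3 (j : ℕ) : ((2 * (j + 1) + 1).factorial : ℝ) =
    (2 * (j : ℝ) + 3) * (2 * (j : ℝ) + 2) * ((2 * j + 1).factorial : ℝ) := by
  have : 2 * (j + 1) + 1 = (2 * j + 1) + 1 + 1 := by ring
  rw [this, Nat.factorial_succ, Nat.factorial_succ]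
  push_cast; ring

theorem pc_closed0 (j : ℕ) :
    pc 0 j = 3 / (4 ^ j * ((2 * j + 1).factorial : ℝ) * (2 * (j : ℝ) + 3)) := by
  induction j with
  | zero => rw [pc_zero]; norm_num
  | succ j ih =>
    rw [pc_step, ih, fac3]
    have h1 : ((2 * j + 1).factorial : ℝ) ≠ 0 := by exact_mod_cast (Nat.factorial_pos _).ne'
    push_cast
    field_simp
    ring

theorem pc_closed1 (j : ℕ) : pc 1 j =
    15 / (4 ^ j * ((2 * j + 1).factorial : ℝ) * (2 * (j : ℝ) + 3) * (2 * (j : ℝ) + 5)) := by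
  induction j with
  | zero => rw [pc_zero]; norm_num
  | succ j ih =>
    rw [pc_step, ih, fac3]
    have h1 : ((2 * j + 1).factorial : ℝ) ≠ 0 := by exact_mod_cast (Nat.factorial_pos _).ne'
    push_cast
    field_simp
    ring

theorem cfac (m : ℕ) : ((m + 1).factorial : ℂ) = ((m : ℂ) + 1) * (m.factorial : ℂ) := by
  rw [Nat.factorial_succ]; push_cast; ring

theorem Ph0_closed (z : ℂ) :
    z ^ 3 / 6 * Ph 0 (z ^ 2) = 2 * z * Complex.cosh (z / 2) - 4 * Complex.sinh (z / 2) := by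
  have hc := (Complex.hasSum_cosh (z / 2)).mul_left (2 * z)
  have hs := (Complex.hasSum_sinh (z / 2)).mul_left 4
  have h := (hasSum_nat_add_iff' 1).mpr (hc.sub hs)
  have h0 : ∑ i ∈ Finset.range 1, (2 * z * ((z / 2) ^ (2 * i) / ((2 * i).factorial : ℂ)) -
      4 * ((z / 2) ^ (2 * i + 1) / ((2 * i + 1).factorial : ℂ))) = 0 := by
    simp; ring
  rw [h0, sub_zero] at h
  have h2 := (Ph_summable 0 (z ^ 2)).hasSum.mul_left (z ^ 3 / 6)
  have hf : (fun i : ℕ => z ^ 3 / 6 * ((pc 0 i : ℂ) * (z ^ 2) ^ i)) = fun n : ℕ =>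
      2 * z * ((z / 2) ^ (2 * (n + 1)) / ((2 * (n + 1)).factorial : ℂ)) -
        4 * ((z / 2) ^ (2 * (n + 1) + 1) / ((2 * (n + 1) + 1).factorial : ℂ)) := by
    funext n
    rw [pc_closed0]
    have e1 : 2 * (n + 1) + 1 = 2 * n + 1 + 1 + 1 := by ring
    have e2 : 2 * (n + 1) = 2 * n + 1 + 1 := by ring
    rw [e1, e2, cfac (2 * n + 1 + 1), cfac (2 * n + 1)]
    have h1 : ((2 * n + 1).factorial : ℂ) ≠ 0 := by exact_mod_cast (Nat.factorial_pos _).ne'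
    have h3 : (2 * (n : ℂ) + 1 + 1) ≠ 0 := by
      have : (2 * n + 1 + 1 : ℕ) ≠ 0 := by omega
      exact_mod_cast this
    have h4 : (2 * (n : ℂ) + 1 + 1 + 1) ≠ 0 := by
      have : (2 * n + 1 + 1 + 1 : ℕ) ≠ 0 := by omega
      exact_mod_cast this
    have h5 : (2 * (n : ℂ) + 3) ≠ 0 := by
      have : (2 * n + 3 : ℕ) ≠ 0 := by omega
      exact_mod_cast this
    have e3 : (z / 2) ^ (2 * n + 1 + 1) = z ^ (2 * n) * z ^ 2 / (4 ^ n * 4) := by
      rw [div_pow, show (2 : ℂ) ^ (2 * n + 1 + 1) = 4 ^ n * 4 by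
        rw [pow_succ, pow_succ, pow_mul]; norm_num; ring]
      ring
    have e4 : (z / 2) ^ (2 * n + 1 + 1 + 1) = z ^ (2 * n) * z ^ 3 / (4 ^ n * 8) := by
      rw [pow_succ, e3]; field_simp; ring
    have e5 : (z ^ 2) ^ n = z ^ (2 * n) := by rw [pow_mul]
    rw [e3, e4, e5]
    push_cast
    field_simp
    ring
  rw [hf] at h2
  exact h2.unique h

theorem Ph1_closed (z : ℂ) :
    z ^ 5 / 120 * Ph 1 (z ^ 2) =
      (z ^ 2 + 12) * Complex.sinh (z / 2) - 6 * z * Complex.cosh (z / 2) := by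
  have hc := (Complex.hasSum_cosh (z / 2)).mul_left (6 * z)
  have hs := (Complex.hasSum_sinh (z / 2)).mul_left 12
  have hs2 := (Complex.hasSum_sinh (z / 2)).mul_left (z ^ 2)
  have h := (hasSum_nat_add_iff' 1).mpr (hs.sub hc)
  have h0 : ∑ i ∈ Finset.range 1, (12 * ((z / 2) ^ (2 * i + 1) / ((2 * i + 1).factorial : ℂ)) -
      6 * z * ((z / 2) ^ (2 * i) / ((2 * i).factorial : ℂ))) = 0 := by
    simp; ring
  rw [h0, sub_zero] at h
  have h' := (hasSum_nat_add_iff' 1).mpr (hs2.add h)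
  have h0' : ∑ i ∈ Finset.range 1, (z ^ 2 * ((z / 2) ^ (2 * i + 1) / ((2 * i + 1).factorial : ℂ)) +
      (12 * ((z / 2) ^ (2 * (i + 1) + 1) / ((2 * (i + 1) + 1).factorial : ℂ)) -
      6 * z * ((z / 2) ^ (2 * (i + 1)) / ((2 * (i + 1)).factorial : ℂ)))) = 0 := by
    simp [Nat.factorial]; ring
  rw [h0', sub_zero] at h'
  have h2 := (Ph_summable 1 (z ^ 2)).hasSum.mul_left (z ^ 5 / 120)
  have key : z ^ 5 / 120 * Ph 1 (z ^ 2) = z ^ 2 * Complex.sinh (z / 2) +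
      (12 * Complex.sinh (z / 2) - 6 * z * Complex.cosh (z / 2)) := by
    have hf : (fun i : ℕ => z ^ 5 / 120 * ((pc 1 i : ℂ) * (z ^ 2) ^ i)) = fun n : ℕ =>
        z ^ 2 * ((z / 2) ^ (2 * (n + 1) + 1) / ((2 * (n + 1) + 1).factorial : ℂ)) +
        (12 * ((z / 2) ^ (2 * (n + 1 + 1) + 1) / ((2 * (n + 1 + 1) + 1).factorial : ℂ)) -
          6 * z * ((z / 2) ^ (2 * (n + 1 + 1)) / ((2 * (n + 1 + 1)).factorial : ℂ))) := by
      funext n
      rw [pc_closed1]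
      have e0 : 2 * (n + 1 + 1) + 1 = 2 * n + 1 + 1 + 1 + 1 + 1 := by ring
      have e1 : 2 * (n + 1 + 1) = 2 * n + 1 + 1 + 1 + 1 := by ring
      have e2 : 2 * (n + 1) + 1 = 2 * n + 1 + 1 + 1 := by ring
      rw [e0, e1, e2, cfac (2 * n + 1 + 1 + 1 + 1), cfac (2 * n + 1 + 1 + 1), cfac (2 * n + 1 + 1),
        cfac (2 * n + 1)]
      have h1 : ((2 * n + 1).factorial : ℂ) ≠ 0 := by exact_mod_cast (Nat.factorial_pos _).ne'
      have h3 : (2 * (n : ℂ) + 1 + 1) ≠ 0 := by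
        have : (2 * n + 1 + 1 : ℕ) ≠ 0 := by omega
        exact_mod_cast this
      have h4 : (2 * (n : ℂ) + 1 + 1 + 1) ≠ 0 := by
        have : (2 * n + 1 + 1 + 1 : ℕ) ≠ 0 := by omega
        exact_mod_cast this
      have h5 : (2 * (n : ℂ) + 1 + 1 + 1 + 1) ≠ 0 := by
        have : (2 * n + 1 + 1 + 1 + 1 : ℕ) ≠ 0 := by omega
        exact_mod_cast this
      have h6 : (2 * (n : ℂ) + 1 + 1 + 1 + 1 + 1) ≠ 0 := by
        have : (2 * n + 1 + 1 + 1 + 1 + 1 : ℕ) ≠ 0 := by omega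
        exact_mod_cast this
      have h7 : (2 * (n : ℂ) + 3) ≠ 0 := by
        have : (2 * n + 3 : ℕ) ≠ 0 := by omega
        exact_mod_cast this
      have h8 : (2 * (n : ℂ) + 5) ≠ 0 := by
        have : (2 * n + 5 : ℕ) ≠ 0 := by omega
        exact_mod_cast this
      have e3 : (z / 2) ^ (2 * n + 1 + 1 + 1) = z ^ (2 * n) * z ^ 3 / (4 ^ n * 8) := by
        rw [div_pow, show (2 : ℂ) ^ (2 * n + 1 + 1 + 1) = 4 ^ n * 8 by
          rw [pow_succ, pow_succ, pow_succ, pow_mul]; norm_num; ring]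
        ring
      have e4 : (z / 2) ^ (2 * n + 1 + 1 + 1 + 1) = z ^ (2 * n) * z ^ 4 / (4 ^ n * 16) := by
        rw [pow_succ, e3]; field_simp; ring
      have e5 : (z / 2) ^ (2 * n + 1 + 1 + 1 + 1 + 1) = z ^ (2 * n) * z ^ 5 / (4 ^ n * 32) := by
        rw [pow_succ, e4]; field_simp; ring
      have e6 : (z ^ 2) ^ n = z ^ (2 * n) := by rw [pow_mul]
      rw [e3, e4, e5, e6]
      push_cast
      field_simp
      ring
    rw [hf] at h2
    exact h2.unique h'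
  rw [key]; ring

end BN
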