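import Pool.Agent.Helper76.BN.Defs

/-!
# BN-P4: closed forms of `GG j`, `j = 0, ..., 6`

`GG j z = sum_{m >= 0} (m+1)^j z^{m+1}/(m+3)!`.

The sums of `(M - 2)^j z^M / M!` are computed by the recursion `S (j+1) = z * S' j - 2 * S j`, where
`S' j` is the sum of `(M - 1)^j z^M / M!`; then the first three terms are removed.
-/

namespace BN

open Complex ST3

/-- the exponential term -/
noncomputable def aa (z : ℂ) (M : ℕ) : ℂ := z ^ M / (M.factorial : ℂ)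

theorem aa_succ (z : ℂ) (M : ℕ) : ((M : ℂ) + 1) * aa z (M + 1) = z * aa z M := by
  unfold aa
  have h1 : (M.factorial : ℂ) ≠ 0 := Nat.cast_ne_zero.mpr (Nat.factorial_ne_zero M)
  have h2 : ((M : ℂ) + 1) ≠ 0 := by exact_mod_cast Nat.succ_ne_zero M
  rw [Nat.factorial_succ]
  push_cast
  field_simp
  ring

theorem aa_hasSum (z : ℂ) : HasSum (aa z) (exp z) := by
  rw [Complex.exp_eq_exp_ℂ]
  exact NormedSpace.expSeries_div_hasSum_exp z

theorem aa_summable_pow (z : ℂ) (j : ℕ) : ∀ c : ℂ, Summable (fun M : ℕ => ((M : ℂ) + c) ^ j * aa z M) := by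
  induction j with
  | zero => intro c; simpa using (aa_hasSum z).summable
  | succ j ih =>
    intro c
    have h1 : Summable (fun M : ℕ => (M : ℂ) * ((M : ℂ) + c) ^ j * aa z M) := by
      rw [← summable_nat_add_iff 1]
      refine ((ih (c + 1)).mul_left z).congr fun M => ?_
      have := aa_succ z M
      push_cast
      linear_combination (-((M : ℂ) + 1 + c) ^ j) * this
    refine (h1.add ((ih c).mul_left c)).congr fun M => ?_
    rw [pow_succ]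
    ring

theorem step_hasSum (z : ℂ) (j : ℕ) (s t : ℂ)
    (h1 : HasSum (fun M : ℕ => ((M : ℂ) - 1) ^ j * aa z M) s)
    (h2 : HasSum (fun M : ℕ => ((M : ℂ) - 2) ^ j * aa z M) t) :
    HasSum (fun M : ℕ => ((M : ℂ) - 2) ^ (j + 1) * aa z M) (z * s - 2 * t) := by
  have h3 : HasSum (fun M : ℕ => (M : ℂ) * ((M : ℂ) - 2) ^ j * aa z M) (z * s) := by
    have := (hasSum_nat_add_iff (f := fun M : ℕ => (M : ℂ) * ((M : ℂ) - 2) ^ j * aa z M)
      (g := z * s) 1).mp ?_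
    · simpa using this
    · have e : (fun M : ℕ => ((M + 1 : ℕ) : ℂ) * (((M + 1 : ℕ) : ℂ) - 2) ^ j * aa z (M + 1)) =
          fun M : ℕ => z * (((M : ℂ) - 1) ^ j * aa z M) := by
        funext M
        have h5 := aa_succ z M
        have h6 : ((M + 1 : ℕ) : ℂ) - 2 = (M : ℂ) - 1 := by push_cast; ring
        rw [h6]
        push_cast
        linear_combination (((M : ℂ) - 1) ^ j) * h5
      rw [e]
      exact h1.mul_left z
  have e : (fun M : ℕ => ((M : ℂ) - 2) ^ (j + 1) * aa z M) =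
      fun M : ℕ => (M : ℂ) * ((M : ℂ) - 2) ^ j * aa z M - 2 * (((M : ℂ) - 2) ^ j * aa z M) := by
    funext M
    rw [pow_succ]
    ring
  rw [e]
  exact h3.sub (h2.mul_left 2)

theorem hs0 (z : ℂ) : HasSum (fun M : ℕ => ((M : ℂ) - 2) ^ 0 * aa z M) (exp z) := by
  simpa using aa_hasSum z

theorem hs1 (z : ℂ) : HasSum (fun M : ℕ => ((M : ℂ) - 2) ^ 1 * aa z M) ((z - 2) * exp z) := by
  have h0 := hs0 z
  have h : HasSum (fun M : ℕ => ((M : ℂ) - 1) ^ 0 * aa z M) (exp z) := by simpa using aa_hasSum z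
  convert step_hasSum z 0 _ _ h h0 using 1
  ring

theorem hs2 (z : ℂ) : HasSum (fun M : ℕ => ((M : ℂ) - 2) ^ 2 * aa z M)
    ((z ^ 2 - 3 * z + 4) * exp z) := by
  have h : HasSum (fun M : ℕ => ((M : ℂ) - 1) ^ 1 * aa z M)
      ((z - 2) * exp z + exp z) := by
    convert (hs1 z).add (hs0 z) using 1
    funext M; ring
  convert step_hasSum z 1 _ _ h (hs1 z) using 1
  ring

theorem hs3 (z : ℂ) : HasSum (fun M : ℕ => ((M : ℂ) - 2) ^ 3 * aa z M)
    ((z ^ 3 - 3 * z ^ 2 + 7 * z - 8) * exp z) := by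
  have h : HasSum (fun M : ℕ => ((M : ℂ) - 1) ^ 2 * aa z M)
      ((z ^ 2 - 3 * z + 4) * exp z + (2 * ((z - 2) * exp z) + exp z)) := by
    convert (hs2 z).add (((hs1 z).mul_left 2).add (hs0 z)) using 1
    funext M; ring
  convert step_hasSum z 2 _ _ h (hs2 z) using 1
  ring

theorem hs4 (z : ℂ) : HasSum (fun M : ℕ => ((M : ℂ) - 2) ^ 4 * aa z M)
    ((z ^ 4 - 2 * z ^ 3 + 7 * z ^ 2 - 15 * z + 16) * exp z) := by
  have h : HasSum (fun M : ℕ => ((M : ℂ) - 1) ^ 3 * aa z M)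
      ((z ^ 3 - 3 * z ^ 2 + 7 * z - 8) * exp z + (3 * ((z ^ 2 - 3 * z + 4) * exp z) +
        (3 * ((z - 2) * exp z) + exp z))) := by
    convert (hs3 z).add (((hs2 z).mul_left 3).add (((hs1 z).mul_left 3).add (hs0 z))) using 1
    funext M; ring
  convert step_hasSum z 3 _ _ h (hs3 z) using 1
  ring

theorem hs5 (z : ℂ) : HasSum (fun M : ℕ => ((M : ℂ) - 2) ^ 5 * aa z M)
    ((z ^ 5 + 5 * z ^ 3 - 15 * z ^ 2 + 31 * z - 32) * exp z) := by
  have h : HasSum (fun M : ℕ => ((M : ℂ) - 1) ^ 4 * aa z M)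
      ((z ^ 4 - 2 * z ^ 3 + 7 * z ^ 2 - 15 * z + 16) * exp z +
        (4 * ((z ^ 3 - 3 * z ^ 2 + 7 * z - 8) * exp z) + (6 * ((z ^ 2 - 3 * z + 4) * exp z) +
        (4 * ((z - 2) * exp z) + exp z)))) := by
    convert (hs4 z).add (((hs3 z).mul_left 4).add (((hs2 z).mul_left 6).add
      (((hs1 z).mul_left 4).add (hs0 z)))) using 1
    funext M; ring
  convert step_hasSum z 4 _ _ h (hs4 z) using 1
  ring

theorem hs6 (z : ℂ) : HasSum (fun M : ℕ => ((M : ℂ) - 2) ^ 6 * aa z M)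
    ((z ^ 6 + 3 * z ^ 5 + 5 * z ^ 4 - 10 * z ^ 3 + 31 * z ^ 2 - 63 * z + 64) * exp z) := by
  have h : HasSum (fun M : ℕ => ((M : ℂ) - 1) ^ 5 * aa z M)
      ((z ^ 5 + 5 * z ^ 3 - 15 * z ^ 2 + 31 * z - 32) * exp z +
        (5 * ((z ^ 4 - 2 * z ^ 3 + 7 * z ^ 2 - 15 * z + 16) * exp z) +
        (10 * ((z ^ 3 - 3 * z ^ 2 + 7 * z - 8) * exp z) + (10 * ((z ^ 2 - 3 * z + 4) * exp z) +
        (5 * ((z - 2) * exp z) + exp z))))) := by
    convert (hs5 z).add (((hs4 z).mul_left 5).add (((hs3 z).mul_left 10).add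
      (((hs2 z).mul_left 10).add (((hs1 z).mul_left 5).add (hs0 z))))) using 1
    funext M; ring
  convert step_hasSum z 5 _ _ h (hs5 z) using 1
  ring

theorem GG_summable (j : ℕ) (z : ℂ) :
    Summable (fun m : ℕ => ((m : ℂ) + 1) ^ j * z ^ (m + 1) / ((m + 3).factorial : ℂ)) := by
  rcases eq_or_ne z 0 with rfl | hz
  · simp
  · have h := (summable_nat_add_iff 3).mpr (aa_summable_pow z j (-2))
    refine (h.mul_left (z ^ 2)⁻¹).congr fun m => ?_
    unfold aa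
    push_cast
    have h1 : ((m + 3).factorial : ℂ) ≠ 0 := Nat.cast_ne_zero.mpr (Nat.factorial_ne_zero _)
    have h2 : (m : ℂ) + 3 + -2 = m + 1 := by ring
    rw [h2]
    field_simp
    ring

theorem closed_aux (j : ℕ) (z p : ℂ) (h : HasSum (fun M : ℕ => ((M : ℂ) - 2) ^ j * aa z M) p) :
    z ^ 2 * GG j z = p - ((-2) ^ j + (-1) ^ j * z + 0 ^ j * (z ^ 2 / 2)) := by
  have h1 := (GG_summable j z).hasSum.mul_left (z ^ 2)
  have h2 := (hasSum_nat_add_iff' (f := fun M : ℕ => ((M : ℂ) - 2) ^ j * aa z M) 3).mpr h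
  have h3 : (fun m : ℕ => z ^ 2 * (((m : ℂ) + 1) ^ j * z ^ (m + 1) / ((m + 3).factorial : ℂ))) =
      fun m : ℕ => (((m + 3 : ℕ) : ℂ) - 2) ^ j * aa z (m + 3) := by
    funext m
    unfold aa
    push_cast
    have h2 : (m : ℂ) + 3 - 2 = m + 1 := by ring
    rw [h2]
    ring
  rw [h3] at h1
  have h4 := h1.unique h2
  unfold GG
  rw [h4]
  simp only [Finset.sum_range_succ, Finset.sum_range_zero, aa]
  have e1 : ((1 : ℕ) : ℂ) - 2 = -1 := by norm_num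
  have e2 : ((2 : ℕ) : ℂ) - 2 = 0 := by norm_num
  have e0 : ((0 : ℕ) : ℂ) - 2 = -2 := by norm_num
  rw [e0, e1, e2]
  simp [Nat.factorial]

theorem GG0_closed (z : ℂ) : z ^ 2 * GG 0 z = exp z - 1 - z - z ^ 2 / 2 := by
  rw [closed_aux 0 z _ (hs0 z)]
  ring

theorem GG1_closed (z : ℂ) : z ^ 2 * GG 1 z = (z - 2) * exp z + 2 + z := by
  rw [closed_aux 1 z _ (hs1 z)]
  ring

theorem GG2_closed (z : ℂ) : z ^ 2 * GG 2 z = (z ^ 2 - 3 * z + 4) * exp z - 4 - z := by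
  rw [closed_aux 2 z _ (hs2 z)]
  ring

theorem GG3_closed (z : ℂ) :
    z ^ 2 * GG 3 z = (z ^ 3 - 3 * z ^ 2 + 7 * z - 8) * exp z + 8 + z := by
  rw [closed_aux 3 z _ (hs3 z)]
  ring

theorem GG4_closed (z : ℂ) :
    z ^ 2 * GG 4 z = (z ^ 4 - 2 * z ^ 3 + 7 * z ^ 2 - 15 * z + 16) * exp z - 16 - z := by
  rw [closed_aux 4 z _ (hs4 z)]
  ring

theorem GG5_closed (z : ℂ) :
    z ^ 2 * GG 5 z = (z ^ 5 + 5 * z ^ 3 - 15 * z ^ 2 + 31 * z - 32) * exp z + 32 + z := by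
  rw [closed_aux 5 z _ (hs5 z)]
  ring

theorem GG6_closed (z : ℂ) : z ^ 2 * GG 6 z =
    (z ^ 6 + 3 * z ^ 5 + 5 * z ^ 4 - 10 * z ^ 3 + 31 * z ^ 2 - 63 * z + 64) * exp z - 64 - z := by
  rw [closed_aux 6 z _ (hs6 z)]
  ring

end BN
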