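import Pool.Agent.Helper76.BN.Defs
import Pool.Agent.Helper2.ST.B02a

/-!
# BN-P5: Taylor expansion of `phi -> GG 0 (z e^{i phi})`; conjugation; real argument

PROOFS.
* `exp_taylor`: for real `x`, `||e^{ix} - sum_{j<n} (ix)^j/j!|| <= |x|^n/n!`: induction on `n`
  (`n = 0`: norm of `e^{ix}` is 1; step: the derivative of the `(n+1)`-st remainder is `i` times the
  `n`-th, it vanishes at 0; integrate, or use `image_norm_le_of_norm_deriv_right_le_deriv_boundary`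
  on `[0,x]` for `x >= 0`; for `x < 0` conjugate).
* `GG0_rot`: termwise: `z^{m+1}/(m+3)! (1 - e^{i (m+1) phi}) + sum_{j=1}^{6} (i phi)^j/j! (m+1)^j
  z^{m+1}/(m+3)! = -(z^{m+1}/(m+3)!) (e^{i x} - sum_{j<7} (ix)^j/j!)`, `x = (m+1) phi`, of norm
  `<= |phi|^7/5040 (m+1)^7 |z|^{m+1}/(m+3)!`; sum over `m` (all series converge absolutely: the
  summability of `(m+1)^j |z|^{m+1}/(m+3)!` by the ratio test, or bound `(m+1)^j <= j! e^{m+1}`).
* `GG_conj`: `Complex.conj_tsum` or `tsum_star` and `map_pow`, `Complex.conj_natCast`.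
* `GG_real`: the value at a real number is a real series; compare with `hc`
  (`hc p 0 = 1`).
-/

namespace BN

open Complex ST3

private theorem p5_deriv (n : ℕ) (x : ℝ) :
    HasDerivAt (fun x : ℝ => exp (I * (x : ℂ)) -
      ∑ j ∈ Finset.range (n + 1), (I * (x : ℂ)) ^ j / (j.factorial : ℂ))
      (I * (exp (I * (x : ℂ)) -
        ∑ j ∈ Finset.range n, (I * (x : ℂ)) ^ j / (j.factorial : ℂ))) x := by
  have h0 : HasDerivAt (fun x : ℝ => (x : ℂ)) 1 x := Complex.ofRealCLM.hasDerivAt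
  have h1 : HasDerivAt (fun x : ℝ => I * (x : ℂ)) (I * 1) x := h0.const_mul I
  have h2 : HasDerivAt (fun x : ℝ => exp (I * (x : ℂ))) (exp (I * (x : ℂ)) * (I * 1)) x := h1.cexp
  have h3 : ∀ j : ℕ, HasDerivAt (fun x : ℝ => (I * (x : ℂ)) ^ (j + 1) /
      (((j + 1).factorial : ℕ) : ℂ)) (I * ((I * (x : ℂ)) ^ j / (j.factorial : ℂ))) x := by
    intro j
    have h4 := (h1.pow (j + 1)).div_const (((j + 1).factorial : ℕ) : ℂ)
    refine h4.congr_deriv ?_
    have h5 : ((j.factorial : ℕ) : ℂ) ≠ 0 := by exact_mod_cast Nat.factorial_ne_zero j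
    have h6 : ((j : ℂ) + 1) ≠ 0 := Nat.cast_add_one_ne_zero j
    rw [Nat.factorial_succ, Nat.add_sub_cancel]
    push_cast
    field_simp
  have h4 : HasDerivAt (fun x : ℝ => ∑ j ∈ Finset.range n, (I * (x : ℂ)) ^ (j + 1) /
      (((j + 1).factorial : ℕ) : ℂ))
      (∑ j ∈ Finset.range n, I * ((I * (x : ℂ)) ^ j / (j.factorial : ℂ))) x :=
    HasDerivAt.fun_sum fun j _ => h3 j
  have h5 : (fun x : ℝ => exp (I * (x : ℂ)) -
      ∑ j ∈ Finset.range (n + 1), (I * (x : ℂ)) ^ j / (j.factorial : ℂ)) =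
      fun x : ℝ => exp (I * (x : ℂ)) - (∑ j ∈ Finset.range n, (I * (x : ℂ)) ^ (j + 1) /
        (((j + 1).factorial : ℕ) : ℂ) + 1) := by
    funext y
    rw [Finset.sum_range_succ']
    simp
  rw [h5]
  refine (h2.sub (h4.add_const 1)).congr_deriv ?_
  rw [← Finset.mul_sum]
  ring

private theorem p5_pos (n : ℕ) : ∀ x : ℝ, 0 ≤ x →
    ‖exp (I * (x : ℂ)) - ∑ j ∈ Finset.range n, (I * (x : ℂ)) ^ j / (j.factorial : ℂ)‖ ≤
      x ^ n / (n.factorial : ℝ) := by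
  induction n with
  | zero =>
    intro x _
    rw [mul_comm]
    simp [Complex.norm_exp_ofReal_mul_I]
  | succ n ih =>
    intro x hx
    have hB : ∀ y : ℝ, HasDerivAt (fun y : ℝ => y ^ (n + 1) / ((n + 1).factorial : ℝ))
        (y ^ n / (n.factorial : ℝ)) y := by
      intro y
      have h4 := (hasDerivAt_pow (n + 1) y).div_const (((n + 1).factorial : ℕ) : ℝ)
      refine h4.congr_deriv ?_
      have h5 : ((n.factorial : ℕ) : ℝ) ≠ 0 := by exact_mod_cast Nat.factorial_ne_zero n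
      have h6 : ((n : ℝ) + 1) ≠ 0 := Nat.cast_add_one_ne_zero n
      rw [Nat.factorial_succ, Nat.add_sub_cancel]
      push_cast
      field_simp
    refine image_norm_le_of_norm_deriv_right_le_deriv_boundary (a := 0) (b := x)
      (f := fun x : ℝ => exp (I * (x : ℂ)) -
      ∑ j ∈ Finset.range (n + 1), (I * (x : ℂ)) ^ j / (j.factorial : ℂ))
      (f' := fun x : ℝ => I * (exp (I * (x : ℂ)) -
        ∑ j ∈ Finset.range n, (I * (x : ℂ)) ^ j / (j.factorial : ℂ)))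
      (B := fun y : ℝ => y ^ (n + 1) / ((n + 1).factorial : ℝ))
      (B' := fun y : ℝ => y ^ n / (n.factorial : ℝ)) ?_ ?_ ?_ hB ?_ (Set.right_mem_Icc.2 hx)
    · exact fun y _ => (p5_deriv n y).continuousAt.continuousWithinAt
    · exact fun y _ => (p5_deriv n y).hasDerivWithinAt
    · rw [Finset.sum_range_succ']
      simp
    · intro y hy
      rw [norm_mul, Complex.norm_I, one_mul]
      exact ih y hy.1

theorem exp_taylor (n : ℕ) (x : ℝ) :
    ‖exp (I * (x : ℂ)) - ∑ j ∈ Finset.range n, (I * (x : ℂ)) ^ j / (j.factorial : ℂ)‖ ≤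
      |x| ^ n / (n.factorial : ℝ) := by
  rcases le_total 0 x with hx | hx
  · rw [abs_of_nonneg hx]
    exact p5_pos n x hx
  · rw [abs_of_nonpos hx]
    have h1 := p5_pos n (-x) (by linarith)
    have h2 : exp (I * (x : ℂ)) - ∑ j ∈ Finset.range n, (I * (x : ℂ)) ^ j / (j.factorial : ℂ) =
        (starRingEnd ℂ) (exp (I * ((-x : ℝ) : ℂ)) -
          ∑ j ∈ Finset.range n, (I * ((-x : ℝ) : ℂ)) ^ j / (j.factorial : ℂ)) := by
      rw [map_sub, map_sum, ← Complex.exp_conj]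
      have h3 : (starRingEnd ℂ) (I * ((-x : ℝ) : ℂ)) = I * (x : ℂ) := by
        rw [map_mul, Complex.conj_I, Complex.conj_ofReal]
        push_cast
        ring
      rw [h3]
      congr 1
      refine Finset.sum_congr rfl fun j _ => ?_
      rw [map_div₀, map_pow, h3, map_natCast]
    rw [h2, Complex.norm_conj]
    exact h1

theorem GG0_rot (z : ℂ) (φ : ℝ) :
    ‖GG 0 z - GG 0 (z * exp ((φ : ℂ) * I)) +
      ∑ j ∈ Finset.Icc 1 6, (I * (φ : ℂ)) ^ j / (j.factorial : ℂ) * GG j z‖ ≤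
      |φ| ^ 7 / 5040 * (GG 7 (‖z‖ : ℂ)).re := by
  have hs : ∀ (j : ℕ) (w : ℂ), HasSum (fun m : ℕ => ((m : ℂ) + 1) ^ j * w ^ (m + 1) /
      ((m + 3).factorial : ℂ)) (GG j w) := fun j w => (GG_summable j w).hasSum
  have h1 : HasSum (fun m : ℕ => ((m : ℂ) + 1) ^ 0 * z ^ (m + 1) / ((m + 3).factorial : ℂ) -
      ((m : ℂ) + 1) ^ 0 * (z * exp ((φ : ℂ) * I)) ^ (m + 1) / ((m + 3).factorial : ℂ) +
      ∑ j ∈ Finset.Icc 1 6, (I * (φ : ℂ)) ^ j / (j.factorial : ℂ) *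
        (((m : ℂ) + 1) ^ j * z ^ (m + 1) / ((m + 3).factorial : ℂ)))
      (GG 0 z - GG 0 (z * exp ((φ : ℂ) * I)) +
      ∑ j ∈ Finset.Icc 1 6, (I * (φ : ℂ)) ^ j / (j.factorial : ℂ) * GG j z) :=
    ((hs 0 z).sub (hs 0 _)).add (hasSum_sum fun j _ => (hs j z).mul_left _)
  have h2 : HasSum (fun m : ℕ => |φ| ^ 7 / 5040 *
      (((m : ℝ) + 1) ^ 7 * ‖z‖ ^ (m + 1) / ((m + 3).factorial : ℝ)))
      (|φ| ^ 7 / 5040 * (GG 7 (‖z‖ : ℂ)).re) := by
    rw [GG_ofReal, Complex.ofReal_re]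
    exact (GG_norm_summable 7 ‖z‖).hasSum.mul_left _
  rw [← h1.tsum_eq]
  refine tsum_of_norm_bounded h2 fun m => ?_
  have hx : ∀ j : ℕ, (I * (((((m : ℝ) + 1) * φ : ℝ)) : ℂ)) ^ j =
      (I * (φ : ℂ)) ^ j * ((m : ℂ) + 1) ^ j := by
    intro j
    rw [← mul_pow]
    congr 1
    push_cast
    ring
  have hexp : (z * exp ((φ : ℂ) * I)) ^ (m + 1) =
      z ^ (m + 1) * exp (I * (((((m : ℝ) + 1) * φ : ℝ)) : ℂ)) := by
    rw [mul_pow, ← Complex.exp_nat_mul]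
    congr 2
    push_cast
    ring
  have h3 : ((m : ℂ) + 1) ^ 0 * z ^ (m + 1) / ((m + 3).factorial : ℂ) -
      ((m : ℂ) + 1) ^ 0 * (z * exp ((φ : ℂ) * I)) ^ (m + 1) / ((m + 3).factorial : ℂ) +
      ∑ j ∈ Finset.Icc 1 6, (I * (φ : ℂ)) ^ j / (j.factorial : ℂ) *
        (((m : ℂ) + 1) ^ j * z ^ (m + 1) / ((m + 3).factorial : ℂ)) =
      -(z ^ (m + 1) / ((m + 3).factorial : ℂ)) *
        (exp (I * (((((m : ℝ) + 1) * φ : ℝ)) : ℂ)) - ∑ j ∈ Finset.range 7,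
          (I * (((((m : ℝ) + 1) * φ : ℝ)) : ℂ)) ^ j / (j.factorial : ℂ)) := by
    rw [hexp]
    simp only [hx]
    have h4 : Finset.Icc 1 6 = (Finset.range 7).erase 0 := by decide
    have h5 : ∑ j ∈ Finset.range 7, (I * (φ : ℂ)) ^ j * ((m : ℂ) + 1) ^ j / (j.factorial : ℂ) =
        1 + ∑ j ∈ (Finset.range 7).erase 0, (I * (φ : ℂ)) ^ j * ((m : ℂ) + 1) ^ j /
          (j.factorial : ℂ) := by
      rw [← Finset.add_sum_erase (Finset.range 7) _ (by decide : 0 ∈ Finset.range 7)]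
      simp
    have h6 : ∑ j ∈ (Finset.range 7).erase 0, (I * (φ : ℂ)) ^ j / (j.factorial : ℂ) *
        (((m : ℂ) + 1) ^ j * z ^ (m + 1) / ((m + 3).factorial : ℂ)) =
        (z ^ (m + 1) / ((m + 3).factorial : ℂ)) *
        ∑ j ∈ (Finset.range 7).erase 0, (I * (φ : ℂ)) ^ j * ((m : ℂ) + 1) ^ j /
          (j.factorial : ℂ) := by
      rw [Finset.mul_sum]
      refine Finset.sum_congr rfl fun j _ => ?_
      ring
    rw [h4, h6, h5]
    ring
  rw [h3, norm_mul, norm_neg, norm_div, norm_pow, Complex.norm_natCast]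
  have h7 := exp_taylor 7 (((m : ℝ) + 1) * φ)
  have h8 : |((m : ℝ) + 1) * φ| ^ 7 / ((7 : ℕ).factorial : ℝ) =
      |φ| ^ 7 / 5040 * ((m : ℝ) + 1) ^ 7 := by
    rw [abs_mul, abs_of_nonneg (by positivity : (0 : ℝ) ≤ (m : ℝ) + 1), mul_pow]
    have : ((7 : ℕ).factorial : ℝ) = 5040 := by norm_num [Nat.factorial]
    rw [this]
    ring
  rw [h8] at h7
  calc ‖z‖ ^ (m + 1) / ((m + 3).factorial : ℝ) * _
      ≤ ‖z‖ ^ (m + 1) / ((m + 3).factorial : ℝ) * (|φ| ^ 7 / 5040 * ((m : ℝ) + 1) ^ 7) :=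
        mul_le_mul_of_nonneg_left h7 (by positivity)
    _ = |φ| ^ 7 / 5040 * (((m : ℝ) + 1) ^ 7 * ‖z‖ ^ (m + 1) / ((m + 3).factorial : ℝ)) := by
        ring

theorem GG_conj (j : ℕ) (z : ℂ) :
    GG j ((starRingEnd ℂ) z) = (starRingEnd ℂ) (GG j z) := by
  exact ST3.GG_conj j z

theorem GG_real (p : ℕ) (t : ℝ) : (GG p (t : ℂ)).re = t / 6 * (TT (hc p) 0 (t : ℂ)).re := by
  have h0 : hc p 0 = 1 := by
    norm_num [hc, Nat.factorial]
  have h1 : TT (hc p) 0 (t : ℂ) = ((∑' j : ℕ, 6 * ((j : ℝ) + 1) ^ p / ((j + 3).factorial : ℝ) *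
      t ^ j : ℝ) : ℂ) := by
    rw [Complex.ofReal_tsum]
    unfold TT
    refine tsum_congr fun j => ?_
    rw [h0, zero_add, div_one]
    unfold hc
    push_cast
    ring
  rw [GG_ofReal, Complex.ofReal_re, h1, Complex.ofReal_re, ← tsum_mul_left]
  refine tsum_congr fun j => ?_
  ring

end BN
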