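import Pool.Agent.Helper76.BN.CF
import Pool.Agent.Helper76.BN.P3
import Pool.Agent.Helper76.BN.P4
import Pool.Agent.Helper76.BN.P5

/-!
Block N of MP_3942cb_co: `GG`, `kap`, `VV`, ... in terms of `Ph 0`, `Ph 1`.
-/

namespace BN

open Complex ST3

theorem exp_half_cosh (z : ℂ) : exp (z / 2) * Complex.cosh (z / 2) = (exp z + 1) / 2 := by
  have e1 : exp (z / 2) * exp (z / 2) = exp z := by
    rw [← Complex.exp_add]; congr 1; ring
  have e2 : exp (z / 2) * exp (-(z / 2)) = 1 := by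
    rw [← Complex.exp_add, add_neg_cancel, Complex.exp_zero]
  rw [Complex.cosh]
  linear_combination (e1 + e2) / 2

theorem exp_half_sinh (z : ℂ) : exp (z / 2) * Complex.sinh (z / 2) = (exp z - 1) / 2 := by
  have e1 : exp (z / 2) * exp (z / 2) = exp z := by
    rw [← Complex.exp_add]; congr 1; ring
  have e2 : exp (z / 2) * exp (-(z / 2)) = 1 := by
    rw [← Complex.exp_add, add_neg_cancel, Complex.exp_zero]
  rw [Complex.sinh]
  linear_combination (e1 - e2) / 2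

theorem GG1_Ph {z : ℂ} (h0 : z ≠ 0) : GG 1 z = z / 6 * exp (z / 2) * Ph 0 (z ^ 2) := by
  have h1 := GG1_closed z
  have h2 := Ph0_closed z
  have h3 := exp_half_cosh z
  have h4 := exp_half_sinh z
  have hz2 : z ^ 2 ≠ 0 := pow_ne_zero 2 h0
  apply mul_left_cancel₀ hz2
  rw [h1]
  have : z ^ 2 * (z / 6 * exp (z / 2) * Ph 0 (z ^ 2)) =
      exp (z / 2) * (z ^ 3 / 6 * Ph 0 (z ^ 2)) := by ring
  rw [this, h2]
  have : exp (z / 2) * (2 * z * Complex.cosh (z / 2) - 4 * Complex.sinh (z / 2)) =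
      2 * z * (exp (z / 2) * Complex.cosh (z / 2)) - 4 * (exp (z / 2) * Complex.sinh (z / 2)) := by
    ring
  rw [this, h3, h4]
  ring

theorem GG2_Ph {z : ℂ} (h0 : z ≠ 0) :
    GG 2 z = (1 + z / 2) * GG 1 z + z ^ 3 / 120 * exp (z / 2) * Ph 1 (z ^ 2) := by
  have h1 := GG1_closed z
  have h2 := GG2_closed z
  have h2' := Ph1_closed z
  have h3 := exp_half_cosh z
  have h4 := exp_half_sinh z
  have hz2 : z ^ 2 ≠ 0 := pow_ne_zero 2 h0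
  apply mul_left_cancel₀ hz2
  have : z ^ 2 * ((1 + z / 2) * GG 1 z + z ^ 3 / 120 * exp (z / 2) * Ph 1 (z ^ 2)) =
      (1 + z / 2) * (z ^ 2 * GG 1 z) + exp (z / 2) * (z ^ 5 / 120 * Ph 1 (z ^ 2)) := by ring
  rw [this, h2, h2', h1]
  have : exp (z / 2) * ((z ^ 2 + 12) * Complex.sinh (z / 2) - 6 * z * Complex.cosh (z / 2)) =
      (z ^ 2 + 12) * (exp (z / 2) * Complex.sinh (z / 2)) -
      6 * z * (exp (z / 2) * Complex.cosh (z / 2)) := by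
    ring
  rw [this, h3, h4]
  ring

theorem GG1_ne {z : ℂ} (h0 : z ≠ 0) (hP : Ph 0 (z ^ 2) ≠ 0) : GG 1 z ≠ 0 := by
  rw [GG1_Ph h0]
  exact mul_ne_zero (mul_ne_zero (div_ne_zero h0 (by norm_num)) (Complex.exp_ne_zero _)) hP

theorem kap_yy {z : ℂ} (h0 : z ≠ 0) (hP : Ph 0 (z ^ 2) ≠ 0) :
    kap z = 1 + z / 2 + 3 * yy 0 (z ^ 2) := by
  have h1 := GG1_Ph h0
  have h2 := GG2_Ph h0
  have hG := GG1_ne h0 hP
  unfold kap
  rw [div_eq_iff hG, h2]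
  rw [h1]
  have he := Complex.exp_ne_zero (z / 2)
  unfold yy
  push_cast
  field_simp
  ring

theorem VV_yy {z : ℂ} (h0 : z ≠ 0) (hP : Ph 0 (z ^ 2) ≠ 0) :
    VV z = 3 - z / 2 + 3 * yy 0 (z ^ 2) := by
  unfold VV; rw [kap_yy h0 hP]; ring

theorem norm_GG1 {z : ℂ} (h0 : z ≠ 0) :
    ‖GG 1 z‖ = ‖z‖ / 6 * (Real.exp (z.re / 2) * ‖Ph 0 (z ^ 2)‖) := by
  rw [GG1_Ph h0, norm_mul, norm_mul, norm_div, Complex.norm_exp]
  have : (z / 2).re = z.re / 2 := by simp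
  rw [this, Complex.norm_ofNat]
  ring

theorem GG0_div {z : ℂ} (hG : GG 1 z ≠ 0) (h0 : z ≠ 0) : GG 0 z / GG 1 z = (VV z - 1) / 2 := by
  have h1 := GG1_closed z
  have h2 := GG2_closed z
  have h3 := GG0_closed z
  have hz2 : z ^ 2 ≠ 0 := pow_ne_zero 2 h0
  have key : 2 * GG 0 z = GG 2 z + (1 - z) * GG 1 z := by
    apply mul_left_cancel₀ hz2
    have e1 : z ^ 2 * (2 * GG 0 z) = 2 * (z ^ 2 * GG 0 z) := by ring
    have e2 : z ^ 2 * (GG 2 z + (1 - z) * GG 1 z) =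
        z ^ 2 * GG 2 z + (1 - z) * (z ^ 2 * GG 1 z) := by ring
    rw [e1, e2, h1, h2, h3]
    ring
  unfold VV kap
  field_simp
  linear_combination key

/-- `E'` -/
noncomputable def Ec (z κ : ℂ) : ℂ :=
  (z ^ 4 + 7 * z ^ 3 - 463 * z ^ 2 - 950 * z + 950) +
    (z ^ 4 + 5 * z ^ 3 - 469 * z ^ 2 + 90731) * κ

/-- `24 O'` -/
noncomputable def Oc (z κ : ℂ) : ℂ :=
  24 * ((z ^ 3 + 4 * z ^ 2 - 315 * z + 30086) + (z ^ 3 + 2 * z ^ 2 - 315 * z + 315) * κ)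

theorem sum_rot {z : ℂ} (h0 : z ≠ 0) (hG : GG 1 z ≠ 0) (s : ℂ) (hs : s ^ 2 = 1) :
    2949120 * (∑ j ∈ Finset.Icc 1 6, (I * (s / 4)) ^ j / (j.factorial : ℂ) * GG j z) =
      -(Ec z (kap z) - I * s * Oc z (kap z)) * GG 1 z := by
  have hk : GG 2 z = kap z * GG 1 z := by unfold kap; field_simp
  have hz2 : z ^ 2 ≠ 0 := pow_ne_zero 2 h0
  have h1 := GG1_closed z
  have h2 := GG2_closed z
  have r3 : GG 3 z = (z + 2) * GG 1 z + (z - 1) * GG 2 z := by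
    apply mul_left_cancel₀ hz2
    linear_combination GG3_closed z - (z + 2) * h1 - (z - 1) * h2
  have r4 : GG 4 z = (z ^ 2 + 2 * z - 2) * GG 1 z + (z ^ 2 + 3) * GG 2 z := by
    apply mul_left_cancel₀ hz2
    linear_combination GG4_closed z - (z ^ 2 + 2 * z - 2) * h1 - (z ^ 2 + 3) * h2
  have r5 : GG 5 z = (z ^ 3 + 4 * z ^ 2 + 5 * z + 6) * GG 1 z +
      (z ^ 3 + 2 * z ^ 2 + 5 * z - 5) * GG 2 z := by
    apply mul_left_cancel₀ hz2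
    linear_combination GG5_closed z - (z ^ 3 + 4 * z ^ 2 + 5 * z + 6) * h1 -
      (z ^ 3 + 2 * z ^ 2 + 5 * z - 5) * h2
  have r6 : GG 6 z = (z ^ 4 + 7 * z ^ 3 + 17 * z ^ 2 + 10 * z - 10) * GG 1 z +
      (z ^ 4 + 5 * z ^ 3 + 11 * z ^ 2 + 11) * GG 2 z := by
    apply mul_left_cancel₀ hz2
    linear_combination GG6_closed z - (z ^ 4 + 7 * z ^ 3 + 17 * z ^ 2 + 10 * z - 10) * h1 -
      (z ^ 4 + 5 * z ^ 3 + 11 * z ^ 2 + 11) * h2
  have hI : I ^ 2 = -1 := Complex.I_sq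
  have hsum : (∑ j ∈ Finset.Icc 1 6, (I * (s / 4)) ^ j / (j.factorial : ℂ) * GG j z) =
      (I * (s / 4)) * GG 1 z + (I * (s / 4)) ^ 2 / 2 * GG 2 z + (I * (s / 4)) ^ 3 / 6 * GG 3 z +
      (I * (s / 4)) ^ 4 / 24 * GG 4 z + (I * (s / 4)) ^ 5 / 120 * GG 5 z +
      (I * (s / 4)) ^ 6 / 720 * GG 6 z := by
    rw [show Finset.Icc 1 6 = ({1, 2, 3, 4, 5, 6} : Finset ℕ) from rfl]
    simp [Nat.factorial]
    ring
  rw [hsum, r3, r4, r5, r6, hk]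
  have i2 : (I * (s / 4)) ^ 2 = -1 / 16 := by
    have : (I * (s / 4)) ^ 2 = I ^ 2 * s ^ 2 / 16 := by ring
    rw [this, hI, hs]; ring
  have i3 : (I * (s / 4)) ^ 3 = -1 / 64 * (I * s) := by
    have : (I * (s / 4)) ^ 3 = (I * (s / 4)) ^ 2 * (I * s) / 4 := by ring
    rw [this, i2]; ring
  have i4 : (I * (s / 4)) ^ 4 = 1 / 256 := by
    have : (I * (s / 4)) ^ 4 = ((I * (s / 4)) ^ 2) ^ 2 := by ring
    rw [this, i2]; ring
  have i5 : (I * (s / 4)) ^ 5 = 1 / 1024 * (I * s) := by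
    have : (I * (s / 4)) ^ 5 = (I * (s / 4)) ^ 4 * (I * s) / 4 := by ring
    rw [this, i4]; ring
  have i6 : (I * (s / 4)) ^ 6 = -1 / 4096 := by
    have : (I * (s / 4)) ^ 6 = ((I * (s / 4)) ^ 2) ^ 3 := by ring
    rw [this, i2]; ring
  rw [i2, i3, i4, i5, i6]
  unfold Ec Oc
  ring

end BN
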