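import Mathlib

/-!
Block N of MP_3942cb_co: primitive operations by raw recursors, fast in the kernel.
-/

set_option linter.unusedSimpArgs false
set_option linter.unusedTactic false

namespace BN

/-- the scale `2^40` -/
def DD : ℕ := 1099511627776

/-- force the evaluation of a natural number in the kernel -/
noncomputable def forceN {β : Type} (n : ℕ) (k : ℕ → β) : β :=
  @Nat.rec (fun _ => β) (k 0) (fun m _ => k (Nat.succ m)) n

/-- force the evaluation of an integer in the kernel -/
noncomputable def forceI {β : Type} (z : ℤ) (k : ℤ → β) : β :=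
  @Int.rec (fun _ => β)
    (fun n => @Nat.rec (fun _ => β) (k (Int.ofNat 0)) (fun m _ => k (Int.ofNat (Nat.succ m))) n)
    (fun n => @Nat.rec (fun _ => β) (k (Int.negSucc 0)) (fun m _ => k (Int.negSucc (Nat.succ m))) n)
    z

/-- negation of a natural number -/
noncomputable def negN (n : ℕ) : ℤ :=
  @Nat.rec (fun _ => ℤ) (Int.ofNat 0) (fun k _ => Int.negSucc k) n

/-- difference of natural numbers -/
noncomputable def subN (m n : ℕ) : ℤ :=
  @Nat.rec (fun _ => ℤ) (Int.ofNat (Nat.sub m n)) (fun k _ => Int.negSucc k) (Nat.sub n m)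

/-- product -/
noncomputable def imul (x y : ℤ) : ℤ :=
  @Int.rec (fun _ => ℤ)
    (fun m => @Int.rec (fun _ => ℤ) (fun n => Int.ofNat (Nat.mul m n))
      (fun n => negN (Nat.mul m (Nat.succ n))) y)
    (fun m => @Int.rec (fun _ => ℤ) (fun n => negN (Nat.mul (Nat.succ m) n))
      (fun n => Int.ofNat (Nat.mul (Nat.succ m) (Nat.succ n))) y) x

/-- sum -/
noncomputable def iadd (x y : ℤ) : ℤ :=
  @Int.rec (fun _ => ℤ)
    (fun m => @Int.rec (fun _ => ℤ) (fun n => Int.ofNat (Nat.add m n))
      (fun n => subN m (Nat.succ n)) y)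
    (fun m => @Int.rec (fun _ => ℤ) (fun n => subN n (Nat.succ m))
      (fun n => Int.negSucc (Nat.succ (Nat.add m n))) y) x

/-- difference -/
noncomputable def isub (x y : ℤ) : ℤ :=
  @Int.rec (fun _ => ℤ)
    (fun m => @Int.rec (fun _ => ℤ) (fun n => subN m n)
      (fun n => Int.ofNat (Nat.add m (Nat.succ n))) y)
    (fun m => @Int.rec (fun _ => ℤ) (fun n => Int.negSucc (Nat.add m n))
      (fun n => subN n m) y) x

/-- floor division of an integer by a natural number -/
noncomputable def fd (x : ℤ) (d : ℕ) : ℤ :=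
  @Int.rec (fun _ => ℤ) (fun m => Int.ofNat (Nat.div m d)) (fun m => Int.negSucc (Nat.div m d)) x

/-- absolute value -/
noncomputable def iab (x : ℤ) : ℕ := @Int.rec (fun _ => ℕ) (fun m => m) (fun m => Nat.succ m) x

/-- comparison of integers -/
noncomputable def leZ (a b : ℤ) : Bool :=
  @Int.rec (fun _ => Bool) (fun _ => true) (fun _ => false) (isub b a)

/-- conjunction -/
noncomputable def band (a b : Bool) : Bool := @Bool.rec (fun _ => Bool) false b a

/-- disjunction -/
noncomputable def bor (a b : Bool) : Bool := @Bool.rec (fun _ => Bool) b true a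

theorem ndiv_eq (a b : ℕ) : Nat.div a b = a / b := rfl

theorem nsub_eq (a b : ℕ) : Nat.sub a b = a - b := rfl

theorem npow_eq (a b : ℕ) : Nat.pow a b = a ^ b := rfl

theorem forceN_eq {β : Type} (n : ℕ) (k : ℕ → β) : forceN n k = k n := by
  cases n <;> rfl

theorem forceI_eq {β : Type} (z : ℤ) (k : ℤ → β) : forceI z k = k z := by
  cases z with
  | ofNat n => cases n <;> rfl
  | negSucc n => cases n <;> rfl

theorem negN_eq (n : ℕ) : negN n = -(n : ℤ) := by
  cases n with
  | zero => rfl
  | succ n => rfl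

theorem subN_eq (m n : ℕ) : subN m n = (m : ℤ) - (n : ℤ) := by
  unfold subN
  cases h : Nat.sub n m with
  | zero =>
    have h' : n - m = 0 := h
    have : n ≤ m := by omega
    simp only [Int.ofNat_eq_natCast]
    change ((m - n : ℕ) : ℤ) = _
    omega
  | succ k =>
    have h' : n - m = k + 1 := h
    simp only [Int.negSucc_eq]
    omega

theorem imul_eq (x y : ℤ) : imul x y = x * y := by
  cases x with
  | ofNat m => cases y with
    | ofNat n => rfl
    | negSucc n => simp only [imul, negN_eq, Int.negSucc_eq, Int.ofNat_eq_natCast, Nat.mul_eq, Nat.add_eq, Nat.succ_eq_add_one]; push_cast; ring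
  | negSucc m => cases y with
    | ofNat n => simp only [imul, negN_eq, Int.negSucc_eq, Int.ofNat_eq_natCast, Nat.mul_eq, Nat.add_eq, Nat.succ_eq_add_one]; push_cast; ring
    | negSucc n => simp only [imul, Int.negSucc_eq, Int.ofNat_eq_natCast, Nat.mul_eq, Nat.add_eq, Nat.succ_eq_add_one]; push_cast; ring

theorem iadd_eq (x y : ℤ) : iadd x y = x + y := by
  cases x with
  | ofNat m => cases y with
    | ofNat n => rfl
    | negSucc n => simp only [iadd, subN_eq, Int.negSucc_eq, Int.ofNat_eq_natCast, Nat.mul_eq, Nat.add_eq, Nat.succ_eq_add_one]; push_cast; ring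
  | negSucc m => cases y with
    | ofNat n => simp only [iadd, subN_eq, Int.negSucc_eq, Int.ofNat_eq_natCast, Nat.mul_eq, Nat.add_eq, Nat.succ_eq_add_one]; push_cast; ring
    | negSucc n => simp only [iadd, Int.negSucc_eq, Nat.mul_eq, Nat.add_eq, Nat.succ_eq_add_one]; push_cast; ring

theorem isub_eq (x y : ℤ) : isub x y = x - y := by
  cases x with
  | ofNat m => cases y with
    | ofNat n => simp only [isub, subN_eq, Int.ofNat_eq_natCast]
    | negSucc n => simp only [isub, Int.negSucc_eq, Int.ofNat_eq_natCast, Nat.mul_eq, Nat.add_eq, Nat.succ_eq_add_one]; push_cast; ring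
  | negSucc m => cases y with
    | ofNat n => simp only [isub, Int.negSucc_eq, Int.ofNat_eq_natCast, Nat.mul_eq, Nat.add_eq, Nat.succ_eq_add_one]; push_cast; ring
    | negSucc n => simp only [isub, subN_eq, Int.negSucc_eq, Nat.mul_eq, Nat.add_eq, Nat.succ_eq_add_one]; push_cast; ring

theorem fd_eq (x : ℤ) {d : ℕ} (hd : 0 < d) : fd x d = x / (d : ℤ) := by
  obtain ⟨d, rfl⟩ : ∃ e, d = e + 1 := ⟨d - 1, by omega⟩
  cases x with
  | ofNat m => rfl
  | negSucc m => rfl

theorem iab_eq (x : ℤ) : iab x = x.natAbs := by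
  cases x <;> rfl

theorem leZ_iff {a b : ℤ} : leZ a b = true ↔ a ≤ b := by
  unfold leZ
  rw [isub_eq]
  cases h : b - a with
  | ofNat n =>
    simp only [Int.ofNat_eq_natCast] at h
    simp only [true_iff]
    omega
  | negSucc n =>
    rw [Int.negSucc_eq] at h
    simp only [Bool.false_eq_true, false_iff]
    omega

theorem band_iff {a b : Bool} : band a b = true ↔ a = true ∧ b = true := by
  cases a <;> cases b <;> simp [band]

theorem bor_iff {a b : Bool} : bor a b = true ↔ a = true ∨ b = true := by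
  cases a <;> cases b <;> simp [bor]

/-- the floor division differs from the quotient by at most one -/
theorem fd_err (x : ℤ) {d : ℕ} (hd : 0 < d) :
    |(x : ℝ) / (d : ℝ) - ((fd x d : ℤ) : ℝ)| ≤ 1 := by
  have hd' : (0 : ℝ) < (d : ℝ) := by exact_mod_cast hd
  have h1 : (d : ℤ) * (x / (d : ℤ)) ≤ x := Int.mul_ediv_self_le (by omega)
  have h2 : x < (d : ℤ) * (x / (d : ℤ)) + d := Int.lt_mul_ediv_self_add (by omega)
  rw [fd_eq x hd]
  have h1' : (d : ℝ) * ((x / (d : ℤ) : ℤ) : ℝ) ≤ x := by exact_mod_cast h1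
  have h2' : (x : ℝ) < (d : ℝ) * ((x / (d : ℤ) : ℤ) : ℝ) + d := by exact_mod_cast h2
  rw [abs_le]
  constructor
  · have : ((x / (d : ℤ) : ℤ) : ℝ) ≤ (x : ℝ) / d := by
      rw [le_div_iff₀ hd']; linarith [mul_comm (d : ℝ) ((x / (d : ℤ) : ℤ) : ℝ)]
    linarith
  · have : (x : ℝ) / d < ((x / (d : ℤ) : ℤ) : ℝ) + 1 := by
      rw [div_lt_iff₀ hd']; linarith [mul_comm (d : ℝ) ((x / (d : ℤ) : ℤ) : ℝ)]
    linarith

end BN
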