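import Pool.Agent.Helper76.BN.ChkA

/-!
Block N of MP_3942cb_co: real bounds (exponential from below, `TT (hc p) 0 t` from above).
-/

namespace BN

/-- Horner scheme, lower bound for the exponential of `x/2` -/
noncomputable def exL (x m : ℕ) : ℕ → ℕ :=
  @Nat.rec (fun _ => ℕ → ℕ) (fun u => u) (fun m ih u =>
    forceN (Nat.add DD (Nat.div (Nat.mul x u) (Nat.mul (Nat.mul 2 (Nat.succ m)) DD))) ih) m

/-- lower bound for the exponential of `x/2` -/
noncomputable def exLo (x : ℤ) : ℕ :=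
  @Int.rec (fun _ => ℕ) (fun n => exL n 14 DD) (fun n => Nat.sub DD (Nat.succ (Nat.div n 2))) x

/-- Horner scheme, upper bound for `TT (hc p) 0 t` -/
noncomputable def hL (p t m : ℕ) : ℕ → ℕ :=
  @Nat.rec (fun _ => ℕ → ℕ) (fun u => u) (fun m ih u =>
    forceN (Nat.add DD (Nat.succ (Nat.div (Nat.mul (Nat.mul u t) (Nat.pow (Nat.add m 2) p))
      (Nat.mul DD (Nat.mul (Nat.pow (Nat.succ m) p) (Nat.add m 4)))))) ih) m

/-- upper bound for `TT (hc p) 0 t` passed to the continuation -/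
noncomputable def hup (p t M : ℕ) (k : ℕ → Bool) : Bool :=
  band (Nat.ble (Nat.mul 2 (Nat.mul t (Nat.pow (Nat.add M 2) p)))
    (Nat.mul DD (Nat.mul (Nat.pow (Nat.succ M) p) (Nat.add M 4))))
  (forceN (hL p t M (Nat.mul 2 DD)) k)

theorem rv_add' (a b : ℕ) : rv (a + b) = rv a + rv b := rv_add a b

theorem rv_DD : rv DD = 1 := by unfold rv DD; norm_num

theorem exL_sound (x : ℕ) (m : ℕ) : ∀ u : ℕ, rv (exL x m u) ≤
    ∑ i ∈ Finset.range m, (rv x / 2) ^ i / (i.factorial : ℝ) +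
      (rv x / 2) ^ m / (m.factorial : ℝ) * rv u := by
  induction m with
  | zero => intro u; simp [exL]
  | succ m ih =>
    intro u
    change rv (forceN (Nat.add DD (Nat.div (Nat.mul x u) (Nat.mul (Nat.mul 2 (Nat.succ m)) DD)))
      (exL x m)) ≤ _
    rw [forceN_eq]
    simp only [Nat.add_eq, Nat.mul_eq, ndiv_eq, Nat.succ_eq_add_one]
    refine (ih _).trans ?_
    have h0 : 0 ≤ rv x / 2 := by have := rv_nonneg x; positivity
    have h1 : rv (DD + x * u / (2 * (m + 1) * DD)) ≤ 1 + (rv x / 2) / ((m : ℝ) + 1) * rv u := by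
      rw [rv_add, rv_DD]
      have : ((x * u / (2 * (m + 1) * DD) : ℕ) : ℝ) ≤ ((x * u : ℕ) : ℝ) /
          ((2 * (m + 1) * DD : ℕ) : ℝ) := Nat.cast_div_le
      have h2 : rv (x * u / (2 * (m + 1) * DD)) ≤ (rv x / 2) / ((m : ℝ) + 1) * rv u := by
        unfold rv
        calc _ ≤ ((x * u : ℕ) : ℝ) / ((2 * (m + 1) * DD : ℕ) : ℝ) / 1099511627776 :=
              div_le_div_of_nonneg_right this (by norm_num)
          _ = _ := by push_cast [DD_cast]; field_simp
      linarith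
    rw [Finset.sum_range_succ]
    have h2 : (rv x / 2) ^ m / (m.factorial : ℝ) * rv (DD + x * u / (2 * (m + 1) * DD)) ≤
        (rv x / 2) ^ m / (m.factorial : ℝ) * (1 + (rv x / 2) / ((m : ℝ) + 1) * rv u) :=
      mul_le_mul_of_nonneg_left h1 (by positivity)
    have h3 : (rv x / 2) ^ (m + 1) / ((m + 1).factorial : ℝ) * rv u =
        (rv x / 2) ^ m / (m.factorial : ℝ) * ((rv x / 2) / ((m : ℝ) + 1) * rv u) := by
      rw [Nat.factorial_succ, pow_succ]; push_cast; field_simp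
    rw [h3]
    linarith

theorem exLo_sound (x : ℤ) : rv (exLo x) ≤ Real.exp ((x : ℝ) / 1099511627776 / 2) := by
  cases x with
  | ofNat n =>
    change rv (exL n 14 DD) ≤ _
    refine (exL_sound n 14 DD).trans ?_
    rw [rv_DD, mul_one, ← Finset.sum_range_succ]
    have e : ((Int.ofNat n : ℤ) : ℝ) / 1099511627776 / 2 = rv n / 2 := by unfold rv; simp
    rw [e]
    exact Real.sum_le_exp_of_nonneg (by have := rv_nonneg n; positivity) _
  | negSucc n =>
    change rv (Nat.sub DD (Nat.succ (Nat.div n 2))) ≤ _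
    simp only [nsub_eq, ndiv_eq, Nat.succ_eq_add_one]
    refine (rv_sub_le _ _).trans (max_le ?_ (Real.exp_pos _).le)
    rw [rv_DD]
    have h1 : ((Int.negSucc n : ℤ) : ℝ) = -((n : ℝ) + 1) := by
      rw [Int.negSucc_eq]; push_cast; ring
    rw [h1]
    have h2 := Real.add_one_le_exp (-((n : ℝ) + 1) / 1099511627776 / 2)
    have h3 : n ≤ 2 * (n / 2) + 1 := by omega
    have h3' : (n : ℝ) ≤ 2 * ((n / 2 : ℕ) : ℝ) + 1 := by exact_mod_cast h3
    have h4 : rv (n / 2 + 1) = (((n / 2 : ℕ) : ℝ) + 1) / 1099511627776 := by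
      unfold rv; push_cast; ring
    rw [h4]
    linarith

theorem hL_sound (p t : ℕ) (m : ℕ) : ∀ u : ℕ, (TT (hc p) m ((rv t : ℝ) : ℂ)).re ≤ rv u →
    (TT (hc p) 0 ((rv t : ℝ) : ℂ)).re ≤ rv (hL p t m u) := by
  induction m with
  | zero => exact fun u h => h
  | succ m ih =>
    intro u h
    change _ ≤ rv (forceN (Nat.add DD (Nat.succ (Nat.div (Nat.mul (Nat.mul u t)
      (Nat.pow (Nat.add m 2) p)) (Nat.mul DD (Nat.mul (Nat.pow (Nat.succ m) p) (Nat.add m 4))))))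
      (hL p t m))
    rw [forceN_eq]
    simp only [Nat.add_eq, Nat.mul_eq, ndiv_eq, Nat.succ_eq_add_one, npow_eq]
    refine ih _ ?_
    have hs := TT_succ (hc_pos p) (hc_tendsto p) m ((rv t : ℝ) : ℂ)
    have hre : (TT (hc p) m ((rv t : ℝ) : ℂ)).re =
        1 + hc p (m + 1) / hc p m * rv t * (TT (hc p) (m + 1) ((rv t : ℝ) : ℂ)).re := by
      rw [hs, ← Complex.ofReal_mul, Complex.add_re, Complex.re_ofReal_mul, Complex.one_re]
    rw [hre, hc_ratio, rv_add, rv_DD]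
    have hq : 0 ≤ ((m : ℝ) + 2) ^ p / (((m : ℝ) + 1) ^ p * ((m : ℝ) + 4)) * rv t := by
      have := rv_nonneg t; positivity
    have h1 := mul_le_mul_of_nonneg_left h hq
    have h2 : ((m : ℝ) + 2) ^ p / (((m : ℝ) + 1) ^ p * ((m : ℝ) + 4)) * rv t * rv u ≤
        rv (u * t * (m + 2) ^ p / (DD * ((m + 1) ^ p * (m + 4))) + 1) := by
      have hpos : 0 < DD * ((m + 1) ^ p * (m + 4)) := by
        have := DD_pos; positivity
      have h3 : u * t * (m + 2) ^ p < (DD * ((m + 1) ^ p * (m + 4))) *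
          (u * t * (m + 2) ^ p / (DD * ((m + 1) ^ p * (m + 4))) + 1) :=
        Nat.lt_mul_div_succ _ hpos
      have h4 : ((u * t * (m + 2) ^ p : ℕ) : ℝ) ≤ ((((DD * ((m + 1) ^ p * (m + 4))) *
          (u * t * (m + 2) ^ p / (DD * ((m + 1) ^ p * (m + 4))) + 1) : ℕ)) : ℝ) := by
        exact_mod_cast h3.le
      rw [Nat.cast_mul (DD * ((m + 1) ^ p * (m + 4)))] at h4
      generalize ((u * t * (m + 2) ^ p / (DD * ((m + 1) ^ p * (m + 4))) + 1 : ℕ) : ℝ) = M at *
      push_cast [DD_cast] at h4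
      have e : ((m : ℝ) + 2) ^ p / (((m : ℝ) + 1) ^ p * ((m : ℝ) + 4)) * rv t * rv u =
          ((u : ℝ) * t * (m + 2) ^ p) / (1099511627776 * (((m : ℝ) + 1) ^ p * ((m : ℝ) + 4))) /
            1099511627776 := by
        unfold rv; field_simp
      rw [e]
      have e2 : rv (u * t * (m + 2) ^ p / (DD * ((m + 1) ^ p * (m + 4))) + 1) =
        ((u * t * (m + 2) ^ p / (DD * ((m + 1) ^ p * (m + 4))) + 1 : ℕ) : ℝ) / 1099511627776 := rfl
      rw [e2]
      apply div_le_div_of_nonneg_right _ (by norm_num)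
      rw [div_le_iff₀ (by positivity)]
      have h5 : ((u * t * (m + 2) ^ p : ℕ) : ℝ) ≤ ((((DD * ((m + 1) ^ p * (m + 4))) *
          (u * t * (m + 2) ^ p / (DD * ((m + 1) ^ p * (m + 4))) + 1) : ℕ)) : ℝ) := by
        exact_mod_cast h3.le
      rw [Nat.cast_mul (DD * ((m + 1) ^ p * (m + 4)))] at h5
      generalize ((u * t * (m + 2) ^ p / (DD * ((m + 1) ^ p * (m + 4))) + 1 : ℕ) : ℝ) = M' at *
      push_cast [DD_cast] at h5
      linarith
    linarith

theorem hup_sound {p t M : ℕ} {k : ℕ → Bool} (h : hup p t M k = true) :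
    ∃ a : ℕ, (TT (hc p) 0 ((rv t : ℝ) : ℂ)).re ≤ rv a ∧ k a = true := by
  simp only [hup, band_iff, forceN_eq] at h
  obtain ⟨h1, h2⟩ := h
  refine ⟨_, ?_, h2⟩
  apply hL_sound
  have h1' := Nat.le_of_ble_eq_true h1
  simp only [Nat.add_eq, Nat.mul_eq, Nat.succ_eq_add_one, npow_eq] at h1' ⊢
  have h1r : ((2 * (t * (M + 2) ^ p) : ℕ) : ℝ) ≤ ((DD * ((M + 1) ^ p * (M + 4)) : ℕ) : ℝ) := by
    exact_mod_cast h1'
  push_cast [DD_cast] at h1r
  have hq : ∀ j, M ≤ j → hc p (j + 1) / hc p j ≤ hc p (M + 1) / hc p M := fun j hj => hc_le p hj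
  have hx : hc p (M + 1) / hc p M * ‖((rv t : ℝ) : ℂ)‖ ≤ 1 / 2 := by
    rw [Complex.norm_real, Real.norm_of_nonneg (rv_nonneg t), hc_ratio]
    unfold rv
    rw [div_mul_div_comm, div_le_div_iff₀ (by positivity) (by norm_num)]
    linarith
  have h3 := TT_sub_one_le (hc_pos p) (hc_tendsto p) hq hx
  have h4 := (Complex.abs_re_le_norm (TT (hc p) M ((rv t : ℝ) : ℂ) - 1)).trans h3
  rw [Complex.sub_re, Complex.one_re] at h4
  have h5 : rv (2 * DD) = 2 := by rw [two_mul, rv_add, rv_DD]; norm_num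
  rw [h5]
  linarith [(abs_le.mp h4).2]

end BN
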