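import Pool.Agent.Helper76.BN.ChkA

/-!
Block N of MP_3942cb_co: kernel evaluation of the check of group A.
-/

namespace BN

theorem runA_m1_3 : verify outQ (chkA 4) 8 (-1) (-3) 0 = true := by decide +kernel

theorem runA_m1_2 : verify outQ (chkA 4) 8 (-1) (-2) 0 = true := by decide +kernel

theorem runA_m1_1 : verify outQ (chkA 4) 8 (-1) (-1) 0 = true := by decide +kernel

theorem runA_0_3 : verify outQ (chkA 4) 8 (0) (-3) 0 = true := by decide +kernel

theorem runA_0_2 : verify outQ (chkA 4) 8 (0) (-2) 0 = true := by decide +kernel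

theorem runA_0_1 : verify outQ (chkA 4) 8 (0) (-1) 0 = true := by decide +kernel

theorem runA_1_3 : verify outQ (chkA 4) 8 (1) (-3) 0 = true := by decide +kernel

theorem runA_1_2 : verify outQ (chkA 4) 8 (1) (-2) 0 = true := by decide +kernel

theorem runA_1_1 : verify outQ (chkA 4) 8 (1) (-1) 0 = true := by decide +kernel

theorem runA_2_3 : verify outQ (chkA 4) 8 (2) (-3) 0 = true := by decide +kernel

theorem runA_2_2 : verify outQ (chkA 4) 8 (2) (-2) 0 = true := by decide +kernel

theorem runA_2_1 : verify outQ (chkA 4) 8 (2) (-1) 0 = true := by decide +kernel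

theorem runA_3_3 : verify outQ (chkA 4) 8 (3) (-3) 0 = true := by decide +kernel

theorem runA_3_2 : verify outQ (chkA 4) 8 (3) (-2) 0 = true := by decide +kernel

theorem runA_3_1 : verify outQ (chkA 4) 8 (3) (-1) 0 = true := by decide +kernel

theorem runA_4_3 : verify outQ (chkA 4) 8 (4) (-3) 0 = true := by decide +kernel

theorem runA_4_2 : verify outQ (chkA 4) 8 (4) (-2) 0 = true := by decide +kernel

theorem runA_4_1 : verify outQ (chkA 4) 8 (4) (-1) 0 = true := by decide +kernel

theorem runA_5_3 : verify outQ (chkA 4) 8 (5) (-3) 0 = true := by decide +kernel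

theorem runA_5_2 : verify outQ (chkA 4) 8 (5) (-2) 0 = true := by decide +kernel

theorem runA_5_1 : verify outQ (chkA 4) 8 (5) (-1) 0 = true := by decide +kernel

theorem runA_6_3 : verify outQ (chkA 7) 8 (6) (-3) 0 = true := by decide +kernel

theorem runA_6_2 : verify outQ (chkA 7) 8 (6) (-2) 0 = true := by decide +kernel

theorem runA_6_1 : verify outQ (chkA 7) 8 (6) (-1) 0 = true := by decide +kernel

theorem runA_7_3 : verify outQ (chkA 7) 8 (7) (-3) 0 = true := by decide +kernel

theorem runA_7_2 : verify outQ (chkA 7) 8 (7) (-2) 0 = true := by decide +kernel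

theorem runA_7_1 : verify outQ (chkA 7) 8 (7) (-1) 0 = true := by decide +kernel

end BN
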