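import Pool.Agent.Helper76.BN.Prim

/-!
Block N of MP_3942cb_co: first order Taylor models over the Gaussian integers (scale `2^40`).
A model `t` encloses `w` at `δ` if `‖w - (a + b δ)‖ ≤ e`.
-/

namespace BN

/-- Taylor models -/
structure T where
  ax : ℤ
  ay : ℤ
  bx : ℤ
  bY : ℤ
  e : ℕ

/-- eliminator -/
noncomputable def T.elim {β : Type} (t : T) (k : ℤ → ℤ → ℤ → ℤ → ℕ → β) : β :=
  @T.rec (fun _ => β) k t

/-- upper bound for the absolute value of a Gaussian integer -/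
noncomputable def nu (x y : ℤ) : ℕ :=
  forceN (iab x) fun a => forceN (iab y) fun b =>
  forceN (Nat.add (Nat.mul a a) (Nat.mul b b)) fun n =>
  forceN (Nat.succ (Nat.div (Nat.add (Nat.add a b) (Nat.div n (Nat.succ (Nat.add a b)))) 2)) fun u =>
  Nat.succ (Nat.div (Nat.add u (Nat.div n u)) 2)

/-- product of two naturals, rounded up -/
noncomputable def mu (a b : ℕ) : ℕ := Nat.succ (Nat.div (Nat.mul a b) DD)

/-- force all the components -/
noncomputable def forceT {β : Type} (t : T) (k : T → β) : β :=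
  T.elim t fun ax ay bx bY e => forceI ax fun ax => forceI ay fun ay => forceI bx fun bx =>
      forceI bY fun bY => forceN e fun e => k ⟨ax, ay, bx, bY, e⟩

/-- sum -/
noncomputable def T.add (s t : T) : T :=
  ⟨iadd s.ax t.ax, iadd s.ay t.ay, iadd s.bx t.bx, iadd s.bY t.bY, Nat.add s.e t.e⟩

/-- difference -/
noncomputable def T.sub (s t : T) : T :=
  ⟨isub s.ax t.ax, isub s.ay t.ay, isub s.bx t.bx, isub s.bY t.bY, Nat.add s.e t.e⟩

/-- add an integer (given scaled) -/
noncomputable def T.addc (s : T) (n : ℤ) : T := ⟨iadd s.ax n, s.ay, s.bx, s.bY, s.e⟩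

/-- real part of a product, rounded -/
noncomputable def rmx (ax ay cx cy : ℤ) : ℤ := fd (isub (imul ax cx) (imul ay cy)) DD

/-- imaginary part of a product, rounded -/
noncomputable def rmy (ax ay cx cy : ℤ) : ℤ := fd (iadd (imul ax cy) (imul ay cx)) DD

/-- product -/
noncomputable def T.mul (r : ℕ) (s t : T) : T :=
  T.elim s fun ax ay bx bY e => T.elim t fun cx cy dx dy f =>
    forceN (nu ax ay) fun na => forceN (nu cx cy) fun nc =>
    forceN (mu (nu bx bY) r) fun nb => forceN (mu (nu dx dy) r) fun nd =>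
    ⟨rmx ax ay cx cy, rmy ax ay cx cy, iadd (rmx ax ay dx dy) (rmx bx bY cx cy),
      iadd (rmy ax ay dx dy) (rmy bx bY cx cy),
      Nat.add (Nat.add (mu nb nd) (mu (Nat.add na nb) f))
        (Nat.add (mu (Nat.add (Nat.add nc nd) f) e) 6)⟩

/-- square -/
noncomputable def T.sq (r : ℕ) (s : T) : T :=
  T.elim s fun ax ay bx bY e =>
    forceN (nu ax ay) fun na => forceN (mu (nu bx bY) r) fun nb =>
    ⟨rmx ax ay ax ay, rmy ax ay ax ay, imul 2 (rmx ax ay bx bY), imul 2 (rmy ax ay bx bY),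
      Nat.add (mu nb nb) (Nat.add (mu (Nat.add (Nat.add (Nat.mul 2 na) (Nat.mul 2 nb)) e) e) 6)⟩

/-- real part of a quotient of Gaussian integers, scaled; `n` is the squared denominator -/
noncomputable def qx (ax ay cx cy : ℤ) (n : ℕ) : ℤ :=
  fd (imul (iadd (imul ax cx) (imul ay cy)) (Int.ofNat DD)) n

/-- imaginary part of a quotient -/
noncomputable def qy (ax ay cx cy : ℤ) (n : ℕ) : ℤ :=
  fd (imul (isub (imul ay cx) (imul ax cy)) (Int.ofNat DD)) n

/-- quotient `s / t` passed to the continuation; `false` means failure -/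
noncomputable def divT (r : ℕ) (s t : T) (k : T → Bool) : Bool :=
  T.elim s fun ax ay bx bY e => T.elim t fun cx cy dx dy f =>
    forceN (iab (iadd (imul cx cx) (imul cy cy))) fun n =>
    forceI (qx ax ay cx cy n) fun ix => forceI (qy ax ay cx cy n) fun iy =>
    forceI (isub bx (rmx ix iy dx dy)) fun kx =>
    forceI (isub bY (rmy ix iy dx dy)) fun ky =>
    forceI (qx kx ky cx cy n) fun jx => forceI (qy kx ky cx cy n) fun jy =>
    forceN (mu (nu dx dy) r) fun nd => forceN (mu (nu jx jy) r) fun nj =>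
    forceN (Nat.sub (Nat.sub (Nat.div n (nu cx cy)) nd) f) fun l =>
    band (Nat.ble 1 l)
      (forceN (Nat.add (nu (isub ax (rmx ix iy cx cy)) (isub ay (rmy ix iy cx cy))) 2) fun e0 =>
      forceN (Nat.add (nu (isub kx (rmx jx jy cx cy)) (isub ky (rmy jx jy cx cy))) 4) fun e1 =>
      forceN (Nat.succ (Nat.div (Nat.mul (Nat.add (Nat.add e0 (mu e1 r))
        (Nat.add (mu nd nj) (Nat.add e (mu f (Nat.add (nu ix iy) nj))))) DD) l)) fun g =>
      k ⟨ix, iy, jx, jy, g⟩)

/-- product passed to the continuation -/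
noncomputable def mulT (r : ℕ) (s t : T) (k : T → Bool) : Bool := forceT (T.mul r s t) k

/-- square passed to the continuation -/
noncomputable def sqT (r : ℕ) (s : T) (k : T → Bool) : Bool := forceT (T.sq r s) k

/-- division by a small natural number -/
noncomputable def T.sdiv (s : T) (k : ℕ) : T :=
  ⟨fd s.ax k, fd s.ay k, fd s.bx k, fd s.bY k, Nat.add (Nat.div s.e k) 5⟩

/-- radius of the linear part plus error -/
noncomputable def T.dev (r : ℕ) (t : T) : ℕ := Nat.add (mu (nu t.bx t.bY) r) t.e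

/-- upper bound for the absolute value -/
noncomputable def T.hi (r : ℕ) (t : T) : ℕ := Nat.add (nu t.ax t.ay) (t.dev r)

/-- lower bound for the absolute value -/
noncomputable def T.lo (r : ℕ) (t : T) : ℕ :=
  Nat.sub (Nat.div (iab (iadd (imul t.ax t.ax) (imul t.ay t.ay))) (nu t.ax t.ay)) (t.dev r)

/-- scaled integer multiple -/
noncomputable def T.zmul (n : ℤ) (s : T) : T :=
  ⟨imul n s.ax, imul n s.ay, imul n s.bx, imul n s.bY, Nat.mul (iab n) s.e⟩

/-- multiplication by `i` -/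
noncomputable def T.mulI (s : T) : T := ⟨isub 0 s.ay, s.ax, isub 0 s.bY, s.bx, s.e⟩

/-- real value of a natural number of units -/
noncomputable def rv (n : ℕ) : ℝ := (n : ℝ) / 1099511627776

/-- complex value of a pair of integers -/
noncomputable def cv (x y : ℤ) : ℂ := ⟨(x : ℝ) / 1099511627776, (y : ℝ) / 1099511627776⟩

/-- the model `t` encloses `w` at `δ` -/
def Enc (δ : ℂ) (t : T) (w : ℂ) : Prop :=
  ‖w - (cv t.ax t.ay + cv t.bx t.bY * δ)‖ ≤ rv t.e

theorem forceT_eq {β : Type} (t : T) (k : T → β) : forceT t k = k t := by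
  cases t
  simp only [forceT, T.elim, forceN_eq, forceI_eq]

theorem newton (n u : ℕ) (hu : 0 < u) : n ≤ ((u + n / u) / 2 + 1) ^ 2 := by
  have h1 : n < u * (n / u + 1) := Nat.lt_mul_div_succ n hu
  generalize n / u = q at *
  have h2 : u + q + 1 ≤ 2 * ((u + q) / 2 + 1) := by omega
  generalize (u + q) / 2 + 1 = v at *
  zify at *
  nlinarith [sq_nonneg ((u : ℤ) - (q + 1))]

theorem nu_nat (x y : ℤ) : x.natAbs * x.natAbs + y.natAbs * y.natAbs ≤ (nu x y) ^ 2 := by
  unfold nu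
  simp only [forceN_eq, iab_eq, Nat.mul_eq, Nat.add_eq, ndiv_eq, Nat.succ_eq_add_one]
  exact newton _ _ (Nat.succ_pos _)

theorem nu_pos (x y : ℤ) : 0 < nu x y := by
  unfold nu
  simp only [forceN_eq]
  exact Nat.succ_pos _

theorem natAbs_sq_cast (x : ℤ) : ((x.natAbs * x.natAbs : ℕ) : ℝ) = (x : ℝ) ^ 2 := by
  have : ((x.natAbs * x.natAbs : ℕ) : ℤ) = x ^ 2 := by
    rw [Int.natAbs_mul_self]; ring
  have h2 := congrArg (fun z : ℤ => (z : ℝ)) this
  rw [← Int.cast_natCast (x.natAbs * x.natAbs)]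
  rw [this]
  push_cast
  rfl

theorem cv_sq (x y : ℤ) :
    ‖cv x y‖ ^ 2 = ((x : ℝ) ^ 2 + (y : ℝ) ^ 2) / 1099511627776 ^ 2 := by
  rw [Complex.sq_norm, Complex.normSq_apply]
  simp only [cv]
  field_simp

theorem nu_spec (x y : ℤ) : ‖cv x y‖ ≤ rv (nu x y) := by
  have h0 : 0 ≤ rv (nu x y) := by unfold rv; positivity
  rw [← sq_le_sq₀ (norm_nonneg _) h0, cv_sq, rv, div_pow]
  have h := nu_nat x y
  have h' : (((x.natAbs * x.natAbs + y.natAbs * y.natAbs : ℕ)) : ℝ) ≤ (((nu x y) ^ 2 : ℕ) : ℝ) := by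
    exact_mod_cast h
  rw [Nat.cast_add, natAbs_sq_cast, natAbs_sq_cast, Nat.cast_pow] at h'
  exact div_le_div_of_nonneg_right h' (by positivity)

theorem rv_nonneg (n : ℕ) : 0 ≤ rv n := by unfold rv; positivity

theorem rv_add (a b : ℕ) : rv (a + b) = rv a + rv b := by
  unfold rv; push_cast; ring

theorem rv_mono {a b : ℕ} (h : a ≤ b) : rv a ≤ rv b := by
  unfold rv
  have : (a : ℝ) ≤ b := by exact_mod_cast h
  gcongr

theorem DD_pos : 0 < DD := by unfold DD; norm_num

theorem mu_spec (a b : ℕ) : rv a * rv b ≤ rv (mu a b) := by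
  unfold mu rv
  simp only [Nat.mul_eq, ndiv_eq, Nat.succ_eq_add_one]
  have h : a * b < DD * (a * b / DD + 1) := Nat.lt_mul_div_succ _ DD_pos
  have h' : ((a * b : ℕ) : ℝ) ≤ ((DD * (a * b / DD + 1) : ℕ) : ℝ) := by exact_mod_cast h.le
  push_cast at h' ⊢
  simp only [DD] at h' ⊢
  push_cast at h'
  rw [div_mul_div_comm, div_le_div_iff₀ (by norm_num) (by norm_num)]
  nlinarith

theorem norm_le_two {w : ℂ} {e : ℝ} (h1 : |w.re| ≤ e) (h2 : |w.im| ≤ e) : ‖w‖ ≤ 2 * e := by
  have := Complex.norm_le_abs_re_add_abs_im w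
  linarith

theorem fdD_err (x : ℤ) :
    |(x : ℝ) / 1099511627776 / 1099511627776 - ((fd x DD : ℤ) : ℝ) / 1099511627776| ≤
      1 / 1099511627776 := by
  have h := fd_err x DD_pos
  have h2 : (x : ℝ) / 1099511627776 / 1099511627776 - ((fd x DD : ℤ) : ℝ) / 1099511627776 =
      ((x : ℝ) / (DD : ℝ) - ((fd x DD : ℤ) : ℝ)) / 1099511627776 := by
    simp only [DD]; push_cast; ring
  rw [h2, abs_div]
  have h3 : |(1099511627776 : ℝ)| = 1099511627776 := abs_of_pos (by norm_num)
  rw [h3]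
  gcongr

theorem rm_spec (ax ay cx cy : ℤ) :
    ‖cv ax ay * cv cx cy - cv (rmx ax ay cx cy) (rmy ax ay cx cy)‖ ≤ rv 2 := by
  have h1 := fdD_err (ax * cx - ay * cy)
  have h2 := fdD_err (ax * cy + ay * cx)
  have : rv 2 = 2 * (1 / 1099511627776) := by unfold rv; push_cast; ring
  rw [this]
  apply norm_le_two
  · simp only [Complex.sub_re, Complex.mul_re, cv, rmx, isub_eq, imul_eq]
    have e : (ax : ℝ) / 1099511627776 * ((cx : ℝ) / 1099511627776) -
        (ay : ℝ) / 1099511627776 * ((cy : ℝ) / 1099511627776) =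
        ((ax * cx - ay * cy : ℤ) : ℝ) / 1099511627776 / 1099511627776 := by push_cast; ring
    rw [e]; exact h1
  · simp only [Complex.sub_im, Complex.mul_im, cv, rmy, iadd_eq, imul_eq]
    have e : (ax : ℝ) / 1099511627776 * ((cy : ℝ) / 1099511627776) +
        (ay : ℝ) / 1099511627776 * ((cx : ℝ) / 1099511627776) =
        ((ax * cy + ay * cx : ℤ) : ℝ) / 1099511627776 / 1099511627776 := by push_cast; ring
    rw [e]; exact h2

theorem cv_add (a b c d : ℤ) : cv (a + c) (b + d) = cv a b + cv c d := by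
  apply Complex.ext <;> simp [cv] <;> ring

theorem cv_sub (a b c d : ℤ) : cv (a - c) (b - d) = cv a b - cv c d := by
  apply Complex.ext <;> simp [cv] <;> ring

theorem cv_zmul (n a b : ℤ) : cv (n * a) (n * b) = (n : ℂ) * cv a b := by
  apply Complex.ext <;> simp [cv] <;> ring

theorem Enc.add {δ : ℂ} {s t : T} {v w : ℂ} (hs : Enc δ s v) (ht : Enc δ t w) :
    Enc δ (s.add t) (v + w) := by
  unfold Enc at *
  simp only [T.add, iadd_eq, cv_add, Nat.add_eq, rv_add]
  have e : v + w - (cv s.ax s.ay + cv t.ax t.ay + (cv s.bx s.bY + cv t.bx t.bY) * δ) =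
      (v - (cv s.ax s.ay + cv s.bx s.bY * δ)) + (w - (cv t.ax t.ay + cv t.bx t.bY * δ)) := by ring
  rw [e]
  exact (norm_add_le _ _).trans (add_le_add hs ht)

theorem Enc.sub {δ : ℂ} {s t : T} {v w : ℂ} (hs : Enc δ s v) (ht : Enc δ t w) :
    Enc δ (s.sub t) (v - w) := by
  unfold Enc at *
  simp only [T.sub, isub_eq, cv_sub, Nat.add_eq, rv_add]
  have e : v - w - (cv s.ax s.ay - cv t.ax t.ay + (cv s.bx s.bY - cv t.bx t.bY) * δ) =
      (v - (cv s.ax s.ay + cv s.bx s.bY * δ)) - (w - (cv t.ax t.ay + cv t.bx t.bY * δ)) := by ring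
  rw [e]
  exact (norm_sub_le _ _).trans (add_le_add hs ht)

theorem Enc.addc {δ : ℂ} {s : T} {v : ℂ} (hs : Enc δ s v) (n : ℤ) :
    Enc δ (s.addc n) (v + cv n 0) := by
  unfold Enc at *
  simp only [T.addc, iadd_eq]
  have e : v + cv n 0 - (cv (s.ax + n) s.ay + cv s.bx s.bY * δ) =
      (v - (cv s.ax s.ay + cv s.bx s.bY * δ)) := by
    have := cv_add s.ax s.ay n 0
    rw [add_zero] at this
    rw [this]; ring
  rw [e]
  exact hs

theorem cv_int (n : ℤ) : cv (n * (DD : ℤ)) 0 = (n : ℂ) := by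
  apply Complex.ext
  · simp only [cv, DD, Complex.intCast_re]; push_cast; field_simp
  · simp [cv]

theorem Enc.zmul {δ : ℂ} {s : T} {v : ℂ} (hs : Enc δ s v) (n : ℤ) :
    Enc δ (T.zmul n s) ((n : ℂ) * v) := by
  unfold Enc at *
  simp only [T.zmul, imul_eq, cv_zmul]
  have e : (n : ℂ) * v - ((n : ℂ) * cv s.ax s.ay + (n : ℂ) * cv s.bx s.bY * δ) =
      (n : ℂ) * (v - (cv s.ax s.ay + cv s.bx s.bY * δ)) := by ring
  rw [e, norm_mul]
  have h1 : ‖(n : ℂ)‖ = ((n.natAbs : ℕ) : ℝ) := by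
    rw [Complex.norm_intCast, Nat.cast_natAbs, Int.cast_abs]
  have h2 : rv (Nat.mul (iab n) s.e) = ((n.natAbs : ℕ) : ℝ) * rv s.e := by
    simp only [rv, iab_eq, Nat.mul_eq]; push_cast; ring
  rw [h1, h2]
  exact mul_le_mul_of_nonneg_left hs (by positivity)

theorem Enc.mulI {δ : ℂ} {s : T} {v : ℂ} (hs : Enc δ s v) :
    Enc δ (T.mulI s) (Complex.I * v) := by
  unfold Enc at *
  have h1 : ∀ a b : ℤ, cv (isub 0 b) a = Complex.I * cv a b := by
    intro a b
    apply Complex.ext <;> simp [cv, isub_eq]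
    ring
  simp only [T.mulI, h1]
  have e : Complex.I * v - (Complex.I * cv s.ax s.ay + Complex.I * cv s.bx s.bY * δ) =
      Complex.I * (v - (cv s.ax s.ay + cv s.bx s.bY * δ)) := by ring
  rw [e, norm_mul, Complex.norm_I, one_mul]
  exact hs

end BN
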