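import Pool.Agent.Helper76.BN.TM

/-!
Block N of MP_3942cb_co: soundness of product, square, quotient of Taylor models.
-/

namespace BN

theorem rv_two : rv 2 = 2 / 1099511627776 := by unfold rv; push_cast; ring

theorem Enc.norm_le {δ : ℂ} {r : ℕ} {t : T} {w : ℂ} (hδ : ‖δ‖ ≤ rv r) (ht : Enc δ t w) :
    ‖w‖ ≤ rv (nu t.ax t.ay) + rv (mu (nu t.bx t.bY) r) + rv t.e := by
  have e : w = cv t.ax t.ay + cv t.bx t.bY * δ + (w - (cv t.ax t.ay + cv t.bx t.bY * δ)) := by ring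
  have h2 : ‖cv t.bx t.bY * δ‖ ≤ rv (mu (nu t.bx t.bY) r) := by
    rw [norm_mul]
    refine le_trans ?_ (mu_spec _ _)
    exact mul_le_mul (nu_spec _ _) hδ (norm_nonneg _) (rv_nonneg _)
  have h3 := nu_spec t.ax t.ay
  calc ‖w‖ = ‖cv t.ax t.ay + cv t.bx t.bY * δ + (w - (cv t.ax t.ay + cv t.bx t.bY * δ))‖ := by
        rw [← e]
    _ ≤ ‖cv t.ax t.ay + cv t.bx t.bY * δ‖ + ‖w - (cv t.ax t.ay + cv t.bx t.bY * δ)‖ :=
        norm_add_le _ _
    _ ≤ (‖cv t.ax t.ay‖ + ‖cv t.bx t.bY * δ‖) + rv t.e := add_le_add (norm_add_le _ _) ht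
    _ ≤ _ := by linarith

theorem norm_mul_le_mu {a b : ℂ} {m n : ℕ} (ha : ‖a‖ ≤ rv m) (hb : ‖b‖ ≤ rv n) :
    ‖a * b‖ ≤ rv (mu m n) := by
  rw [norm_mul]
  exact (mul_le_mul ha hb (norm_nonneg _) (rv_nonneg _)).trans (mu_spec _ _)

theorem Enc.mul {δ : ℂ} {r : ℕ} {s t : T} {v w : ℂ} (hδ : ‖δ‖ ≤ rv r) (hr : rv r ≤ 1)
    (hs : Enc δ s v) (ht : Enc δ t w) : Enc δ (T.mul r s t) (v * w) := by
  have hw := ht.norm_le hδ
  obtain ⟨ax, ay, bx, bY, e⟩ := s
  obtain ⟨cx, cy, dx, dy, f⟩ := t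
  unfold Enc at hs ht ⊢
  simp only [T.mul, T.elim, forceN_eq, iadd_eq, cv_add, Nat.add_eq, rv_add] at hs ht hw ⊢
  have hδ1 : ‖δ‖ ≤ 1 := hδ.trans hr
  have hB := norm_mul_le_mu (nu_spec bx bY) hδ
  have hD := norm_mul_le_mu (nu_spec dx dy) hδ
  have hA := nu_spec ax ay
  have h1 := rm_spec ax ay cx cy
  have h2 := rm_spec ax ay dx dy
  have h3 := rm_spec bx bY cx cy
  set A := cv ax ay
  set B := cv bx bY
  set C := cv cx cy
  set D := cv dx dy
  set P := cv (rmx ax ay cx cy) (rmy ax ay cx cy)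
  set Q1 := cv (rmx ax ay dx dy) (rmy ax ay dx dy)
  set Q2 := cv (rmx bx bY cx cy) (rmy bx bY cx cy)
  set R1 := v - (A + B * δ)
  set R2 := w - (C + D * δ)
  have e0 : v * w - (P + (Q1 + Q2) * δ) = (A * C - P) + ((A * D - Q1) + (B * C - Q2)) * δ +
      (B * δ) * (D * δ) + (A + B * δ) * R2 + w * R1 := by
    simp only [R1, R2]; ring
  rw [e0]
  have hAB : ‖A + B * δ‖ ≤ rv (nu ax ay + mu (nu bx bY) r) := by
    rw [rv_add]; exact (norm_add_le _ _).trans (add_le_add hA hB)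
  have hw' : ‖w‖ ≤ rv (nu cx cy + mu (nu dx dy) r + f) := by
    rw [rv_add, rv_add]; exact hw
  have n1 := norm_mul_le_mu hB hD
  have n2 := norm_mul_le_mu hAB ht
  have n3 := norm_mul_le_mu hw' hs
  have n4 : ‖((A * D - Q1) + (B * C - Q2)) * δ‖ ≤ rv 2 + rv 2 := by
    rw [norm_mul]
    have := norm_add_le (A * D - Q1) (B * C - Q2)
    calc ‖(A * D - Q1) + (B * C - Q2)‖ * ‖δ‖ ≤ (rv 2 + rv 2) * 1 := by
          apply mul_le_mul (this.trans (add_le_add h2 h3)) hδ1 (norm_nonneg _)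
          have := rv_nonneg 2; linarith
      _ = _ := by ring
  have h6 : rv 6 = rv 2 + rv 2 + rv 2 := by
    rw [show (6 : ℕ) = 2 + 2 + 2 from rfl, rv_add, rv_add]
  rw [h6]
  calc _ ≤ ‖A * C - P‖ + ‖((A * D - Q1) + (B * C - Q2)) * δ‖ + ‖(B * δ) * (D * δ)‖ +
        ‖(A + B * δ) * R2‖ + ‖w * R1‖ := by
        refine (norm_add_le _ _).trans (add_le_add_left ?_ _)
        refine (norm_add_le _ _).trans (add_le_add_left ?_ _)
        refine (norm_add_le _ _).trans (add_le_add_left ?_ _)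
        exact norm_add_le _ _
    _ ≤ _ := by linarith

theorem Enc.sq {δ : ℂ} {r : ℕ} {s : T} {v : ℂ} (hδ : ‖δ‖ ≤ rv r) (hr : rv r ≤ 1)
    (hs : Enc δ s v) : Enc δ (T.sq r s) (v ^ 2) := by
  have hv := hs.norm_le hδ
  obtain ⟨ax, ay, bx, bY, e⟩ := s
  unfold Enc at hs ⊢
  simp only [T.sq, T.elim, forceN_eq, imul_eq, cv_zmul, Nat.add_eq, Nat.mul_eq, rv_add]
    at hs hv ⊢
  have hδ1 : ‖δ‖ ≤ 1 := hδ.trans hr
  have hB := norm_mul_le_mu (nu_spec bx bY) hδ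
  have hA := nu_spec ax ay
  have h1 := rm_spec ax ay ax ay
  have h2 := rm_spec ax ay bx bY
  set A := cv ax ay
  set B := cv bx bY
  set P := cv (rmx ax ay ax ay) (rmy ax ay ax ay)
  set Q := cv (rmx ax ay bx bY) (rmy ax ay bx bY)
  set R1 := v - (A + B * δ)
  have e0 : v ^ 2 - (P + ((2 : ℤ) : ℂ) * Q * δ) = (A * A - P) + 2 * (A * B - Q) * δ +
      (B * δ) * (B * δ) + (v + (A + B * δ)) * R1 := by
    simp only [R1]; push_cast; ring
  rw [e0]
  have hAB : ‖v + (A + B * δ)‖ ≤ rv (2 * nu ax ay + 2 * mu (nu bx bY) r + e) := by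
    have e1 : v + (A + B * δ) = (A + B * δ) + (A + B * δ) + R1 := by simp only [R1]; ring
    rw [e1, rv_add, rv_add]
    have t1 : rv (2 * nu ax ay) = rv (nu ax ay) + rv (nu ax ay) := by rw [two_mul, rv_add]
    have t2 : rv (2 * mu (nu bx bY) r) = rv (mu (nu bx bY) r) + rv (mu (nu bx bY) r) := by
      rw [two_mul, rv_add]
    rw [t1, t2]
    have := norm_add_le (A + B * δ + (A + B * δ)) R1
    have := norm_add_le (A + B * δ) (A + B * δ)
    have := norm_add_le A (B * δ)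
    linarith
  have n1 := norm_mul_le_mu hB hB
  have n3 := norm_mul_le_mu hAB hs
  have n4 : ‖2 * (A * B - Q) * δ‖ ≤ rv 2 + rv 2 := by
    rw [norm_mul, norm_mul, Complex.norm_ofNat]
    calc 2 * ‖A * B - Q‖ * ‖δ‖ ≤ 2 * rv 2 * 1 := by
          apply mul_le_mul _ hδ1 (norm_nonneg _)
          · have := rv_nonneg 2; linarith
          · linarith
      _ = _ := by ring
  have h6 : rv 6 = rv 2 + rv 2 + rv 2 := by
    rw [show (6 : ℕ) = 2 + 2 + 2 from rfl, rv_add, rv_add]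
  rw [h6]
  calc _ ≤ ‖A * A - P‖ + ‖2 * (A * B - Q) * δ‖ + ‖(B * δ) * (B * δ)‖ +
        ‖(v + (A + B * δ)) * R1‖ := by
        refine (norm_add_le _ _).trans (add_le_add_left ?_ _)
        refine (norm_add_le _ _).trans (add_le_add_left ?_ _)
        exact norm_add_le _ _
    _ ≤ _ := by linarith

theorem fdk_err (x : ℤ) {k : ℕ} (hk : 0 < k) :
    |(x : ℝ) / 1099511627776 / (k : ℝ) - ((fd x k : ℤ) : ℝ) / 1099511627776| ≤
      1 / 1099511627776 := by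
  have h := fd_err x hk
  have h2 : (x : ℝ) / 1099511627776 / (k : ℝ) - ((fd x k : ℤ) : ℝ) / 1099511627776 =
      ((x : ℝ) / (k : ℝ) - ((fd x k : ℤ) : ℝ)) / 1099511627776 := by
    ring
  rw [h2, abs_div]
  have h3 : |(1099511627776 : ℝ)| = 1099511627776 := abs_of_pos (by norm_num)
  rw [h3]
  gcongr

theorem cv_fd (x y : ℤ) {k : ℕ} (hk : 0 < k) :
    ‖cv x y / (k : ℂ) - cv (fd x k) (fd y k)‖ ≤ rv 2 := by
  have : rv 2 = 2 * (1 / 1099511627776) := by unfold rv; push_cast; ring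
  rw [this]
  apply norm_le_two
  · have e : (cv x y / (k : ℂ) - cv (fd x k) (fd y k)).re =
        (x : ℝ) / 1099511627776 / (k : ℝ) - ((fd x k : ℤ) : ℝ) / 1099511627776 := by
      rw [Complex.sub_re, Complex.div_natCast_re]; rfl
    rw [e]; exact fdk_err x hk
  · have e : (cv x y / (k : ℂ) - cv (fd x k) (fd y k)).im =
        (y : ℝ) / 1099511627776 / (k : ℝ) - ((fd y k : ℤ) : ℝ) / 1099511627776 := by
      rw [Complex.sub_im, Complex.div_natCast_im]; rfl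
    rw [e]; exact fdk_err y hk

theorem Enc.sdiv {δ : ℂ} {r : ℕ} {s : T} {v : ℂ} (hδ : ‖δ‖ ≤ rv r) (hr : rv r ≤ 1)
    (hs : Enc δ s v) {k : ℕ} (hk : 0 < k) : Enc δ (s.sdiv k) (v / (k : ℂ)) := by
  unfold Enc at *
  simp only [T.sdiv, Nat.add_eq, ndiv_eq]
  have hδ1 : ‖δ‖ ≤ 1 := hδ.trans hr
  have hkc : (k : ℂ) ≠ 0 := by exact_mod_cast hk.ne'
  have h1 := cv_fd s.ax s.ay hk
  have h2 := cv_fd s.bx s.bY hk
  have e0 : v / (k : ℂ) - (cv (fd s.ax k) (fd s.ay k) + cv (fd s.bx k) (fd s.bY k) * δ) =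
      (cv s.ax s.ay / (k : ℂ) - cv (fd s.ax k) (fd s.ay k)) +
      (cv s.bx s.bY / (k : ℂ) - cv (fd s.bx k) (fd s.bY k)) * δ +
      (v - (cv s.ax s.ay + cv s.bx s.bY * δ)) / (k : ℂ) := by ring
  rw [e0]
  have n1 : ‖(cv s.bx s.bY / (k : ℂ) - cv (fd s.bx k) (fd s.bY k)) * δ‖ ≤ rv 2 := by
    rw [norm_mul]
    calc _ ≤ rv 2 * 1 := mul_le_mul h2 hδ1 (norm_nonneg _) (rv_nonneg _)
      _ = _ := by ring
  have n2 : ‖(v - (cv s.ax s.ay + cv s.bx s.bY * δ)) / (k : ℂ)‖ ≤ rv (s.e / k + 1) := by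
    rw [norm_div, Complex.norm_natCast]
    have hk' : (0 : ℝ) < (k : ℝ) := by exact_mod_cast hk
    rw [div_le_iff₀ hk']
    refine hs.trans ?_
    unfold rv
    have h : s.e < k * (s.e / k + 1) := Nat.lt_mul_div_succ _ hk
    have h' : ((s.e : ℕ) : ℝ) ≤ ((k * (s.e / k + 1) : ℕ) : ℝ) := by exact_mod_cast h.le
    rw [div_mul_eq_mul_div]
    apply div_le_div_of_nonneg_right _ (by norm_num)
    rw [Nat.cast_mul] at h'
    linarith [mul_comm (k : ℝ) ((s.e / k + 1 : ℕ) : ℝ)]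
  have h5 : rv (s.e / k + 5) = rv (s.e / k + 1) + rv 2 + rv 2 := by
    rw [← rv_add, ← rv_add]
  rw [h5]
  calc _ ≤ _ + _ + _ := (norm_add_le _ _).trans (add_le_add_left (norm_add_le _ _) _)
    _ ≤ _ := by linarith

/-- lower bound -/
theorem lo_nat (x y : ℤ) : ((x.natAbs * x.natAbs + y.natAbs * y.natAbs) / nu x y) ^ 2 ≤
    x.natAbs * x.natAbs + y.natAbs * y.natAbs := by
  have h := nu_nat x y
  have hp := nu_pos x y
  generalize nu x y = v at *
  generalize x.natAbs * x.natAbs + y.natAbs * y.natAbs = n at *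
  have h1 : n / v * v ≤ n := Nat.div_mul_le_self n v
  generalize n / v = q at *
  have h2 : (q * v) ^ 2 ≤ n ^ 2 := Nat.pow_le_pow_left h1 2
  have h3 : n ^ 2 ≤ n * v ^ 2 := by rw [pow_two]; exact Nat.mul_le_mul_left n h
  have h4 : q ^ 2 * v ^ 2 ≤ n * v ^ 2 := by rw [← mul_pow]; exact h2.trans h3
  exact Nat.le_of_mul_le_mul_right h4 (by positivity)

theorem iab_sq (x y : ℤ) : iab (iadd (imul x x) (imul y y)) =
    x.natAbs * x.natAbs + y.natAbs * y.natAbs := by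
  rw [iab_eq, iadd_eq, imul_eq, imul_eq]
  have : x * x + y * y = ((x.natAbs * x.natAbs + y.natAbs * y.natAbs : ℕ) : ℤ) := by
    rw [Nat.cast_add, Int.natAbs_mul_self, Int.natAbs_mul_self]
  rw [this, Int.natAbs_natCast]

theorem cv_lower (x y : ℤ) :
    rv ((x.natAbs * x.natAbs + y.natAbs * y.natAbs) / nu x y) ≤ ‖cv x y‖ := by
  rw [← sq_le_sq₀ (rv_nonneg _) (norm_nonneg _), cv_sq, rv, div_pow]
  have h := lo_nat x y
  have h' : ((((x.natAbs * x.natAbs + y.natAbs * y.natAbs) / nu x y) ^ 2 : ℕ) : ℝ) ≤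
      ((x.natAbs * x.natAbs + y.natAbs * y.natAbs : ℕ) : ℝ) := by exact_mod_cast h
  rw [Nat.cast_pow, Nat.cast_add (x.natAbs * x.natAbs), natAbs_sq_cast, natAbs_sq_cast] at h'
  exact div_le_div_of_nonneg_right h' (by positivity)

theorem Enc.hi {δ : ℂ} {r : ℕ} {t : T} {w : ℂ} (hδ : ‖δ‖ ≤ rv r) (ht : Enc δ t w) :
    ‖w‖ ≤ rv (t.hi r) := by
  have := ht.norm_le hδ
  simp only [T.hi, T.dev, Nat.add_eq, rv_add]
  linarith

theorem Enc.dev {δ : ℂ} {r : ℕ} {t : T} {w : ℂ} (hδ : ‖δ‖ ≤ rv r) (ht : Enc δ t w) :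
    ‖w - cv t.ax t.ay‖ ≤ rv (t.dev r) := by
  have h2 : ‖cv t.bx t.bY * δ‖ ≤ rv (mu (nu t.bx t.bY) r) :=
    norm_mul_le_mu (nu_spec _ _) hδ
  have e : w - cv t.ax t.ay = cv t.bx t.bY * δ + (w - (cv t.ax t.ay + cv t.bx t.bY * δ)) := by ring
  simp only [T.dev, Nat.add_eq, rv_add]
  rw [e]
  exact (norm_add_le _ _).trans (add_le_add h2 ht)

theorem rv_sub_le (a b : ℕ) : rv (a - b) ≤ max (rv a - rv b) 0 := by
  rcases le_total b a with h | h
  · have : rv (a - b) = rv a - rv b := by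
      have : rv a = rv (a - b) + rv b := by rw [← rv_add, Nat.sub_add_cancel h]
      linarith
    rw [this]; exact le_max_left _ _
  · rw [Nat.sub_eq_zero_of_le h]
    have : rv 0 = 0 := by simp [rv]
    rw [this]; exact le_max_right _ _

theorem Enc.lo {δ : ℂ} {r : ℕ} {t : T} {w : ℂ} (hδ : ‖δ‖ ≤ rv r) (ht : Enc δ t w) :
    rv (t.lo r) ≤ ‖w‖ := by
  have h1 := ht.dev hδ
  simp only [T.lo, nsub_eq, ndiv_eq, iab_sq]
  refine (rv_sub_le _ _).trans (max_le ?_ (norm_nonneg _))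
  have h2 := cv_lower t.ax t.ay
  have h3 : ‖cv t.ax t.ay‖ ≤ ‖w‖ + ‖w - cv t.ax t.ay‖ := by
    have e : cv t.ax t.ay = w - (w - cv t.ax t.ay) := by ring
    calc ‖cv t.ax t.ay‖ = ‖w - (w - cv t.ax t.ay)‖ := by rw [← e]
      _ ≤ _ := norm_sub_le _ _
  linarith

theorem mulT_sound {δ : ℂ} {r : ℕ} {s t : T} {v w : ℂ} {k : T → Bool} (hδ : ‖δ‖ ≤ rv r)
    (hr : rv r ≤ 1) (hs : Enc δ s v) (ht : Enc δ t w) (h : mulT r s t k = true) :
    ∃ u, Enc δ u (v * w) ∧ k u = true :=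
  ⟨_, Enc.mul hδ hr hs ht, by simpa [mulT, forceT_eq] using h⟩

theorem sqT_sound {δ : ℂ} {r : ℕ} {s : T} {v : ℂ} {k : T → Bool} (hδ : ‖δ‖ ≤ rv r)
    (hr : rv r ≤ 1) (hs : Enc δ s v) (h : sqT r s k = true) :
    ∃ u, Enc δ u (v ^ 2) ∧ k u = true :=
  ⟨_, Enc.sq hδ hr hs, by simpa [sqT, forceT_eq] using h⟩

theorem divT_sound {δ : ℂ} {r : ℕ} {s t : T} {v w : ℂ} {k : T → Bool} (hδ : ‖δ‖ ≤ rv r)
    (hr : rv r ≤ 1) (hs : Enc δ s v) (ht : Enc δ t w) (h : divT r s t k = true) :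
    w ≠ 0 ∧ ∃ u, Enc δ u (v / w) ∧ k u = true := by
  obtain ⟨ax, ay, bx, bY, e⟩ := s
  obtain ⟨cx, cy, dx, dy, f⟩ := t
  simp only [divT, T.elim, forceN_eq, forceI_eq, band_iff] at h
  obtain ⟨h1, h2⟩ := h
  generalize hix : qx ax ay cx cy (iab (iadd (imul cx cx) (imul cy cy))) = ix at *
  generalize hiy : qy ax ay cx cy (iab (iadd (imul cx cx) (imul cy cy))) = iy at *
  generalize hkx : isub bx (rmx ix iy dx dy) = kx at *
  generalize hky : isub bY (rmy ix iy dx dy) = ky at *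
  generalize hjx : qx kx ky cx cy (iab (iadd (imul cx cx) (imul cy cy))) = jx at *
  generalize hjy : qy kx ky cx cy (iab (iadd (imul cx cx) (imul cy cy))) = jy at *
  have hδ1 : ‖δ‖ ≤ 1 := hδ.trans hr
  have hDn := norm_mul_le_mu (nu_spec dx dy) hδ
  have hJn := norm_mul_le_mu (nu_spec jx jy) hδ
  have hIn := nu_spec ix iy
  have hdev : ‖w - cv cx cy‖ ≤ rv (mu (nu dx dy) r) + rv f := by
    have := ht.dev hδ
    simpa only [T.dev, Nat.add_eq, rv_add] using this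
  have hlow := cv_lower cx cy
  rw [iab_sq] at h1 h2
  set nd := mu (nu dx dy) r
  set nj := mu (nu jx jy) r
  set q := Nat.div (cx.natAbs * cx.natAbs + cy.natAbs * cy.natAbs) (nu cx cy) with hq
  set l := Nat.sub (Nat.sub q nd) f with hl
  have hl1 : 1 ≤ l := Nat.le_of_ble_eq_true h1
  have hlr : rv q = rv l + rv nd + rv f := by
    have hl2 : q - nd - f = l := rfl
    have : q = l + f + nd := by omega
    conv_lhs => rw [this]
    rw [rv_add, rv_add]; ring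
  have hlow' : rv q ≤ ‖cv cx cy‖ := hlow
  have hwl : rv l ≤ ‖w‖ := by
    have h3 : ‖cv cx cy‖ ≤ ‖w‖ + ‖w - cv cx cy‖ := by
      have e : cv cx cy = w - (w - cv cx cy) := by ring
      calc ‖cv cx cy‖ = ‖w - (w - cv cx cy)‖ := by rw [← e]
        _ ≤ _ := norm_sub_le _ _
    linarith
  have hlpos : 0 < rv l := by
    unfold rv
    have : (0 : ℝ) < (l : ℝ) := by exact_mod_cast hl1
    positivity
  have hw0 : w ≠ 0 := by
    intro h0
    rw [h0, norm_zero] at hwl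
    linarith
  refine ⟨hw0, _, ?_, h2⟩
  unfold Enc at hs ht ⊢
  simp only at hs ht ⊢
  -- residual
  have r1 := rm_spec ix iy cx cy
  have r2 := rm_spec ix iy dx dy
  have r3 := rm_spec jx jy cx cy
  have hK : cv kx ky = cv bx bY - cv (rmx ix iy dx dy) (rmy ix iy dx dy) := by
    rw [← hkx, ← hky, isub_eq, isub_eq, cv_sub]
  have m1 := nu_spec (isub ax (rmx ix iy cx cy)) (isub ay (rmy ix iy cx cy))
  have m2 := nu_spec (isub kx (rmx jx jy cx cy)) (isub ky (rmy jx jy cx cy))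
  have m1' : cv (isub ax (rmx ix iy cx cy)) (isub ay (rmy ix iy cx cy)) =
      cv ax ay - cv (rmx ix iy cx cy) (rmy ix iy cx cy) := by rw [isub_eq, isub_eq, cv_sub]
  have m2' : cv (isub kx (rmx jx jy cx cy)) (isub ky (rmy jx jy cx cy)) =
      cv kx ky - cv (rmx jx jy cx cy) (rmy jx jy cx cy) := by rw [isub_eq, isub_eq, cv_sub]
  rw [m1'] at m1
  rw [m2', hK] at m2
  set e0 := nu (isub ax (rmx ix iy cx cy)) (isub ay (rmy ix iy cx cy))
  set e1 := nu (isub kx (rmx jx jy cx cy)) (isub ky (rmy jx jy cx cy))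
  set A := cv ax ay
  set B := cv bx bY
  set C := cv cx cy
  set D := cv dx dy
  set I := cv ix iy
  set J := cv jx jy
  set P1 := cv (rmx ix iy cx cy) (rmy ix iy cx cy)
  set P2 := cv (rmx ix iy dx dy) (rmy ix iy dx dy)
  set P3 := cv (rmx jx jy cx cy) (rmy jx jy cx cy)
  have a1 : ‖A - C * I‖ ≤ rv (e0 + 2) := by
    have e : A - C * I = (A - P1) - (I * C - P1) := by ring
    rw [e, rv_add]
    exact (norm_sub_le _ _).trans (add_le_add m1 r1)
  have a2 : ‖B - D * I - C * J‖ ≤ rv (e1 + 4) := by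
    have e : B - D * I - C * J = (B - P2 - P3) - (I * D - P2) - (J * C - P3) := by ring
    rw [e, show e1 + 4 = e1 + 2 + 2 from rfl, rv_add, rv_add]
    exact (norm_sub_le _ _).trans (add_le_add ((norm_sub_le _ _).trans (add_le_add m2 r2)) r3)
  have a3 : ‖I + J * δ‖ ≤ rv (nu ix iy + nj) := by
    rw [rv_add]; exact (norm_add_le _ _).trans (add_le_add hIn hJn)
  have b2 := norm_mul_le_mu a2 hδ
  have b3 := norm_mul_le_mu hDn hJn
  have b4 := norm_mul_le_mu ht a3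
  have res : v - w * (I + J * δ) = (A - C * I) + (B - D * I - C * J) * δ - (D * δ) * (J * δ) +
      (v - (A + B * δ)) - (w - (C + D * δ)) * (I + J * δ) := by ring
  have hres : ‖v - w * (I + J * δ)‖ ≤ rv (e0 + 2 + mu (e1 + 4) r + (mu nd nj + (e +
      mu f (nu ix iy + nj)))) := by
    rw [res]
    rw [rv_add (e0 + 2 + mu (e1 + 4) r), rv_add (e0 + 2), rv_add (mu nd nj), rv_add e]
    calc _ ≤ ‖A - C * I‖ + ‖(B - D * I - C * J) * δ‖ + ‖(D * δ) * (J * δ)‖ +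
          ‖v - (A + B * δ)‖ + ‖(w - (C + D * δ)) * (I + J * δ)‖ := by
          refine (norm_sub_le _ _).trans (add_le_add_left ?_ _)
          refine (norm_add_le _ _).trans (add_le_add_left ?_ _)
          refine (norm_sub_le _ _).trans (add_le_add_left ?_ _)
          exact norm_add_le _ _
      _ ≤ _ := by linarith
  simp only [Nat.add_eq, Nat.mul_eq, ndiv_eq, Nat.succ_eq_add_one]
  set E := e0 + 2 + mu (e1 + 4) r + (mu nd nj + (e + mu f (nu ix iy + nj))) with hE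
  have e9 : v / w - (I + J * δ) = (v - w * (I + J * δ)) / w := by field_simp
  rw [e9, norm_div, div_le_iff₀ (lt_of_lt_of_le hlpos hwl)]
  refine hres.trans ?_
  have hEl : rv E ≤ rv (E * DD / l + 1) * rv l := by
    have h : E * DD < l * (E * DD / l + 1) := Nat.lt_mul_div_succ _ hl1
    have h' : ((E * DD : ℕ) : ℝ) ≤ ((l * (E * DD / l + 1) : ℕ) : ℝ) := by exact_mod_cast h.le
    rw [Nat.cast_mul, Nat.cast_mul] at h'
    unfold rv
    have hDD : ((DD : ℕ) : ℝ) = 1099511627776 := by simp [DD]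
    rw [hDD] at h'
    rw [div_mul_div_comm, div_le_div_iff₀ (by norm_num) (by norm_num)]
    nlinarith
  refine hEl.trans ?_
  exact mul_le_mul_of_nonneg_left hwl (rv_nonneg _)

end BN
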